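import Mathlib

/-!
Definitions used in the statement for MP_20b407_ag.
-/

namespace Pool.Agent.Lib.MP_20b407_ag

open Module

/-- The affine chart `A[f j / f i]` of the blow-up of `Spec A` in the ideal generated by the
`f j`, as a subalgebra of the function field `L`. -/
noncomputable def blowupChart (A L : Type) [CommRing A] [Field L] [Algebra ℂ L] [Algebra A L]
    {ι : Type} (f : ι → A) (i : ι) : Subalgebra ℂ L :=
  Algebra.adjoin ℂ (Set.range (algebraMap A L) ∪
    Set.range fun j => algebraMap A L (f j) / algebraMap A L (f i))

/-- `Spec A` has a resolution `Y` (the blow-up of an ideal, all of whose standard affine charts are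
smooth over `ℂ`) with `H¹(Y, O_Y) = 0`, computed as Cech cohomology of the standard affine cover:
the intersection of the charts `i` and `j` has coordinate ring the compositum of the two charts. -/
def HasRationalResolution (A : Type) [CommRing A] [Algebra ℂ A] : Prop :=
  ∃ (L : Type) (_ : Field L) (_ : Algebra ℂ L) (_ : Algebra A L) (_ : IsScalarTower ℂ A L)
    (_ : IsFractionRing A L) (ι : Type) (_ : Finite ι) (_ : Nonempty ι) (f : ι → A),
    (∀ i, f i ≠ 0) ∧
    (∀ i, Algebra.Smooth ℂ (blowupChart A L f i)) ∧
    ∀ c : ι → ι → L, (∀ i j, c i j ∈ blowupChart A L f i ⊔ blowupChart A L f j) →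
      (∀ i j k, c i j + c j k = c i k) →
      ∃ a : ι → L, (∀ i, a i ∈ blowupChart A L f i) ∧ ∀ i j, c i j = a i - a j

/-- The image of the top exterior power of the Kaehler differentials of `O` in the top exterior
power of the differentials of the function field `K`, the latter identified with `K` by the
basis `b`. -/
noncomputable def topFormModule (O K : Type) [CommRing O] [Field K] [Algebra ℂ K] [Algebra O K]
    {d : ℕ} (b : Basis (Fin d) K Ω[K⁄ℂ]) : Submodule O K :=
  Submodule.span O {g | ∃ f : Fin d → O,
    g = b.det fun j => KaehlerDifferential.D ℂ K (algebraMap O K (f j))}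

/-- `O(nK)`: the reflexive hull (double dual inside `K`) of the `n`-th power of the module of
top forms. -/
noncomputable def pluricanonicalModule (O K : Type) [CommRing O] [Field K] [Algebra ℂ K]
    [Algebra O K] {d : ℕ} (b : Basis (Fin d) K Ω[K⁄ℂ]) (n : ℕ) : Submodule O K :=
  1 / (1 / topFormModule O K b ^ n)

/-- The canonical algebra, the direct sum of the `O(nK)` placed in degree `n` of `K[X]`. -/
noncomputable def canonicalAlgebra (O K : Type) [CommRing O] [Field K] [Algebra ℂ K]
    [Algebra O K] {d : ℕ} (b : Basis (Fin d) K Ω[K⁄ℂ]) : Subalgebra O (Polynomial K) :=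
  Algebra.adjoin O {F | ∃ n, ∃ g ∈ pluricanonicalModule O K b n, F = Polynomial.monomial n g}

end Pool.Agent.Lib.MP_20b407_ag
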