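import Mathlib

/-! The explicit configuration: four quartic curves meeting in eighteen points. -/

set_option linter.unusedSectionVars false

namespace Pool.Agent.Lib.MP_20b407_ag

open Finset

/-- the points -/
def aQ : Fin 18 → ℚ :=
  ![-1, 1, -11/61, -39, 27/11, -55/9, 36/19, -22/3, -9, -3, 5, -6, -4, 6, -7, -2, 0, 4]

/-- the points as complex numbers -/
noncomputable def aa (p : Fin 18) : ℂ := (aQ p : ℂ)

/-- the curves through a point -/
def JJ : Fin 18 → Finset (Fin 4) :=
  ![{0, 1, 2}, {0, 1, 2}, {0, 1, 3}, {0, 1}, {0, 2}, {0, 2}, {1, 2}, {1, 2}, {0, 3}, {0, 3}, {0, 3},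
    {1, 3}, {1, 3}, {1, 3}, {2, 3}, {2, 3}, {2, 3}, {2, 3}]

/-- leading coefficients -/
def scZ : Fin 4 → ℤ := ![0, 183, -3465, 2135]

/-- leading coefficients as complex numbers -/
noncomputable def sc (i : Fin 4) : ℂ := (scZ i : ℂ)

/-- a curve through the point -/
def ip : Fin 18 → Fin 4 := ![0, 0, 0, 0, 0, 0, 1, 1, 0, 0, 0, 1, 1, 1, 2, 2, 2, 2]

/-- common points of two curves -/
def cp (i j : Fin 4) : Finset (Fin 18) := univ.filter fun p => i ∈ JJ p ∧ j ∈ JJ p

/-- weights -/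
def al : Fin 4 → ℕ := ![5, 5, 6, 7]

theorem aQ_inj : Function.Injective aQ := by decide +kernel

theorem aa_inj : Function.Injective aa := fun _ _ h => aQ_inj (by unfold aa at h; exact_mod_cast h)

theorem scZ_inj : Function.Injective scZ := by decide

theorem sc_inj : Function.Injective sc := fun _ _ h => scZ_inj (by unfold sc at h; exact_mod_cast h)

theorem sc_zero : sc 0 = 0 := by simp [sc, scZ]

theorem ip_mem (p : Fin 18) : ip p ∈ JJ p := by revert p; decide

theorem mem_cp {i j : Fin 4} {p : Fin 18} : p ∈ cp i j ↔ i ∈ JJ p ∧ j ∈ JJ p := by simp [cp]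

theorem card_cp (i j : Fin 4) : (cp i j).card = if i = j then 4 + al i else 4 := by
  revert i j; decide

theorem cp_comm (i j : Fin 4) : cp i j = cp j i := by ext; simp [mem_cp, and_comm]

theorem cp01 : cp 0 1 = {0, 1, 2, 3} := by decide
theorem cp02 : cp 0 2 = {0, 1, 4, 5} := by decide
theorem cp03 : cp 0 3 = {2, 8, 9, 10} := by decide
theorem cp12 : cp 1 2 = {0, 1, 6, 7} := by decide
theorem cp13 : cp 1 3 = {2, 11, 12, 13} := by decide
theorem cp23 : cp 2 3 = {14, 15, 16, 17} := by decide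

section

variable {B B' : Type} [CommRing B] [Algebra ℂ B] [CommRing B'] [Algebra ℂ B']

/-- linear form of a point -/
noncomputable def lam (x t : B) (p : Fin 18) : B := x - algebraMap ℂ B (aa p) * t

/-- product of the linear forms of common points -/
noncomputable def pr (x t : B) (i j : Fin 4) : B := ∏ p ∈ cp i j, lam x t p

/-- the quartics -/
noncomputable def sig (x t : B) (i : Fin 4) : B := algebraMap ℂ B (sc i) * pr x t 0 i

/-- equations of the curves -/
noncomputable def ell (x t y : B) (i : Fin 4) : B := y - sig x t i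

/-- difference quotient -/
noncomputable def dd (x t : B) (p : Fin 18) (i j : Fin 4) : B :=
  algebraMap ℂ B (sc i - sc j) * ∏ q ∈ (cp i j).erase p, lam x t q

variable (φ : B →ₐ[ℂ] B') (x t y : B)

@[simp] theorem map_lam (p : Fin 18) : φ (lam x t p) = lam (φ x) (φ t) p := by
  simp [lam]

@[simp] theorem map_pr (i j : Fin 4) : φ (pr x t i j) = pr (φ x) (φ t) i j := by
  simp only [pr, map_prod, map_lam]

@[simp] theorem map_sig (i : Fin 4) : φ (sig x t i) = sig (φ x) (φ t) i := by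
  simp only [sig, map_mul, map_pr, AlgHom.commutes]

@[simp] theorem map_ell (i : Fin 4) : φ (ell x t y i) = ell (φ x) (φ t) (φ y) i := by
  simp only [ell, map_sub, map_sig]

@[simp] theorem map_dd (p : Fin 18) (i j : Fin 4) : φ (dd x t p i j) = dd (φ x) (φ t) p i j := by
  simp only [dd, map_mul, map_prod, map_lam, AlgHom.commutes]

theorem sig_zero : sig x t 0 = 0 := by simp [sig, sc_zero]

theorem sig_sub_C (x t : ℂ) (i j : Fin 4) :
    sig x t i - sig x t j = algebraMap ℂ ℂ (sc i - sc j) * pr x t i j := by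
  have h12 : sig x t 1 - sig x t 2 = algebraMap ℂ ℂ (sc 1 - sc 2) * pr x t 1 2 := by
    simp [sig, pr, cp01, cp02, cp12, lam, aa, aQ, sc, scZ]; ring
  have h13 : sig x t 1 - sig x t 3 = algebraMap ℂ ℂ (sc 1 - sc 3) * pr x t 1 3 := by
    simp [sig, pr, cp01, cp03, cp13, lam, aa, aQ, sc, scZ]; ring
  have h23 : sig x t 2 - sig x t 3 = algebraMap ℂ ℂ (sc 2 - sc 3) * pr x t 2 3 := by
    simp [sig, pr, cp02, cp03, cp23, lam, aa, aQ, sc, scZ]; ring
  have h0 : ∀ i, sig x t 0 - sig x t i = algebraMap ℂ ℂ (sc 0 - sc i) * pr x t 0 i := by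
    intro i; rw [sig_zero, sc_zero]; simp [sig]
  have hs : ∀ i j, sig x t i - sig x t j = algebraMap ℂ ℂ (sc i - sc j) * pr x t i j →
      sig x t j - sig x t i = algebraMap ℂ ℂ (sc j - sc i) * pr x t j i := by
    intro i j h
    rw [pr, cp_comm, ← pr, ← neg_sub, h, ← neg_sub (sc i), map_neg, neg_mul]
  have hd : ∀ i, sig x t i - sig x t i = algebraMap ℂ ℂ (sc i - sc i) * pr x t i i := by simp
  fin_cases i <;> fin_cases j
  exacts [hd _, h0 _, h0 _, h0 _, hs _ _ (h0 _), hd _, h12, h13, hs _ _ (h0 _), hs _ _ h12, hd _,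
    h23, hs _ _ (h0 _), hs _ _ h13, hs _ _ h23, hd _]

theorem sig_sub (i j : Fin 4) :
    sig x t i - sig x t j = algebraMap ℂ B (sc i - sc j) * pr x t i j := by
  have h : sig (MvPolynomial.X 0 : MvPolynomial (Fin 2) ℂ) (MvPolynomial.X 1) i -
      sig (MvPolynomial.X 0) (MvPolynomial.X 1) j =
      algebraMap ℂ _ (sc i - sc j) * pr (MvPolynomial.X 0) (MvPolynomial.X 1) i j := by
    refine MvPolynomial.funext fun v => ?_
    rw [← MvPolynomial.coe_aeval_eq_eval]
    simp only [RingHom.coe_coe, map_sub, map_mul, map_sig, map_pr, AlgHom.commutes]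
    rw [← map_sub]
    exact sig_sub_C _ _ i j
  have := congrArg (MvPolynomial.aeval (R := ℂ) ![x, t]) h
  simp only [map_sub, map_mul, map_sig, map_pr, AlgHom.commutes, MvPolynomial.aeval_X] at this
  rw [map_sub]
  exact this

theorem sig_sub_dd {p : Fin 18} {i j : Fin 4} (hi : i ∈ JJ p) (hj : j ∈ JJ p) :
    sig x t i - sig x t j = lam x t p * dd x t p i j := by
  rw [sig_sub, dd, pr, ← Finset.mul_prod_erase _ _ (mem_cp.mpr ⟨hi, hj⟩)]; ring

theorem lam_smul (τ : B) (p : Fin 18) : lam (x * τ) (t * τ) p = lam x t p * τ := by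
  unfold lam; ring

theorem pr_smul (τ : B) (i j : Fin 4) :
    pr (x * τ) (t * τ) i j = pr x t i j * τ ^ (cp i j).card := by
  simp only [pr, lam_smul, prod_mul_distrib, prod_const]

theorem sig_smul (τ : B) (i : Fin 4) : sig (x * τ) (t * τ) i = sig x t i * τ ^ 4 := by
  by_cases h : i = 0
  · subst h; simp [sig_zero]
  · rw [sig, sig, pr_smul, card_cp, if_neg (Ne.symm h), mul_assoc]

theorem pr_zero (i j : Fin 4) : pr x 0 i j = x ^ (cp i j).card := by
  simp [pr, lam]

theorem sig_zero' (i : Fin 4) : sig x 0 i = algebraMap ℂ B (sc i) * x ^ 4 := by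
  by_cases h : i = 0
  · subst h; simp [sig_zero, sc_zero]
  · rw [sig, pr_zero, card_cp, if_neg (Ne.symm h)]

theorem prod_pr_pow (i : Fin 4) (b : Fin 4 → ℕ) :
    ∏ j, pr x t i j ^ b j = ∏ p ∈ cp i i, lam x t p ^ ∑ j ∈ JJ p, b j := by
  simp only [pr, ← prod_pow, ← prod_pow_eq_pow_sum]
  refine prod_comm' fun j p => ?_
  simp only [mem_cp, mem_univ, true_and]
  tauto

/-- the key step in the generation lemma -/
theorem star_of_dvd (ev : B →ₐ[ℂ] B) (i : Fin 4) (hx : ev x = x) (ht : ev t = t)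
    (hy : ev y = sig x t i) (hev : ∀ F, ev (ev F) = ev F) (hd : ∀ F, ell x t y i ∣ F - ev F)
    (Φ : B) (b : Fin 4 → ℕ) (h : ∏ j, pr x t i j ^ b j ∣ ev Φ) :
    ∃ u, ell x t y i ∣ Φ - u * pr x t i i ^ b i * ∏ j ∈ univ.erase i, ell x t y j ^ b j := by
  obtain ⟨u, hu⟩ := h
  let c : ℂ := ∏ j ∈ univ.erase i, (sc i - sc j) ^ b j
  have hc : c ≠ 0 := prod_ne_zero_iff.mpr fun j hj => pow_ne_zero _
    (sub_ne_zero.mpr fun h => ne_of_mem_erase hj (sc_inj h).symm)
  refine ⟨algebraMap ℂ B c⁻¹ * u, ?_⟩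
  have := hd (Φ - algebraMap ℂ B c⁻¹ * u * pr x t i i ^ b i *
    ∏ j ∈ univ.erase i, ell x t y j ^ b j)
  convert this using 1
  have h1 := congrArg ev hu
  rw [hev] at h1
  simp only [map_mul, map_prod, map_pow, map_pr, hx, ht, map_sub, map_ell, hy, AlgHom.commutes]
    at h1 ⊢
  simp only [ell, sig_sub, mul_pow, prod_mul_distrib, ← map_pow, ← map_prod]
  rw [h1, ← Finset.mul_prod_erase _ _ (mem_univ i)]
  have h2 : algebraMap ℂ B c⁻¹ * algebraMap ℂ B c = 1 := by
    rw [← map_mul, inv_mul_cancel₀ hc, map_one]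
  linear_combination (-(pr x t i i ^ b i * (∏ j ∈ univ.erase i, pr x t i j ^ b j) * ev u)) * h2

end

end Pool.Agent.Lib.MP_20b407_ag
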