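import Mathlib

/-! Order of vanishing valuations and a small calculus for them. -/

namespace Pool.Agent.Lib.MP_20b407_ag

open WithZero

section calculus

variable {K : Type*} [Field K] (v : Valuation K ℤᵐ⁰)

/-- order at least `n` -/
def VGe (n : ℤ) (g : K) : Prop := v g ≤ exp (-n)

/-- order exactly `n` -/
def VEq (n : ℤ) (g : K) : Prop := v g = exp (-n)

variable {v}

theorem VGe.zero (n : ℤ) : VGe v n 0 := by simp [VGe]

theorem VEq.ge {n : ℤ} {a : K} (h : VEq v n a) : VGe v n a := le_of_eq h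

theorem VGe.mono {m n : ℤ} {a : K} (h : VGe v n a) (hmn : m ≤ n) : VGe v m a :=
  le_trans h (exp_le_exp.mpr (by omega))

theorem VGe.add {n : ℤ} {a b : K} (ha : VGe v n a) (hb : VGe v n b) : VGe v n (a + b) :=
  v.map_add_le ha hb

theorem VGe.neg {n : ℤ} {a : K} (ha : VGe v n a) : VGe v n (-a) := by
  simpa [VGe] using ha

theorem VEq.neg {n : ℤ} {a : K} (ha : VEq v n a) : VEq v n (-a) := by
  simpa [VEq] using ha

theorem VGe.sub {n : ℤ} {a b : K} (ha : VGe v n a) (hb : VGe v n b) : VGe v n (a - b) :=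
  v.map_sub_le ha hb

theorem VGe.mul {m n : ℤ} {a b : K} (ha : VGe v m a) (hb : VGe v n b) :
    VGe v (m + n) (a * b) := by
  unfold VGe at *
  rw [map_mul, neg_add, exp_add]
  exact mul_le_mul' ha hb

theorem VGe.mul' {m n k : ℤ} {a b : K} (ha : VGe v m a) (hb : VGe v n b) (h : k ≤ m + n) :
    VGe v k (a * b) := (ha.mul hb).mono h

theorem VEq.mul {m n : ℤ} {a b : K} (ha : VEq v m a) (hb : VEq v n b) :
    VEq v (m + n) (a * b) := by
  unfold VEq at *
  rw [map_mul, neg_add, exp_add, ha, hb]

theorem VEq.one : VEq v 0 (1 : K) := by simp [VEq]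

theorem VEq.ne_zero {n : ℤ} {a : K} (ha : VEq v n a) : a ≠ 0 := by
  rintro rfl
  unfold VEq at ha
  rw [map_zero] at ha
  exact exp_ne_zero ha.symm

theorem VEq.inv {n : ℤ} {a : K} (ha : VEq v n a) : VEq v (-n) a⁻¹ := by
  unfold VEq at *
  rw [map_inv₀, ha, ← exp_neg]

theorem VEq.div {m n : ℤ} {a b : K} (ha : VEq v m a) (hb : VEq v n b) :
    VEq v (m - n) (a / b) := by
  rw [div_eq_mul_inv, sub_eq_add_neg]; exact ha.mul hb.inv

theorem VGe.div {m n : ℤ} {a b : K} (ha : VGe v m a) (hb : VEq v n b) :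
    VGe v (m - n) (a / b) := by
  rw [div_eq_mul_inv, sub_eq_add_neg]; exact ha.mul hb.inv.ge

theorem VEq.congr {m n : ℤ} {a : K} (ha : VEq v m a) (h : m = n) : VEq v n a := h ▸ ha

theorem VEq.pow {n : ℤ} {a : K} (ha : VEq v n a) (k : ℕ) : VEq v (k * n) (a ^ k) := by
  induction k with
  | zero => simpa using VEq.one
  | succ k ih => rw [pow_succ]; exact (ih.mul ha).congr (by push_cast; ring)

theorem VGe.pow {n : ℤ} {a : K} (ha : VGe v n a) (k : ℕ) : VGe v (k * n) (a ^ k) := by
  induction k with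
  | zero => simpa using VEq.one.ge
  | succ k ih => rw [pow_succ]; exact (ih.mul ha).mono (by push_cast; exact le_of_eq (by ring))

theorem VGe.sum {ι : Type*} {n : ℤ} {s : Finset ι} {f : ι → K} (h : ∀ i ∈ s, VGe v n (f i)) :
    VGe v n (∑ i ∈ s, f i) := v.map_sum_le h

theorem VEq.prod {ι : Type*} {s : Finset ι} {n : ι → ℤ} {f : ι → K}
    (h : ∀ i ∈ s, VEq v (n i) (f i)) : VEq v (∑ i ∈ s, n i) (∏ i ∈ s, f i) := by
  classical
  induction s using Finset.induction_on with
  | empty => simpa using VEq.one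
  | insert a s ha ih =>
    rw [Finset.sum_insert ha, Finset.prod_insert ha]
    exact (h a (by simp)).mul (ih fun i hi => h i (by simp [hi]))

theorem VGe.prod {ι : Type*} {s : Finset ι} {n : ι → ℤ} {f : ι → K}
    (h : ∀ i ∈ s, VGe v (n i) (f i)) : VGe v (∑ i ∈ s, n i) (∏ i ∈ s, f i) := by
  classical
  induction s using Finset.induction_on with
  | empty => simpa using VEq.one.ge
  | insert a s ha ih =>
    rw [Finset.sum_insert ha, Finset.prod_insert ha]
    exact (h a (by simp)).mul (ih fun i hi => h i (by simp [hi]))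

theorem VEq.add_ge {n : ℤ} {a b : K} (ha : VEq v n a) (hb : VGe v (n + 1) b) :
    VEq v n (a + b) := by
  unfold VEq VGe at *
  rw [v.map_add_eq_of_lt_left, ha]
  rw [ha]
  exact lt_of_le_of_lt hb (exp_lt_exp.mpr (by omega))

theorem VEq.le {m n : ℤ} {a : K} (ha : VEq v n a) (hb : VGe v m a) : m ≤ n := by
  unfold VEq VGe at *
  rw [ha, exp_le_exp] at hb
  omega

theorem VEq.unique {m n : ℤ} {a : K} (ha : VEq v n a) (hb : VEq v m a) : m = n :=
  le_antisymm (ha.le hb.ge) (hb.le ha.ge)

theorem VGe.of_mul {m n : ℤ} {a b : K} (hab : VGe v m (a * b)) (hb : VEq v n b) :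
    VGe v (m - n) a := by
  have := hab.div hb
  rwa [mul_div_cancel_right₀ _ hb.ne_zero] at this

theorem exists_VEq {a : K} (ha : a ≠ 0) : ∃ n, VEq v n a := by
  have : v a ≠ 0 := by simpa using ha
  exact ⟨-log (v a), by simp [VEq, exp_log this]⟩

theorem VGe.of_sq {n : ℤ} {a : K} (h : VGe v (2 * n) (a ^ 2)) : VGe v n a := by
  by_cases ha : a = 0
  · subst ha; exact VGe.zero _
  obtain ⟨m, hm⟩ := exists_VEq (v := v) ha
  have := (hm.pow 2).le h
  exact hm.ge.mono (by push_cast at this; omega)

theorem VGe.of_isIntegral {A : Type*} [CommRing A] [Algebra A K]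
    (hA : ∀ a : A, VGe v 0 (algebraMap A K a)) {g : K} (hg : IsIntegral A g) : VGe v 0 g := by
  by_contra hn
  have hg0 : g ≠ 0 := by rintro rfl; exact hn (VGe.zero _)
  obtain ⟨m, hm⟩ := exists_VEq (v := v) hg0
  have hm0 : m ≤ -1 := by
    by_contra h
    exact hn (hm.ge.mono (by omega))
  obtain ⟨p, hp, h0⟩ := hg
  rw [hp.as_sum, Polynomial.eval₂_add, Polynomial.eval₂_X_pow, Polynomial.eval₂_finsetSum] at h0
  have h1 : VGe v (p.natDegree * m + 1) (∑ i ∈ Finset.range p.natDegree,
      Polynomial.eval₂ (algebraMap A K) g (Polynomial.C (p.coeff i) * Polynomial.X ^ i)) := by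
    refine VGe.sum fun i hi => ?_
    rw [Polynomial.eval₂_mul, Polynomial.eval₂_C, Polynomial.eval₂_X_pow]
    refine (hA _).mul' (hm.pow i).ge ?_
    have : i + 1 ≤ p.natDegree := Finset.mem_range.mp hi
    have h2 : ((i : ℤ) + 1) ≤ p.natDegree := by exact_mod_cast this
    nlinarith
  have := (hm.pow p.natDegree).add_ge h1
  exact this.ne_zero h0

/-- the valuation ring as a subring -/
def vring (v : Valuation K ℤᵐ⁰) : Subring K where
  carrier := {g | VGe v 0 g}
  mul_mem' ha hb := ha.mul' hb (by simp)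
  one_mem' := VEq.one.ge
  add_mem' ha hb := ha.add hb
  zero_mem' := VGe.zero _
  neg_mem' ha := ha.neg

end calculus

section prime

variable {T : Type*} [CommRing T] [IsDomain T] [WfDvdMonoid T] {π : T}

open Classical in
/-- the `π`-adic valuation -/
noncomputable def primeVal (hπ : Prime π) : Valuation T ℤᵐ⁰ where
  toFun a := if a = 0 then 0 else exp (-(multiplicity π a : ℤ))
  map_zero' := by simp
  map_one' := by
    simp [multiplicity_eq_zero.mpr hπ.not_dvd_one]
  map_mul' a b := by
    by_cases ha : a = 0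
    · simp [ha]
    by_cases hb : b = 0
    · simp [hb]
    have hf : FiniteMultiplicity π (a * b) :=
      FiniteMultiplicity.of_not_isUnit hπ.not_isUnit (mul_ne_zero ha hb)
    simp only [ha, hb, mul_ne_zero ha hb, if_false]
    rw [multiplicity_mul hπ hf, ← exp_add]
    congr 1
    push_cast; ring
  map_add_le_max' a b := by
    by_cases ha : a = 0
    · simp [ha]
    by_cases hb : b = 0
    · simp [hb]
    by_cases hab : a + b = 0
    · simp [hab]
    simp only [ha, hb, hab, if_false]
    have hf : FiniteMultiplicity π (a + b) := FiniteMultiplicity.of_not_isUnit hπ.not_isUnit hab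
    rcases le_total (multiplicity π a) (multiplicity π b) with h | h
    · refine le_trans ?_ (le_max_left _ _)
      have : π ^ multiplicity π a ∣ a + b :=
        dvd_add (pow_multiplicity_dvd _ _) ((pow_dvd_pow _ h).trans (pow_multiplicity_dvd _ _))
      have := hf.le_multiplicity_of_pow_dvd this
      exact exp_le_exp.mpr (by omega)
    · refine le_trans ?_ (le_max_right _ _)
      have : π ^ multiplicity π b ∣ a + b :=
        dvd_add ((pow_dvd_pow _ h).trans (pow_multiplicity_dvd _ _)) (pow_multiplicity_dvd _ _)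
      have := hf.le_multiplicity_of_pow_dvd this
      exact exp_le_exp.mpr (by omega)

open Classical in
theorem primeVal_apply (hπ : Prime π) (a : T) :
    primeVal hπ a = if a = 0 then 0 else exp (-(multiplicity π a : ℤ)) := rfl

theorem primeVal_le_iff (hπ : Prime π) (a : T) (n : ℕ) :
    primeVal hπ a ≤ exp (-(n : ℤ)) ↔ π ^ n ∣ a := by
  rw [primeVal_apply]
  by_cases ha : a = 0
  · simp [ha]
  have hf : FiniteMultiplicity π a := FiniteMultiplicity.of_not_isUnit hπ.not_isUnit ha
  simp only [ha, if_false, exp_le_exp]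
  rw [hf.pow_dvd_iff_le_multiplicity]
  omega

variable {S : Type*} [CommRing S] [IsDomain S] (K : Type*) [Field K] [Algebra S K]
  [IsFractionRing S K]

/-- the valuation on the fraction field of `S` induced by an embedding into `T` -/
noncomputable def embVal (hπ : Prime π) (φ : S →+* T) (hφ : Function.Injective φ) :
    Valuation K ℤᵐ⁰ :=
  ((primeVal hπ).comap φ).extendToLocalization (S := nonZeroDivisors S) (by
    intro a ha
    have ha0 : φ a ≠ 0 := fun h => nonZeroDivisors.ne_zero ha (hφ (by rw [h, map_zero]))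
    simp [Ideal.primeCompl, primeVal_apply, ha0]) K

theorem embVal_ge_iff (hπ : Prime π) (φ : S →+* T) (hφ : Function.Injective φ) (a : S) (n : ℕ) :
    VGe (embVal K hπ φ hφ) n (algebraMap S K a) ↔ π ^ n ∣ φ a := by
  rw [VGe, embVal, Valuation.extendToLocalization_apply_map_apply, Valuation.comap_apply,
    primeVal_le_iff]

theorem embVal_ge_zero (hπ : Prime π) (φ : S →+* T) (hφ : Function.Injective φ) (a : S) :
    VGe (embVal K hπ φ hφ) 0 (algebraMap S K a) := by
  simpa using (embVal_ge_iff K hπ φ hφ a 0).mpr (by simp)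

theorem embVal_eq (hπ : Prime π) (φ : S →+* T) (hφ : Function.Injective φ) (a : S) (n : ℕ)
    (u : T) (hu : φ a = π ^ n * u) (hn : ¬ π ∣ u) :
    VEq (embVal K hπ φ hφ) n (algebraMap S K a) := by
  have ha : algebraMap S K a ≠ 0 := by
    intro h
    have : a = 0 := IsFractionRing.injective S K (by rw [h, map_zero])
    subst this
    rw [map_zero] at hu
    rcases mul_eq_zero.mp hu.symm with h | h
    · exact pow_ne_zero _ hπ.ne_zero h
    · exact hn (h ▸ dvd_zero _)
  obtain ⟨m, hm⟩ := exists_VEq (v := embVal K hπ φ hφ) ha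
  have h1 := hm.le ((embVal_ge_iff K hπ φ hφ a n).mpr ⟨u, hu⟩)
  have h2 : m ≤ n := by
    by_contra h
    have := (embVal_ge_iff K hπ φ hφ a (n + 1)).mp (hm.ge.mono (by push_cast; omega))
    rw [hu, pow_succ] at this
    exact hn ((mul_dvd_mul_iff_left (pow_ne_zero _ hπ.ne_zero)).mp this)
  exact hm.congr (by omega)

end prime

end Pool.Agent.Lib.MP_20b407_ag
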