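import Mathlib
import Pool.Agent.Lib.MP_20b407_ag.Val

/-! Generation lemma, normality and specialisation. -/

set_option linter.unusedSectionVars false

namespace Pool.Agent.Lib.MP_20b407_ag

variable {T K : Type} [CommRing T] [IsDomain T] [Field K] [Algebra T K] [IsFractionRing T K]

theorem gen_lemma {ι : Type} [Fintype ι] [DecidableEq ι] (l G : ι → T) (hl : ∀ i, l i ≠ 0)
    (M R : Subring K) (hRM : R ≤ M) (hT : ∀ a, algebraMap T K a ∈ R)
    (hW : ∀ i, algebraMap T K (G i) / algebraMap T K (l i) ∈ R)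
    (hstar : ∀ (Φ : T) (b : ι → ℕ) (i : ι),
      algebraMap T K Φ / algebraMap T K (∏ j, l j ^ b j) ∈ M →
      ∃ u, l i ∣ Φ - u * G i ^ b i * ∏ j ∈ Finset.univ.erase i, l j ^ b j)
    (Φ : T) (b : ι → ℕ) (h : algebraMap T K Φ / algebraMap T K (∏ j, l j ^ b j) ∈ M) :
    algebraMap T K Φ / algebraMap T K (∏ j, l j ^ b j) ∈ R := by
  have hl' : ∀ i, algebraMap T K (l i) ≠ 0 := fun i => by simpa using hl i
  induction hn : ∑ j, b j generalizing Φ b with
  | zero =>
    have : ∀ j, b j = 0 := fun j => Finset.sum_eq_zero_iff.mp hn j (Finset.mem_univ j)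
    simpa [this] using hT Φ
  | succ n ih =>
    obtain ⟨i, -, hi⟩ := Finset.exists_ne_zero_of_sum_ne_zero
      (s := Finset.univ) (f := b) (by rw [hn]; exact Nat.succ_ne_zero n)
    obtain ⟨u, Φ', hΦ'⟩ := hstar Φ b i h
    obtain ⟨c, hc⟩ := Nat.exists_eq_succ_of_ne_zero hi
    let b' := Function.update b i c
    have hb' : ∀ j ∈ Finset.univ.erase i, b' j = b j := fun j hj =>
      Function.update_of_ne (Finset.ne_of_mem_erase hj) _ _
    have hbi : b' i = c := Function.update_self _ _ _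
    have hP : ∀ e : ι → ℕ, ∏ j, l j ^ e j = l i ^ e i * ∏ j ∈ Finset.univ.erase i, l j ^ e j :=
      fun e => (Finset.mul_prod_erase _ (fun j => l j ^ e j) (Finset.mem_univ i)).symm
    have hQ : ∏ j ∈ Finset.univ.erase i, l j ^ b' j = ∏ j ∈ Finset.univ.erase i, l j ^ b j :=
      Finset.prod_congr rfl fun j hj => by rw [hb' j hj]
    have hQ0 : algebraMap T K (∏ j ∈ Finset.univ.erase i, l j ^ b j) ≠ 0 := by
      simpa using Finset.prod_ne_zero_iff.mpr fun j _ => pow_ne_zero (b j) (hl' j)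
    have key : algebraMap T K Φ / algebraMap T K (∏ j, l j ^ b j) =
        algebraMap T K Φ' / algebraMap T K (∏ j, l j ^ b' j) +
          algebraMap T K u * (algebraMap T K (G i) / algebraMap T K (l i)) ^ b i := by
      have h1 : Φ = l i * Φ' + u * G i ^ b i * ∏ j ∈ Finset.univ.erase i, l j ^ b j := by
        rw [← hΦ']; ring
      rw [hP b, hP b', hQ, hbi, h1, hc]
      have := hl' i
      simp only [map_add, map_mul, map_pow, div_pow, Nat.succ_eq_add_one]
      field_simp
      ring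
    have h2 : algebraMap T K u * (algebraMap T K (G i) / algebraMap T K (l i)) ^ b i ∈ R :=
      mul_mem (hT u) (pow_mem (hW i) _)
    rw [key] at h ⊢
    refine add_mem (ih Φ' b' ?_ ?_) h2
    · simpa using sub_mem h (hRM h2)
    · rw [← Finset.add_sum_erase _ _ (Finset.mem_univ i)] at hn ⊢
      have h3 : ∑ j ∈ Finset.univ.erase i, b' j = ∑ j ∈ Finset.univ.erase i, b j :=
        Finset.sum_congr rfl hb'
      omega

theorem away_of_integral [IsIntegrallyClosed T] (l : T) (hl : l ≠ 0) {A : Type} [CommRing A]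
    [Algebra A K]
    (hA : ∀ a : A, ∃ (N : ℕ) (Φ : T), algebraMap A K a * algebraMap T K l ^ N = algebraMap T K Φ)
    {g : K} (hg : IsIntegral A g) :
    ∃ (N : ℕ) (Φ : T), g * algebraMap T K l ^ N = algebraMap T K Φ := by
  have hle : Submonoid.powers l ≤ nonZeroDivisors T :=
    powers_le_nonZeroDivisors_of_noZeroDivisors hl
  have hl' : algebraMap T K l ≠ 0 := by simpa using hl
  let Lo := Localization.subalgebra.ofField K (Submonoid.powers l) hle
  have hic : IsIntegrallyClosed Lo := isIntegrallyClosed_of_isLocalization Lo _ hle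
  have hmem : ∀ a : A, algebraMap A K a ∈ Lo := by
    intro a
    obtain ⟨N, Φ, h⟩ := hA a
    refine ⟨Φ, l ^ N, ⟨N, rfl⟩, ?_⟩
    rw [← h, map_pow]; field_simp
  let φ : A →+* Lo := (algebraMap A K).codRestrict Lo hmem
  have h1 : IsIntegral Lo ((RingHom.id K) g) := hg.map_of_comp_eq φ (RingHom.id K) (by ext; rfl)
  obtain ⟨⟨y, Φ, s, ⟨N, rfl⟩, h⟩, hy⟩ := IsIntegrallyClosed.isIntegral_iff.mp h1
  refine ⟨N, Φ, ?_⟩
  have : g = y := hy.symm
  rw [this, h, map_pow]; field_simp

theorem exists_spec [Algebra ℂ T] [Algebra ℂ K] [IsScalarTower ℂ T K] {L : Type} [Field L]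
    [Algebra ℂ L] (l : T) (sp : T →ₐ[ℂ] L) (hsp : sp l ≠ 0) (R : Subalgebra ℂ K)
    (hR : ∀ r ∈ R, ∃ (N : ℕ) (Φ : T), r * algebraMap T K l ^ N = algebraMap T K Φ) :
    ∃ f : R →ₐ[ℂ] L, ∀ (r : R) (N : ℕ) (Φ : T),
      (r : K) * algebraMap T K l ^ N = algebraMap T K Φ → f r * sp l ^ N = sp Φ := by
  choose N Φ h using hR
  let f : R → L := fun r => sp (Φ r r.2) / sp l ^ N r r.2
  have key : ∀ (r : R) (N' : ℕ) (Φ' : T),
      (r : K) * algebraMap T K l ^ N' = algebraMap T K Φ' → f r * sp l ^ N' = sp Φ' := by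
    intro r N' Φ' h'
    have h1 : Φ r r.2 * l ^ N' = Φ' * l ^ N r r.2 := by
      apply IsFractionRing.injective T K
      simp only [map_mul, map_pow, ← h', ← h r r.2]; ring
    have h2 := congrArg sp h1
    simp only [map_mul, map_pow] at h2
    simp only [f]
    field_simp
    linear_combination h2
  have hc : ∀ (a b : L) (n : ℕ), a * sp l ^ n = b * sp l ^ n → a = b :=
    fun a b n h => mul_right_cancel₀ (pow_ne_zero _ hsp) h
  have hcm : ∀ c : ℂ, f (algebraMap ℂ R c) = algebraMap ℂ L c := by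
    intro c
    have := key (algebraMap ℂ R c) 0 (algebraMap ℂ T c)
      (by rw [← IsScalarTower.algebraMap_apply]; simp)
    simpa using this
  refine ⟨⟨⟨⟨⟨f, by simpa using hcm 1⟩, fun a b => ?_⟩, by simpa using hcm 0, fun a b => ?_⟩,
    hcm⟩, key⟩
  · refine hc _ _ (N a a.2 + N b b.2) ?_
    have := key (a * b) (N a a.2 + N b b.2) (Φ a a.2 * Φ b b.2) (by
      rw [map_mul, ← h a a.2, ← h b b.2]; push_cast; ring)
    rw [this, map_mul, ← key a _ _ (h a a.2), ← key b _ _ (h b b.2)]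
    ring
  · refine hc _ _ (N a a.2 + N b b.2) ?_
    have := key (a + b) (N a a.2 + N b b.2) (Φ a a.2 * l ^ N b b.2 + Φ b b.2 * l ^ N a a.2) (by
      rw [map_add, map_mul, map_mul, map_pow, map_pow, ← h a a.2, ← h b b.2]; push_cast; ring)
    change f (a + b) * _ = (f a + f b) * _
    rw [this, map_add, map_mul, map_mul, map_pow, map_pow, ← key a _ _ (h a a.2),
      ← key b _ _ (h b b.2)]
    ring

end Pool.Agent.Lib.MP_20b407_ag
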