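import Mathlib

/-! Generic tools: smoothness of localised planes, covers, Krull dimension. -/

namespace Pool.Agent.Lib.MP_20b407_ag

section generic

variable {K L : Type} [Field K] [Field L] [Algebra K L]

lemma adjoin_den {A : Subalgebra K L} {r : L} (hr : r ∈ A) {s : Set L}
    (hs : ∀ x ∈ s, ∃ n : ℕ, r ^ n * x ∈ A) {x : L} (hx : x ∈ Algebra.adjoin K s) :
    ∃ n : ℕ, r ^ n * x ∈ A := by
  induction hx using Algebra.adjoin_induction with
  | mem x hx => exact hs x hx
  | algebraMap c => exact ⟨0, by simp⟩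
  | add x y _ _ hx hy =>
    obtain ⟨n, hn⟩ := hx
    obtain ⟨m, hm⟩ := hy
    refine ⟨n + m, ?_⟩
    have : r ^ (n + m) * (x + y) = r ^ m * (r ^ n * x) + r ^ n * (r ^ m * y) := by ring
    rw [this]
    exact add_mem (mul_mem (pow_mem hr _) hn) (mul_mem (pow_mem hr _) hm)
  | mul x y _ _ hx hy =>
    obtain ⟨n, hn⟩ := hx
    obtain ⟨m, hm⟩ := hy
    refine ⟨n + m, ?_⟩
    rw [pow_add, mul_mul_mul_comm]
    exact mul_mem hn hm

lemma isLoc_away {A A' : Subalgebra K L} (h : A ≤ A') (r : A) (hr0 : (r : L) ≠ 0)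
    (hr : (r : L)⁻¹ ∈ A') (hA : ∀ x ∈ A', ∃ n : ℕ, (r : L) ^ n * x ∈ A) :
    letI := (Subalgebra.inclusion h).toAlgebra
    IsLocalization.Away r A' := by
  letI := (Subalgebra.inclusion h).toAlgebra
  refine IsLocalization.Away.mk r ?_ ?_ ?_
  · exact IsUnit.of_mul_eq_one ⟨_, hr⟩ (Subtype.ext (mul_inv_cancel₀ hr0))
  · intro x
    obtain ⟨n, hn⟩ := hA x x.2
    exact ⟨n, ⟨_, hn⟩, Subtype.ext (mul_comm _ _)⟩
  · intro a b hab
    exact ⟨0, by rw [Subalgebra.inclusion_injective h hab]⟩

lemma smooth_of_loc {A A' : Subalgebra K L} (h : A ≤ A') (r : A) (hr0 : (r : L) ≠ 0)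
    (hr : (r : L)⁻¹ ∈ A') (hA : ∀ x ∈ A', ∃ n : ℕ, (r : L) ^ n * x ∈ A) [Algebra.Smooth K A] :
    Algebra.Smooth K A' := by
  letI := (Subalgebra.inclusion h).toAlgebra
  have := isLoc_away h r hr0 hr hA
  have : Algebra.Smooth A A' := Algebra.Smooth.of_isLocalization_Away r
  have : IsScalarTower K A A' := .of_algebraMap_eq fun _ => rfl
  exact Algebra.Smooth.comp K A A'

lemma smooth_of_cover {A : Subalgebra K L} (s : Set A) (hs : Ideal.span s = ⊤)
    (H : ∀ r ∈ s, ∃ A' : Subalgebra K L, A ≤ A' ∧ (r : L) ≠ 0 ∧ (r : L)⁻¹ ∈ A' ∧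
      (∀ x ∈ A', ∃ n : ℕ, (r : L) ^ n * x ∈ A) ∧ Algebra.Smooth K A') : Algebra.Smooth K A := by
  rw [← RingHom.smooth_algebraMap]
  refine RingHom.Smooth.ofLocalizationSpanTarget _ s hs fun r => ?_
  obtain ⟨A', h, hr0, hr, hA, hS⟩ := H r r.2
  letI := (Subalgebra.inclusion h).toAlgebra
  have := isLoc_away h r hr0 hr hA
  have : IsScalarTower K A A' := .of_algebraMap_eq fun _ => rfl
  rw [← IsScalarTower.algebraMap_eq, RingHom.smooth_algebraMap]
  exact Algebra.Smooth.of_equiv
    ((IsLocalization.algEquiv (Submonoid.powers (r : A)) A'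
      (Localization.Away (r : A))).restrictScalars K)

lemma range_pair (u v : L) : Set.range ![u, v] = {u, v} := by
  ext g; simp [eq_comm, or_comm]

lemma smooth_plane (htr : 2 ≤ Algebra.trdeg K L) (u v : L)
    (hgen : IntermediateField.adjoin K {u, v} = ⊤) :
    Algebra.Smooth K (Algebra.adjoin K {u, v}) := by
  have halg : Algebra.IsAlgebraic (Algebra.adjoin K (Set.range ![u, v])) L := by
    rw [range_pair]
    refine ⟨fun g => ?_⟩
    have hg : g ∈ IntermediateField.adjoin K {u, v} := by rw [hgen]; trivial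
    obtain ⟨r, hr, s, hs, rfl⟩ := IntermediateField.mem_adjoin_iff_div.mp hg
    rw [div_eq_mul_inv]
    exact (isAlgebraic_algebraMap (⟨r, hr⟩ : Algebra.adjoin K {u, v})).mul
      (isAlgebraic_algebraMap (⟨s, hs⟩ : Algebra.adjoin K {u, v})).inv
  have hb := Algebra.IsAlgebraic.isTranscendenceBasis_of_lift_le_trdeg_of_finite K ![u, v]
    (by simpa using htr)
  have : Algebra.Smooth K (MvPolynomial (Fin 2) K) := ⟨inferInstance, inferInstance⟩
  exact Algebra.Smooth.of_equiv (hb.1.aevalEquiv.trans (Subalgebra.equivOfEq _ _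
    (by rw [range_pair])))

lemma smooth_chart (htr : 2 ≤ Algebra.trdeg K L) (u v : L)
    (hgen : IntermediateField.adjoin K {u, v} = ⊤) {ι : Type} [Finite ι] (e : ι → L)
    (he : ∀ i, e i ∈ Algebra.adjoin K {u, v}) (he0 : ∀ i, e i ≠ 0) :
    Algebra.Smooth K (Algebra.adjoin K ({u, v} ∪ Set.range fun i => (e i)⁻¹)) := by
  classical
  have := Fintype.ofFinite ι
  have := smooth_plane htr u v hgen
  have hE : ∏ i, e i ∈ Algebra.adjoin K {u, v} := prod_mem fun i _ => he i
  refine smooth_of_loc (Algebra.adjoin_mono Set.subset_union_left) ⟨∏ i, e i, hE⟩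
    (Finset.prod_ne_zero_iff.mpr fun i _ => he0 i) ?_ ?_
  · change (∏ i, e i)⁻¹ ∈ _
    rw [← Finset.prod_inv_distrib]
    exact prod_mem fun i _ => Algebra.subset_adjoin (Or.inr ⟨i, rfl⟩)
  · intro g hg
    refine adjoin_den hE ?_ hg
    rintro g (hg | ⟨i, rfl⟩)
    · exact ⟨0, by simpa using Algebra.subset_adjoin hg⟩
    · refine ⟨1, ?_⟩
      change (∏ i, e i) ^ 1 * (e i)⁻¹ ∈ _
      rw [pow_one, ← Finset.prod_erase_mul _ _ (Finset.mem_univ i), mul_assoc,
        mul_inv_cancel₀ (he0 i), mul_one]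
      exact prod_mem fun j _ => he j

lemma trdeg_frac (A : Type) [CommRing A] [IsDomain A] [Algebra K A] [Algebra A L]
    [IsScalarTower K A L] [IsFractionRing A L] : Algebra.trdeg K L = Algebra.trdeg K A := by
  have : Algebra.IsAlgebraic A L := IsLocalization.isAlgebraic L (nonZeroDivisors A)
  rw [← trdeg_add_eq K A (A := L), trdeg_eq_zero (R := A) (A := L), add_zero]

lemma krullDim_of_trdeg (A : Type) [CommRing A] [IsDomain A] [Algebra K A]
    [Algebra.FiniteType K A] (n : ℕ) (h : Algebra.trdeg K A = n) : ringKrullDim A = n := by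
  obtain ⟨s, g, hg, hf⟩ := exists_finite_inj_algHom_of_fg K A
  let P := MvPolynomial (Fin s) K
  letI : Algebra P A := g.toRingHom.toAlgebra
  have : IsScalarTower K P A := .of_algebraMap_eq fun c => (g.commutes c).symm
  have : Module.Finite P A := hf
  have : FaithfulSMul P A := (faithfulSMul_iff_algebraMap_injective P A).mpr hg
  have hs : s = n := by
    have h1 := trdeg_add_eq K P (A := A)
    rw [trdeg_eq_zero (R := P) (A := A), add_zero, h, MvPolynomial.trdeg_of_isDomain] at h1
    simpa using h1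
  have hP : ringKrullDim P = n := by
    rw [MvPolynomial.ringKrullDim_of_isNoetherianRing, ringKrullDim_eq_zero_of_field]
    simp [hs]
  rw [← hP]
  apply le_antisymm
  · refine Order.krullDim_le_of_strictMono (PrimeSpectrum.comap (algebraMap P A)) ?_
    intro I J hIJ
    exact Ideal.IsIntegral.comap_lt_comap (R := P) hIJ
  · refine iSup_le fun l => ?_
    obtain ⟨⟨Q, hQ, hQ'⟩⟩ := Ideal.nonempty_primesOver (S := A) l.head.asIdeal
    obtain ⟨M, hM, -⟩ := Ideal.exists_ltSeries_of_hasGoingUp l Q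
    rw [← hM]
    exact Order.LTSeries.length_le_krullDim M

end generic

section dvd

open MvPolynomial

variable {R σ A : Type*} [CommRing R] [CommRing A] [Algebra R A]

lemma dvd_sub_algHom (f g : MvPolynomial σ R →ₐ[R] A) (d : A)
    (h : ∀ i, d ∣ f (X i) - g (X i)) (F : MvPolynomial σ R) : d ∣ f F - g F := by
  induction F using MvPolynomial.induction_on with
  | C a => simp [algHom_C]
  | add p q hp hq =>
    have : f (p + q) - g (p + q) = (f p - g p) + (f q - g q) := by simp only [map_add]; ring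
    rw [this]; exact dvd_add hp hq
  | mul_X p i hp =>
    have : f (p * X i) - g (p * X i) = (f p - g p) * f (X i) + g p * (f (X i) - g (X i)) := by
      simp only [map_mul]; ring
    rw [this]; exact dvd_add (hp.mul_right _) ((h i).mul_left _)

/-- an element cut out by a substitution into a domain is prime -/
lemma prime_of_subst {S B : Type*} [CommRing S] [CommRing B] [IsDomain B] (f : S →+* B) {d : S}
    (hd : d ≠ 0) (h : ∀ F, f F = 0 ↔ d ∣ F) : Prime d := by
  refine ⟨hd, fun hu => ?_, fun a b hab => ?_⟩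
  · exact one_ne_zero (α := B) (by rw [← map_one f, h]; exact hu.dvd)
  · rw [← h, map_mul, mul_eq_zero, h, h] at hab
    exact hab

end dvd

end Pool.Agent.Lib.MP_20b407_ag
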