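import Mathlib
import Pool.Agent.Lib.MP_20b407_ag.Val
import Pool.Agent.Lib.MP_20b407_ag.Tool
import Pool.Agent.Lib.MP_20b407_ag.Gen
import Pool.Agent.Lib.MP_20b407_ag.Data

/-! The threefold. -/

set_option linter.unusedSectionVars false

namespace Pool.Agent.Lib.MP_20b407_ag

open Finset MvPolynomial WithZero

attribute [-simp] MvPolynomial.aeval_eq_bind₁ MvPolynomial.aeval_eq_eval

/-- polynomials in `x, t, y` -/
abbrev TT : Type := MvPolynomial (Fin 3) ℂ

/-- the function field -/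
abbrev KK : Type := FractionRing TT

/-- inclusion -/
noncomputable def iK : TT →ₐ[ℂ] KK := IsScalarTower.toAlgHom ℂ TT KK

theorem iK_eq (a : TT) : algebraMap TT KK a = iK a := rfl

theorem iK_inj : Function.Injective iK := IsFractionRing.injective TT KK

/-- coordinate -/
noncomputable abbrev xK : KK := iK (X 0)
/-- coordinate -/
noncomputable abbrev tK : KK := iK (X 1)
/-- coordinate -/
noncomputable abbrev yK : KK := iK (X 2)

/-- linear forms -/
noncomputable abbrev lamT (p : Fin 18) : TT := lam (X 0) (X 1) p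
/-- curves -/
noncomputable abbrev ellT (i : Fin 4) : TT := ell (X 0) (X 1) (X 2) i
/-- linear forms -/
noncomputable abbrev lamK (p : Fin 18) : KK := lam xK tK p
/-- curves -/
noncomputable abbrev ellK (i : Fin 4) : KK := ell xK tK yK i

theorem iK_lamT (p : Fin 18) : iK (lamT p) = lamK p := map_lam _ _ _ _

theorem iK_ellT (i : Fin 4) : iK (ellT i) = ellK i := map_ell _ _ _ _ _

theorem subst_lam (p : Fin 18) (F : TT) :
    aeval (R := ℂ) ![C (aa p) * X 1, X 1, (X 2 : TT)] F = 0 ↔ lamT p ∣ F := by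
  constructor
  · intro h
    have := dvd_sub_algHom (AlgHom.id ℂ TT) (aeval ![C (aa p) * X 1, X 1, (X 2 : TT)]) (lamT p)
      (fun i => by fin_cases i <;> simp [lam]) F
    simpa [h] using this
  · rintro ⟨G, rfl⟩
    simp [lam]

theorem lamT_ne (p : Fin 18) : lamT p ≠ 0 := by
  intro h
  have := congrArg (aeval (R := ℂ) ![(1 : ℂ), 0, 0]) h
  simp [lam] at this

theorem lamT_prime (p : Fin 18) : Prime (lamT p) :=
  prime_of_subst (aeval (R := ℂ) ![C (aa p) * X 1, X 1, (X 2 : TT)]).toRingHom (lamT_ne p)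
    (subst_lam p)

theorem lamT_not_dvd {p q : Fin 18} (h : q ≠ p) : ¬ lamT p ∣ lamT q := by
  rw [← subst_lam]
  intro h0
  have := congrArg (aeval (R := ℂ) ![(0 : ℂ), 1, 0]) h0
  simp [lam, sub_eq_zero] at this
  exact h (aa_inj this).symm

theorem lamK_ne (p : Fin 18) : lamK p ≠ 0 := by
  rw [← iK_lamT]; exact fun h => lamT_ne p (iK_inj (by rw [h, map_zero]))

theorem ellT_ne (i : Fin 4) : ellT i ≠ 0 := by
  intro h
  have h1 := congrArg (aeval (R := ℂ) ![(0 : ℂ), 0, 1]) h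
  simp [ell, sig_zero'] at h1

theorem ellK_ne (i : Fin 4) : ellK i ≠ 0 := by
  rw [← iK_ellT]; exact fun h => ellT_ne i (iK_inj (by rw [h, map_zero]))

theorem xK_ne : xK ≠ 0 := fun h => X_ne_zero _ (iK_inj (h.trans (map_zero iK).symm))
theorem tK_ne : tK ≠ 0 := fun h => X_ne_zero _ (iK_inj (h.trans (map_zero iK).symm))
theorem yK_ne : yK ≠ 0 := fun h => X_ne_zero _ (iK_inj (h.trans (map_zero iK).symm))

/-- chart of the blow up of a point -/
noncomputable def phi (p : Fin 18) : TT →ₐ[ℂ] TT :=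
  aeval ![X 0, X 1, sig (X 0) (X 1) (ip p) + lamT p * X 2]

@[simp] theorem phi_0 (p : Fin 18) : phi p (X 0) = X 0 := by simp [phi]
@[simp] theorem phi_1 (p : Fin 18) : phi p (X 1) = X 1 := by simp [phi]
@[simp] theorem phi_2 (p : Fin 18) : phi p (X 2) = sig (X 0) (X 1) (ip p) + lamT p * X 2 := by
  simp [phi]

theorem phi_inj (p : Fin 18) : Function.Injective (phi p) := by
  let ψ : TT →ₐ[ℂ] KK := aeval ![xK, tK, ellK (ip p) / lamK p]
  have h : ψ.comp (phi p) = iK := by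
    refine algHom_ext fun i => ?_
    have := lamK_ne p
    fin_cases i
    · simp [ψ]
    · simp [ψ]
    · simp [ψ, ell]; field_simp; ring
  exact Function.Injective.of_comp (f := ψ) (by rw [← AlgHom.coe_comp, h]; exact iK_inj)

/-- the exceptional valuations -/
noncomputable def vp (p : Fin 18) : Valuation KK ℤᵐ⁰ :=
  embVal KK (lamT_prime p) (phi p).toRingHom (phi_inj p)

theorem vp_iK (p : Fin 18) (a : TT) : VGe (vp p) 0 (iK a) := embVal_ge_zero _ _ _ _ a

theorem vp_dvd (p : Fin 18) (a : TT) (n : ℕ) : VGe (vp p) n (iK a) ↔ lamT p ^ n ∣ phi p a :=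
  embVal_ge_iff _ _ _ _ a n

theorem vp_eq (p : Fin 18) (a : TT) (n : ℕ) (u : TT) (hu : phi p a = lamT p ^ n * u)
    (hn : ¬ lamT p ∣ u) : VEq (vp p) n (iK a) := embVal_eq _ _ _ _ a n u hu hn

theorem vp_const (p : Fin 18) {c : ℂ} (hc : c ≠ 0) : VEq (vp p) 0 (algebraMap ℂ KK c) := by
  rw [← iK.commutes]
  refine vp_eq p _ 0 (algebraMap ℂ TT c) (by simp) fun h => ?_
  exact (lamT_prime p).not_isUnit
    (isUnit_of_dvd_unit h ((IsUnit.mk0 c hc).map (algebraMap ℂ TT)))

theorem vp_const' (p : Fin 18) (c : ℂ) : VGe (vp p) 0 (algebraMap ℂ KK c) := by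
  rw [← iK.commutes]; exact vp_iK p _

theorem vp_lam (p q : Fin 18) : VEq (vp p) (if q = p then 1 else 0) (lamK q) := by
  rw [← iK_lamT]
  split_ifs with h
  · subst h
    exact vp_eq q _ 1 1 (by simp) (lamT_prime q).not_dvd_one
  · exact vp_eq p _ 0 (lamT q) (by simp) (lamT_not_dvd h)

theorem vp_prod_lam (p : Fin 18) (s : Finset (Fin 18)) :
    VEq (vp p) (if p ∈ s then 1 else 0) (∏ q ∈ s, lamK q) :=
  (VEq.prod fun q _ => vp_lam p q).congr (by simp)

theorem vp_tc (p : Fin 18) (c : ℂ) : VEq (vp p) 0 (tK - algebraMap ℂ KK c) := by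
  rw [← iK.commutes, ← map_sub]
  refine vp_eq p _ 0 (X 1 - algebraMap ℂ TT c) (by simp) ?_
  rw [← subst_lam]
  intro h
  have := congrArg (aeval (R := ℂ) ![(0 : ℂ), c + 1, 0]) h
  simp at this

theorem vp_t (p : Fin 18) : VEq (vp p) 0 tK := by simpa using vp_tc p 0

theorem vp_ell_mem {p : Fin 18} {j : Fin 4} (hj : j ∈ JJ p) : VEq (vp p) 1 (ellK j) := by
  rw [← iK_ellT]
  refine vp_eq p _ 1 (X 2 + dd (X 0) (X 1) p (ip p) j) ?_ fun h => ?_
  · have := sig_sub_dd (X 0 : TT) (X 1) (ip_mem p) hj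
    rw [map_ell, phi_0, phi_1, phi_2, ell, pow_one]
    linear_combination this
  · have h1 := map_dvd (aeval (R := ℂ) ![X 0, X 1, (X 2 + 1 : TT)]) h
    simp only [map_lam, map_add, map_dd, aeval_X, Matrix.cons_val_zero, Matrix.cons_val_one,
      Matrix.cons_val] at h1
    have h2 := dvd_sub h1 h
    rw [show ∀ a b : TT, a + 1 + b - (a + b) = 1 from fun a b => by ring] at h2
    exact (lamT_prime p).not_dvd_one h2

theorem vp_ell (p : Fin 18) (j : Fin 4) : VEq (vp p) (if j ∈ JJ p then 1 else 0) (ellK j) := by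
  split_ifs with hj
  · exact vp_ell_mem hj
  · have h1 : ellK j = algebraMap ℂ KK (sc (ip p) - sc j) * pr xK tK (ip p) j + ellK (ip p) := by
      rw [← sig_sub]; simp [ell]
    have hne : ip p ≠ j := fun h => hj (h ▸ ip_mem p)
    rw [h1]
    refine VEq.add_ge (((vp_const p (sub_ne_zero.mpr fun h => hne (sc_inj h))).mul
      (vp_prod_lam p _)).congr ?_) (vp_ell_mem (ip_mem p)).ge
    simp [mem_cp, hj]

/-- product of the curves -/
noncomputable def LT : TT := ∏ i, ellT i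

theorem LT_ne : LT ≠ 0 := prod_ne_zero_iff.mpr fun i _ => ellT_ne i

theorem iK_LT : iK LT = ∏ i, ellK i := by simp [LT]

theorem LK_ne : iK LT ≠ 0 := fun h => LT_ne (iK_inj (by rw [h, map_zero]))

theorem vp_LT (p : Fin 18) : VEq (vp p) (JJ p).card (iK LT) := by
  rw [iK_LT]
  exact (VEq.prod fun j _ => vp_ell p j).congr (by simp)

/-- functions regular away from the curves -/
def LS : Subring KK where
  carrier := {g | ∃ (N : ℕ) (Φ : TT), g * iK LT ^ N = iK Φ}
  mul_mem' := by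
    rintro a b ⟨n, Φ, h⟩ ⟨m, Ψ, h'⟩
    exact ⟨n + m, Φ * Ψ, by rw [map_mul, ← h, ← h']; ring⟩
  one_mem' := ⟨0, 1, by simp⟩
  add_mem' := by
    rintro a b ⟨n, Φ, h⟩ ⟨m, Ψ, h'⟩
    exact ⟨n + m, Φ * LT ^ m + Ψ * LT ^ n, by
      rw [map_add, map_mul, map_mul, map_pow, map_pow, ← h, ← h']; ring⟩
  zero_mem' := ⟨0, 0, by simp⟩
  neg_mem' := by
    rintro a ⟨n, Φ, h⟩
    exact ⟨n, -Φ, by rw [map_neg, ← h]; ring⟩

theorem iK_mem_LS (a : TT) : iK a ∈ LS := ⟨0, a, by simp⟩

theorem inv_ell_mem_LS (i : Fin 4) : (ellK i)⁻¹ ∈ LS := by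
  refine ⟨1, ∏ j ∈ univ.erase i, ellT j, ?_⟩
  have := ellK_ne i
  rw [iK_LT, ← mul_prod_erase _ _ (mem_univ i)]
  simp only [map_prod, map_ell]
  field_simp

theorem inv_LK_mem_LS : (iK LT)⁻¹ ∈ LS := ⟨1, 1, by simp [LK_ne]⟩

/-- functions with poles of order at most `n` along the exceptional divisors -/
def MM (n : ℤ) (g : KK) : Prop := g ∈ LS ∧ ∀ p, VGe (vp p) (-n) g

theorem MM.mul {m n : ℤ} {a b : KK} (ha : MM m a) (hb : MM n b) : MM (m + n) (a * b) :=
  ⟨mul_mem ha.1 hb.1, fun p => (ha.2 p).mul' (hb.2 p) (by omega)⟩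

theorem MM.add {n : ℤ} {a b : KK} (ha : MM n a) (hb : MM n b) : MM n (a + b) :=
  ⟨add_mem ha.1 hb.1, fun p => (ha.2 p).add (hb.2 p)⟩

theorem MM.zero (n : ℤ) : MM n 0 := ⟨zero_mem _, fun _ => VGe.zero _⟩

theorem MM.congr {m n : ℤ} {a : KK} (ha : MM m a) (h : m = n) : MM n a := h ▸ ha

/-- the extra generators -/
noncomputable def WK (i : Fin 4) : KK := pr xK tK i i / ellK i

/-- the coordinate ring of the threefold -/
noncomputable def RR : Subalgebra ℂ KK := Algebra.adjoin ℂ ({xK, tK, yK} ∪ Set.range WK)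

theorem iK_mem_RR (a : TT) : iK a ∈ RR := by
  induction a using MvPolynomial.induction_on with
  | C a => rw [algHom_C]; exact algebraMap_mem _ _
  | add p q hp hq => rw [map_add]; exact add_mem hp hq
  | mul_X p i hp =>
    rw [map_mul]
    refine mul_mem hp (Algebra.subset_adjoin (Or.inl ?_))
    fin_cases i <;> simp

theorem WK_mem_RR (i : Fin 4) : WK i ∈ RR := Algebra.subset_adjoin (Or.inr ⟨i, rfl⟩)

theorem vp_WK (p : Fin 18) (i : Fin 4) : VEq (vp p) 0 (WK i) :=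
  ((vp_prod_lam p (cp i i)).div (vp_ell p i)).congr (by simp [mem_cp])

/-- the ring of functions without poles -/
noncomputable def M0 : Subring KK := LS ⊓ ⨅ p, vring (vp p)

theorem mem_M0 {g : KK} : g ∈ M0 ↔ MM 0 g := by
  simp only [M0, Subring.mem_inf, Subring.mem_iInf, MM, neg_zero]
  rfl

theorem RR_le_M0 : RR.toSubring ≤ M0 := by
  intro g hg
  induction hg using Algebra.adjoin_induction with
  | mem g hg =>
    rw [mem_M0]
    rcases hg with (rfl | rfl | rfl) | ⟨i, rfl⟩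
    · exact ⟨iK_mem_LS _, fun p => vp_iK p _⟩
    · exact ⟨iK_mem_LS _, fun p => vp_iK p _⟩
    · exact ⟨iK_mem_LS _, fun p => vp_iK p _⟩
    · refine ⟨?_, fun p => (vp_WK p i).ge⟩
      rw [WK, div_eq_mul_inv, ← map_pr]
      exact mul_mem (iK_mem_LS _) (inv_ell_mem_LS i)
  | algebraMap c =>
    rw [mem_M0, ← iK.commutes]
    exact ⟨iK_mem_LS _, fun p => vp_iK p _⟩
  | add a b _ _ ha hb => exact add_mem ha hb
  | mul a b _ _ ha hb => exact mul_mem ha hb

/-- restriction to a curve -/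
noncomputable def evT (i : Fin 4) : TT →ₐ[ℂ] TT := aeval ![X 0, X 1, sig (X 0) (X 1) i]

theorem dvd_evT {p : Fin 18} {i : Fin 4} (hi : i ∈ JJ p) {Φ : TT} {n : ℕ}
    (h : VGe (vp p) n (iK Φ)) : lamT p ^ n ∣ evT i Φ := by
  let θ : TT →ₐ[ℂ] TT := aeval ![X 0, X 1, -dd (X 0) (X 1) p (ip p) i]
  have h1 : θ.comp (phi p) = evT i := by
    refine algHom_ext fun k => ?_
    fin_cases k
    · simp [θ, evT]
    · simp [θ, evT]
    · have := sig_sub_dd (X 0 : TT) (X 1) (ip_mem p) hi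
      simp [θ, evT]
      linear_combination this
  have h2 := map_dvd θ ((vp_dvd p Φ n).mp h)
  rw [← h1]
  simpa [θ] using h2

theorem mem_RR_iff {g : KK} : g ∈ RR ↔ MM 0 g := by
  refine ⟨fun h => mem_M0.mp (RR_le_M0 h), fun h => ?_⟩
  obtain ⟨N, Φ, hΦ⟩ := h.1
  have hg : g = algebraMap TT KK Φ / algebraMap TT KK (∏ j, ellT j ^ (fun _ => N) j) := by
    rw [iK_eq, iK_eq, ← hΦ, prod_pow, ← LT, map_pow, mul_div_cancel_right₀ _
      (pow_ne_zero _ LK_ne)]
  have h' := mem_M0.mpr h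
  rw [hg] at h' ⊢
  refine gen_lemma ellT (fun i => pr (X 0) (X 1) i i) ellT_ne M0 RR.toSubring RR_le_M0
    iK_mem_RR (fun i => ?_) (fun Φ b i h => ?_) Φ _ h'
  · rw [iK_eq, iK_eq, map_pr, map_ell]; exact WK_mem_RR i
  · refine star_of_dvd (X 0) (X 1) (X 2) (evT i) i (by simp [evT]) (by simp [evT]) (by simp [evT])
      (fun F => ?_) (fun F => ?_) Φ b ?_
    · have : (evT i).comp (evT i) = evT i :=
        algHom_ext fun k => by fin_cases k <;> simp [evT]
      exact AlgHom.congr_fun this F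
    · exact dvd_sub_algHom (AlgHom.id ℂ TT) (evT i) _
        (fun k => by fin_cases k <;> simp [evT, ell]) F
    · rw [prod_pr_pow]
      refine Finset.prod_dvd_of_isRelPrime (fun p _ q _ hpq => ?_) fun p hp => ?_
      · exact IsRelPrime.pow
          ((lamT_prime p).irreducible.isRelPrime_iff_not_dvd.mpr (lamT_not_dvd hpq.symm))
      · refine dvd_evT (mem_cp.mp hp).1 ?_
        have h1 := (mem_M0.mp h).2 p
        have h2 : VEq (vp p) (∑ j ∈ JJ p, b j : ℕ) (algebraMap TT KK (∏ j, ellT j ^ b j)) := by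
          rw [iK_eq]
          simp only [map_prod, map_pow, map_ell]
          exact (VEq.prod fun j _ => (vp_ell p j).pow (b j)).congr (by simp)
        have h3 := h1.mul h2.ge
        rw [div_mul_cancel₀ _ h2.ne_zero] at h3
        exact h3.mono (by simp)

instance : IsFractionRing RR KK := by
  refine IsFractionRing.of_field RR KK fun g => ?_
  obtain ⟨a, b, -, rfl⟩ := IsFractionRing.div_surjective (A := TT) g
  exact ⟨⟨_, iK_mem_RR a⟩, ⟨_, iK_mem_RR b⟩, rfl⟩

instance : Algebra.FiniteType ℂ RR :=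
  (Subalgebra.fg_iff_finiteType _).mp (Subalgebra.fg_def.mpr ⟨_, Set.toFinite _, rfl⟩)

theorem RR_normal : IsIntegrallyClosed RR := by
  refine (isIntegrallyClosed_iff KK).mpr fun {g} hg => ?_
  refine ⟨⟨g, mem_RR_iff.mpr ⟨?_, fun p => ?_⟩⟩, rfl⟩
  · refine away_of_integral (K := KK) LT LT_ne (fun a : RR => ?_) hg
    obtain ⟨N, Φ, h⟩ := (mem_RR_iff.mp a.2).1
    exact ⟨N, Φ, h⟩
  · exact VGe.of_isIntegral (fun a : RR => (mem_RR_iff.mp a.2).2 p) hg

end Pool.Agent.Lib.MP_20b407_ag
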