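import Mathlib
import Pool.Agent.Lib.MP_20b407_ag.Defs
import Pool.Agent.Lib.MP_20b407_ag.Tool

/-! Star shaped weighted homogeneous singularities with reduced fundamental cycle are rational. -/

set_option linter.unusedSectionVars false

namespace Pool.Agent.Lib.MP_20b407_ag

section away

variable {K L : Type} [Field K] [Field L] [Algebra K L]

/-- elements with denominators powers of `r` -/
def awaySub (A : Subalgebra K L) (r : L) (hr : r ∈ A) : Subalgebra K L where
  carrier := {g | ∃ n : ℕ, r ^ n * g ∈ A}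
  mul_mem' := by
    rintro x y ⟨n, hn⟩ ⟨m, hm⟩
    refine ⟨n + m, ?_⟩
    rw [pow_add, mul_mul_mul_comm]
    exact mul_mem hn hm
  add_mem' := by
    rintro x y ⟨n, hn⟩ ⟨m, hm⟩
    refine ⟨n + m, ?_⟩
    have : r ^ (n + m) * (x + y) = r ^ m * (r ^ n * x) + r ^ n * (r ^ m * y) := by ring
    rw [this]
    exact add_mem (mul_mem (pow_mem hr _) hn) (mul_mem (pow_mem hr _) hm)
  algebraMap_mem' c := ⟨0, by simp⟩

theorem le_awaySub (A : Subalgebra K L) (r : L) (hr : r ∈ A) : A ≤ awaySub A r hr :=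
  fun g hg => ⟨0, by simpa using hg⟩

end away

/-- data of a star -/
structure StarData (L : Type) [Field L] [Algebra ℂ L] (m : ℕ) where
  x : L
  l : Fin m → L
  nx : Fin m → Fin m
  α : Fin m → ℕ
  hx : x ≠ 0
  hl : ∀ i, l i ≠ 0
  hnx : ∀ i, nx i ≠ i
  hlin : ∀ i k, ∃ c d : ℂ, (k ≠ i → c ≠ 0) ∧
    l k = algebraMap ℂ L c * l (nx i) + algebraMap ℂ L d * l i
  hα : ∀ i, 0 < α i
  hgen : ∀ i, IntermediateField.adjoin ℂ {x, l i / l (nx i)} = ⊤
  htr : 2 ≤ Algebra.trdeg ℂ L

namespace StarData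

variable {L : Type} [Field L] [Algebra ℂ L] {m : ℕ} (S : StarData L m)

/-- function with a pole at the `i`-th point -/
def eta (i : Fin m) : L := S.l (S.nx i) / S.l i

theorem eta_ne (i : Fin m) : S.eta i ≠ 0 := div_ne_zero (S.hl _) (S.hl _)

/-- the monomials `x ^ r η_i` -/
def w (i : Fin m) (r : ℕ) : L := S.x ^ r * S.eta i

theorem w_ne (i : Fin m) (r : ℕ) : S.w i r ≠ 0 := mul_ne_zero (pow_ne_zero _ S.hx) (S.eta_ne i)

/-- the chart -/
def C (i : Fin m) (j : ℕ) : Subalgebra ℂ L :=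
  Algebra.adjoin ℂ ({(S.w i j)⁻¹, S.w i (j + 1)} ∪
    Set.range fun k : {k // k ≠ i} => (S.l k / S.l (S.nx i))⁻¹)

theorem uv (i : Fin m) (j : ℕ) : (S.w i j)⁻¹ * S.w i (j + 1) = S.x := by
  have := S.hx; have := S.eta_ne i
  unfold w; field_simp; ring

section mem

variable {S} {B : Subalgebra ℂ L} {i : Fin m} {j : ℕ}

theorem x_mem (hu : (S.w i j)⁻¹ ∈ B) (hv : S.w i (j + 1) ∈ B) : S.x ∈ B := by
  rw [← S.uv i j]; exact mul_mem hu hv

theorem w_mem (hx : S.x ∈ B) (hv : S.w i j ∈ B) {r : ℕ} (hr : j ≤ r) : S.w i r ∈ B := by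
  obtain ⟨s, rfl⟩ := Nat.exists_eq_add_of_le hr
  have : S.w i (j + s) = S.x ^ s * S.w i j := by unfold w; ring
  rw [this]; exact mul_mem (pow_mem hx _) hv

theorem winv_mem (hx : S.x ∈ B) (hu : (S.w i j)⁻¹ ∈ B) {r : ℕ} (hr : r ≤ j) :
    (S.w i r)⁻¹ ∈ B := by
  obtain ⟨s, rfl⟩ := Nat.exists_eq_add_of_le hr
  have : (S.w i r)⁻¹ = S.x ^ s * (S.w i (r + s))⁻¹ := by
    have := S.hx; have := S.eta_ne i
    unfold w; field_simp; ring
  rw [this]; exact mul_mem (pow_mem hx _) hu

theorem zeta_eq (S : StarData L m) (i : Fin m) : S.l i / S.l (S.nx i) = (S.w i 0)⁻¹ := by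
  simp [w, eta]

theorem lin_mem (hx : S.x ∈ B) (hu : (S.w i j)⁻¹ ∈ B) (k : Fin m) :
    S.l k / S.l (S.nx i) ∈ B := by
  obtain ⟨c, d, -, h⟩ := S.hlin i k
  have hz := winv_mem hx hu (Nat.zero_le j)
  rw [← zeta_eq] at hz
  have : S.l k / S.l (S.nx i) = algebraMap ℂ L c + algebraMap ℂ L d * (S.l i / S.l (S.nx i)) := by
    have := S.hl (S.nx i)
    rw [h]; field_simp
  rw [this]
  exact add_mem (algebraMap_mem _ _) (mul_mem (algebraMap_mem _ _) hz)

end mem

theorem u_mem (i : Fin m) (j : ℕ) : (S.w i j)⁻¹ ∈ S.C i j :=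
  Algebra.subset_adjoin (Or.inl (by simp))

theorem v_mem (i : Fin m) (j : ℕ) : S.w i (j + 1) ∈ S.C i j :=
  Algebra.subset_adjoin (Or.inl (by simp))

theorem x_memC (i : Fin m) (j : ℕ) : S.x ∈ S.C i j := x_mem (S.u_mem i j) (S.v_mem i j)

theorem ratio_mem (i : Fin m) (j : ℕ) (a : Fin m) {k : Fin m} (hk : k ≠ i) :
    S.l a / S.l k ∈ S.C i j := by
  have : S.l a / S.l k = S.l a / S.l (S.nx i) * (S.l k / S.l (S.nx i))⁻¹ := by
    have := S.hl (S.nx i); have := S.hl k
    field_simp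
  rw [this]
  exact mul_mem (lin_mem (S.x_memC i j) (S.u_mem i j) a)
    (Algebra.subset_adjoin (Or.inr ⟨⟨k, hk⟩, rfl⟩))

theorem w_memC (i : Fin m) (j : ℕ) {k : Fin m} {r : ℕ} (h : k ≠ i ∨ j + 1 ≤ r) :
    S.w k r ∈ S.C i j := by
  by_cases hk : k = i
  · subst hk
    exact w_mem (S.x_memC k j) (S.v_mem k j) (h.resolve_left (by simp))
  · exact mul_mem (pow_mem (S.x_memC i j) _) (S.ratio_mem i j _ hk)

theorem smooth_C (i : Fin m) (j : ℕ) : Algebra.Smooth ℂ (S.C i j) := by
  have hu : (S.w i j)⁻¹ ∈ Algebra.adjoin ℂ {(S.w i j)⁻¹, S.w i (j + 1)} :=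
    Algebra.subset_adjoin (by simp)
  have hv : S.w i (j + 1) ∈ Algebra.adjoin ℂ {(S.w i j)⁻¹, S.w i (j + 1)} :=
    Algebra.subset_adjoin (by simp)
  refine smooth_chart S.htr _ _ ?_ (fun k : {k // k ≠ i} => S.l k / S.l (S.nx i))
    (fun k => lin_mem (x_mem hu hv) hu k) (fun k => div_ne_zero (S.hl _) (S.hl _))
  rw [eq_top_iff, ← S.hgen i, IntermediateField.adjoin_le_iff]
  have h := IntermediateField.algebra_adjoin_le_adjoin ℂ {(S.w i j)⁻¹, S.w i (j + 1)}
  rintro g (rfl | rfl)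
  · exact h (x_mem hu hv)
  · exact h (lin_mem (x_mem hu hv) hu i)

/-- sections defining the resolution -/
def F (i : Fin m) (j : ℕ) : L := (∏ r ∈ Finset.range j, S.w i (r + 1)) / S.l i

theorem F_ne (i : Fin m) (j : ℕ) : S.F i j ≠ 0 :=
  div_ne_zero (Finset.prod_ne_zero_iff.mpr fun _ _ => S.w_ne _ _) (S.hl i)

theorem F_succ (i : Fin m) (j : ℕ) : S.F i (j + 1) = S.F i j * S.w i (j + 1) := by
  unfold F; rw [Finset.prod_range_succ]; ring

theorem F_ratio_mem (i : Fin m) (j : ℕ) (k : Fin m) (r : ℕ) : S.F k r / S.F i j ∈ S.C i j := by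
  by_cases hk : k = i
  · subst hk
    rcases le_total j r with h | h
    · induction r, h using Nat.le_induction with
      | base => rw [div_self (S.F_ne k j)]; exact one_mem _
      | succ r h ih =>
        rw [F_succ, mul_div_right_comm]
        exact mul_mem ih (S.w_memC k j (Or.inr (by omega)))
    · induction h using Nat.decreasingInduction with
      | self => rw [div_self (S.F_ne k j)]; exact one_mem _
      | of_succ r h ih =>
        have : S.F k r / S.F k j = S.F k (r + 1) / S.F k j * (S.w k (r + 1))⁻¹ := by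
          have := S.w_ne k (r + 1)
          rw [F_succ]; field_simp
        rw [this]
        exact mul_mem ih (winv_mem (S.x_memC k j) (S.u_mem k j) h)
  · have : S.F k r / S.F i j = (∏ s ∈ Finset.range r, S.w k (s + 1)) *
        (∏ s ∈ Finset.range j, (S.w i (s + 1))⁻¹) * (S.l i / S.l k) := by
      have := S.hl i; have := S.hl k
      have : ∏ s ∈ Finset.range j, S.w i (s + 1) ≠ 0 :=
        Finset.prod_ne_zero_iff.mpr fun _ _ => S.w_ne _ _
      rw [Finset.prod_inv_distrib]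
      unfold F; field_simp
    rw [this]
    refine mul_mem (mul_mem (prod_mem fun s _ => S.w_memC i j (Or.inl hk))
      (prod_mem fun s hs => ?_)) (S.ratio_mem i j i hk)
    exact winv_mem (S.x_memC i j) (S.u_mem i j) (Finset.mem_range.mp hs)

theorem C_le {B : Subalgebra ℂ L} {i : Fin m} {j : ℕ} (hx : S.x ∈ B) (hj : j < S.α i)
    (hw : S.w i (S.α i) ∈ B) (hF : ∀ k r, r < S.α k → S.F k r / S.F i j ∈ B) : S.C i j ≤ B := by
  have hu : (S.w i j)⁻¹ ∈ B := by
    rcases j with _ | j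
    · have := hF (S.nx i) 0 (S.hα _)
      rw [← zeta_eq]
      convert this using 1
      have := S.hl i; have := S.hl (S.nx i)
      simp only [F, Finset.range_zero, Finset.prod_empty]; field_simp
    · have := hF i j (by omega)
      convert this using 1
      have := S.F_ne i j; have := S.w_ne i (j + 1)
      rw [F_succ]; field_simp
  refine Algebra.adjoin_le ?_
  rintro g ((rfl | rfl) | ⟨⟨k, hk⟩, rfl⟩)
  · exact hu
  · by_cases h : j + 1 < S.α i
    · have := hF i (j + 1) h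
      rwa [F_succ, mul_div_cancel_left₀ _ (S.F_ne i j)] at this
    · have : j + 1 = S.α i := by omega
      rw [this]; exact hw
  · obtain ⟨c, d, hc, h⟩ := S.hlin i k
    have hc' : algebraMap ℂ L c ≠ 0 := by simpa using hc hk
    have hz := lin_mem hx hu i
    set z := S.l i / S.l (S.nx i) with hzdef
    set κ := (S.l k / S.l (S.nx i))⁻¹ with hκ
    have h1 : (algebraMap ℂ L c + algebraMap ℂ L d * z) * κ = 1 := by
      have := S.hl (S.nx i); have := S.hl k
      rw [hκ, hzdef]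
      field_simp
      rw [h]
    have h2 : z ^ (j + 1) * κ ∈ B := by
      have h3 := mul_mem (hF k 0 (S.hα _))
        (prod_mem (t := Finset.range j) fun s _ => pow_mem hx (s + 1))
      convert h3 using 1
      have := S.hl (S.nx i); have := S.hl k; have := S.hl i
      have h4 : ∏ s ∈ Finset.range j, S.x ^ (s + 1) ≠ 0 :=
        Finset.prod_ne_zero_iff.mpr fun _ _ => pow_ne_zero _ S.hx
      simp only [F, w, eta, Finset.range_zero, Finset.prod_empty, Finset.prod_mul_distrib,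
        Finset.prod_const, Finset.card_range, hκ, hzdef, Finset.card_empty, div_pow]
      field_simp
      ring
    have h3 : ∀ n, z ^ (n + 1) * κ ∈ B → z ^ n * κ ∈ B := by
      intro n hn
      have : z ^ n * κ = algebraMap ℂ L c⁻¹ * (z ^ n - algebraMap ℂ L d * (z ^ (n + 1) * κ)) := by
        rw [map_inv₀]
        field_simp
        linear_combination z ^ n * h1
      rw [this]
      exact mul_mem (algebraMap_mem _ _) (sub_mem (pow_mem hz _) (mul_mem (algebraMap_mem _ _) hn))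
    have h4 : ∀ n, z ^ n * κ ∈ B → z ^ 0 * κ ∈ B := by
      intro n
      induction n with
      | zero => exact id
      | succ n ih => exact fun h => ih (h3 n h)
    have h5 := h4 _ h2
    rwa [pow_zero, one_mul] at h5

theorem split (i : Fin m) (j : ℕ) {g : L} (hg : g ∈ S.C i j) :
    ∃ h ∈ Algebra.adjoin ℂ {S.w i (j + 1)}, ∃ g' ∈ S.C i j, g = h + (S.w i j)⁻¹ * g' := by
  have hle : Algebra.adjoin ℂ {S.w i (j + 1)} ≤ S.C i j :=
    Algebra.adjoin_le (by simpa using S.v_mem i j)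
  induction hg using Algebra.adjoin_induction with
  | mem g hg =>
    rcases hg with ((rfl | rfl) | ⟨⟨k, hk⟩, rfl⟩)
    · exact ⟨0, zero_mem _, 1, one_mem _, by simp⟩
    · exact ⟨_, Algebra.subset_adjoin rfl, 0, zero_mem _, by simp⟩
    · obtain ⟨c, d, hc, h⟩ := S.hlin i k
      have hc' : algebraMap ℂ L c ≠ 0 := by simpa using hc hk
      refine ⟨algebraMap ℂ L c⁻¹, algebraMap_mem _ _,
        -(algebraMap ℂ L c⁻¹ * algebraMap ℂ L d * S.x ^ j * (S.l (S.nx i) / S.l k)),
        neg_mem (mul_mem (mul_mem (mul_mem (algebraMap_mem _ _) (algebraMap_mem _ _))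
          (pow_mem (S.x_memC i j) _)) (S.ratio_mem i j _ hk)), ?_⟩
      have := S.hl (S.nx i); have := S.hl k; have := S.hl i; have := S.hx
      simp only [w, eta, map_inv₀]
      field_simp
      linear_combination -h
  | algebraMap c => exact ⟨_, algebraMap_mem _ c, 0, zero_mem _, by simp⟩
  | add a b _ _ ha hb =>
    obtain ⟨h1, hh1, g1, hg1, rfl⟩ := ha
    obtain ⟨h2, hh2, g2, hg2, rfl⟩ := hb
    exact ⟨h1 + h2, add_mem hh1 hh2, g1 + g2, add_mem hg1 hg2, by ring⟩
  | mul a b _ hb' ha hb =>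
    obtain ⟨h1, hh1, g1, hg1, rfl⟩ := ha
    obtain ⟨h2, hh2, g2, hg2, h⟩ := hb
    refine ⟨h1 * h2, mul_mem hh1 hh2, g1 * b + h1 * g2,
      add_mem (mul_mem hg1 hb') (mul_mem (hle hh1) hg2), ?_⟩
    rw [h]; ring

theorem split_away (i : Fin m) (j : ℕ) {g : L} (hg : g ∈ awaySub (S.C i j) _ (S.u_mem i j)) :
    ∃ h ∈ Algebra.adjoin ℂ {S.x, S.w i j}, g - h ∈ S.C i j := by
  have hb : S.w i j ∈ Algebra.adjoin ℂ {S.x, S.w i j} := Algebra.subset_adjoin (by simp)
  have hx : S.x ∈ Algebra.adjoin ℂ {S.x, S.w i j} := Algebra.subset_adjoin (by simp)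
  have hle : Algebra.adjoin ℂ {S.w i (j + 1)} ≤ Algebra.adjoin ℂ {S.x, S.w i j} :=
    Algebra.adjoin_le (by simpa using w_mem hx hb (Nat.le_succ j))
  have key : ∀ n : ℕ, ∀ g ∈ S.C i j,
      ∃ h ∈ Algebra.adjoin ℂ {S.x, S.w i j}, S.w i j ^ n * g - h ∈ S.C i j := by
    intro n
    induction n with
    | zero => exact fun g hg => ⟨0, zero_mem _, by simpa using hg⟩
    | succ n ih =>
      intro g hg
      obtain ⟨h, hh, g', hg', rfl⟩ := S.split i j hg
      obtain ⟨h', hh', h2⟩ := ih g' hg'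
      refine ⟨S.w i j ^ (n + 1) * h + h', add_mem (mul_mem (pow_mem hb _) (hle hh)) hh', ?_⟩
      convert h2 using 1
      have := S.w_ne i j
      field_simp
      ring
  obtain ⟨n, hn⟩ := hg
  obtain ⟨h, hh, h2⟩ := key n _ hn
  refine ⟨h, hh, ?_⟩
  convert h2 using 2
  have := S.w_ne i j
  rw [← mul_assoc, ← mul_pow, mul_inv_cancel₀ this, one_pow, one_mul]

theorem parent_succ (i : Fin m) (j : ℕ) :
    S.C i j ≤ awaySub (S.C i (j + 1)) _ (S.u_mem i (j + 1)) := by
  refine Algebra.adjoin_le ?_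
  rintro g ((rfl | rfl) | ⟨⟨k, hk⟩, rfl⟩)
  · exact le_awaySub _ _ _ (winv_mem (S.x_memC _ _) (S.u_mem _ _) (Nat.le_succ j))
  · exact ⟨1, by rw [pow_one, inv_mul_cancel₀ (S.w_ne _ _)]; exact one_mem _⟩
  · refine le_awaySub _ _ _ ?_
    change (S.l k / S.l (S.nx i))⁻¹ ∈ _
    rw [inv_div]; exact S.ratio_mem _ _ _ hk

theorem parent_zero (i k : Fin m) : S.C k 0 ≤ awaySub (S.C i 0) _ (S.u_mem i 0) := by
  have hr : ∀ a b, S.l a / S.l b ∈ awaySub (S.C i 0) _ (S.u_mem i 0) := by
    intro a b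
    by_cases hb : b = i
    · subst hb
      refine ⟨1, ?_⟩
      have := S.ratio_mem b 0 a (S.hnx b)
      convert this using 1
      have := S.hl b; have := S.hl (S.nx b)
      rw [← zeta_eq]; field_simp
    · exact le_awaySub _ _ _ (S.ratio_mem _ _ _ hb)
  refine Algebra.adjoin_le ?_
  rintro g ((rfl | rfl) | ⟨⟨a, ha⟩, rfl⟩)
  · rw [← zeta_eq S k]; exact hr _ _
  · exact mul_mem (pow_mem (le_awaySub _ _ _ (S.x_memC _ _)) _) (hr _ _)
  · change (S.l a / S.l (S.nx k))⁻¹ ∈ _
    rw [inv_div]; exact hr _ _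

theorem cech (a : (Σ i : Fin m, Fin (S.α i)) → L)
    (ha : ∀ β γ, a β - a γ ∈ S.C β.1 β.2 ⊔ S.C γ.1 γ.2) :
    ∃ a₀, ∀ β, a β - a₀ ∈ S.C β.1 β.2 := by
  let rk : (Σ i : Fin m, Fin (S.α i)) → ℕ := fun β => m * β.2 + β.1
  have hrk : ∀ β γ, rk β = rk γ → β = γ := by
    rintro ⟨i, j⟩ ⟨k, r⟩ h
    have h1 : (i : ℕ) = k := by
      have := congrArg (· % m) h
      simpa [rk, Nat.mul_add_mod, Nat.mod_eq_of_lt i.2, Nat.mod_eq_of_lt k.2] using this
    obtain rfl : i = k := Fin.ext h1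
    have h2 : (j : ℕ) = r := by
      have : m * (j : ℕ) = m * r := by simpa [rk] using h
      exact Nat.eq_of_mul_eq_mul_left i.pos this
    obtain rfl : j = r := Fin.ext h2
    rfl
  have key : ∀ N, ∃ a₀, ∀ β, rk β < N → a β - a₀ ∈ S.C β.1 β.2 := by
    intro N
    induction N with
    | zero => exact ⟨0, fun β h => absurd h (Nat.not_lt_zero _)⟩
    | succ N ih =>
      obtain ⟨a₀, h₀⟩ := ih
      by_cases hβ : ∃ β, rk β = N
      swap
      · refine ⟨a₀, fun β h => h₀ β ?_⟩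
        have : rk β ≠ N := fun h => hβ ⟨β, h⟩
        omega
      obtain ⟨β, hβ⟩ := hβ
      by_cases hγ : ∃ γ, rk γ < N
      swap
      · refine ⟨a β, fun γ h => ?_⟩
        have : ¬ rk γ < N := fun h => hγ ⟨γ, h⟩
        obtain rfl : γ = β := hrk _ _ (by omega)
        rw [sub_self]; exact zero_mem _
      have hpar : ∃ π, rk π < N ∧ S.C π.1 π.2 ≤ awaySub (S.C β.1 β.2) _ (S.u_mem _ _) := by
        obtain ⟨i, j, hj⟩ := β
        rcases j with _ | j
        · obtain ⟨⟨k, r, hr⟩, hγ⟩ := hγ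
          have : r = 0 := by
            by_contra h
            have h1 : m * 1 ≤ m * r := Nat.mul_le_mul_left _ (by omega)
            have := i.2
            simp only [rk] at hβ hγ
            omega
          subst this
          exact ⟨⟨k, 0, hr⟩, hγ, S.parent_zero i k⟩
        · refine ⟨⟨i, j, by omega⟩, ?_, S.parent_succ i j⟩
          have := i.pos
          simp only [rk, mul_add] at hβ ⊢
          omega
      obtain ⟨π, hπ, hle⟩ := hpar
      have h1 : a β - a₀ ∈ awaySub (S.C β.1 β.2) _ (S.u_mem _ _) := by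
        have : a β - a₀ = (a β - a π) + (a π - a₀) := by ring
        rw [this]
        exact add_mem (sup_le (le_awaySub _ _ _) hle (ha β π)) (hle (h₀ π hπ))
      obtain ⟨h, hh, h2⟩ := S.split_away _ _ h1
      refine ⟨a₀ + h, fun γ hγ => ?_⟩
      rw [← sub_sub]
      by_cases hγβ : γ = β
      · subst hγβ; exact h2
      have h3 : rk γ < N := by
        have : rk γ ≠ N := fun h => hγβ (hrk _ _ (by omega))
        omega
      refine sub_mem (h₀ γ h3) (Algebra.adjoin_le ?_ hh)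
      rintro g (rfl | rfl)
      · exact S.x_memC _ _
      · refine S.w_memC _ _ ?_
        by_contra hc
        push Not at hc
        obtain ⟨i, j⟩ := β
        obtain ⟨k, r⟩ := γ
        obtain ⟨rfl, hc⟩ := hc
        have h1 : m * (j : ℕ) ≤ m * r := Nat.mul_le_mul_left _ (by simp only at hc; omega)
        simp only [rk] at hβ h3
        omega
  have := Fintype.ofFinite (Σ i : Fin m, Fin (S.α i))
  obtain ⟨a₀, h₀⟩ := key (Finset.univ.sup rk + 1)
  exact ⟨a₀, fun β => h₀ β (Nat.lt_succ_of_le (Finset.le_sup (f := rk) (Finset.mem_univ β)))⟩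

theorem rational [NeZero m] (A : Type) [CommRing A] [IsDomain A] [Algebra ℂ A] [Algebra A L]
    [IsScalarTower ℂ A L] [IsFractionRing A L]
    (hA : Set.range (algebraMap A L) =
      Algebra.adjoin ℂ ({S.x} ∪ Set.range fun i => S.w i (S.α i))) :
    HasRationalResolution A := by
  obtain ⟨b, hb⟩ := IsLocalization.exist_integer_multiples_of_finite (nonZeroDivisors A)
    (fun β : Σ i : Fin m, Fin (S.α i) => S.F β.1 β.2)
  choose f hf using hb
  have hb0 : algebraMap A L b ≠ 0 := IsFractionRing.to_map_ne_zero_of_mem_nonZeroDivisors b.2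
  have hf' : ∀ β, algebraMap A L (f β) = algebraMap A L b * S.F β.1 β.2 := fun β => by
    rw [hf, Algebra.smul_def]
  have hch : ∀ β, blowupChart A L f β = S.C β.1 β.2 := by
    intro β
    apply le_antisymm
    · refine Algebra.adjoin_le ?_
      rintro g (hg | ⟨γ, rfl⟩)
      · rw [hA] at hg
        refine Algebra.adjoin_le ?_ hg
        rintro g (rfl | ⟨i, rfl⟩)
        · exact S.x_memC _ _
        · refine S.w_memC _ _ ?_
          by_cases h : i = β.1
          · subst h; exact Or.inr β.2.2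
          · exact Or.inl h
      · simp only [hf', mul_div_mul_left _ _ hb0]
        exact S.F_ratio_mem _ _ _ _
    · refine S.C_le ?_ β.2.2 ?_ fun k r hr => ?_
      · refine Algebra.subset_adjoin (Or.inl ?_)
        rw [hA]; exact Algebra.subset_adjoin (Or.inl rfl)
      · refine Algebra.subset_adjoin (Or.inl ?_)
        rw [hA]; exact Algebra.subset_adjoin (Or.inr ⟨_, rfl⟩)
      · refine Algebra.subset_adjoin (Or.inr ⟨⟨k, r, hr⟩, ?_⟩)
        simp only [hf', mul_div_mul_left _ _ hb0]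
  let β₀ : Σ i : Fin m, Fin (S.α i) := ⟨0, 0, S.hα 0⟩
  refine ⟨L, inferInstance, inferInstance, inferInstance, inferInstance, inferInstance,
    Σ i : Fin m, Fin (S.α i), inferInstance, ⟨β₀⟩, f, fun β h => ?_, fun β => ?_, ?_⟩
  · have := hf' β
    rw [h, map_zero] at this
    exact mul_ne_zero hb0 (S.F_ne _ _) this.symm
  · rw [hch]; exact S.smooth_C _ _
  · intro c hc hcc
    simp only [hch] at hc ⊢
    have h1 : ∀ β γ, c β γ = c β β₀ - c γ β₀ := fun β γ => by rw [← hcc β γ β₀]; ring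
    obtain ⟨a₀, h₀⟩ := S.cech (fun β => c β β₀) fun β γ => by rw [← h1]; exact hc β γ
    exact ⟨fun β => c β β₀ - a₀, h₀, fun β γ => by rw [h1]; ring⟩

end StarData

end Pool.Agent.Lib.MP_20b407_ag
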