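import Mathlib
import Pool.Agent.Lib.MP_20b407_ag.Ring
import Pool.Agent.Lib.MP_20b407_ag.Star

/-! The fibres. -/

set_option linter.unusedSectionVars false

namespace Pool.Agent.Lib.MP_20b407_ag

open Finset MvPolynomial WithZero

attribute [-simp] MvPolynomial.aeval_eq_bind₁ MvPolynomial.aeval_eq_eval

/-- polynomials in `x, y` -/
abbrev T2 : Type := MvPolynomial (Fin 2) ℂ

/-- function field of the fibres -/
abbrev K2 : Type := FractionRing T2

/-- inclusion -/
noncomputable def i2 : T2 →ₐ[ℂ] K2 := IsScalarTower.toAlgHom ℂ T2 K2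

theorem i2_eq (a : T2) : algebraMap T2 K2 a = i2 a := rfl

theorem i2_inj : Function.Injective i2 := IsFractionRing.injective T2 K2

/-- coordinate -/
noncomputable abbrev x2 : K2 := i2 (X 0)
/-- coordinate -/
noncomputable abbrev y2 : K2 := i2 (X 1)
/-- constant -/
noncomputable abbrev c2 (c : ℂ) : K2 := algebraMap ℂ K2 c

theorem x2_ne : x2 ≠ 0 := fun h => X_ne_zero _ (i2_inj (h.trans (map_zero i2).symm))

theorem ell2T_ne (c : ℂ) (i : Fin 4) : ell (X 0 : T2) (algebraMap ℂ T2 c) (X 1) i ≠ 0 := by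
  intro h
  have h1 := congrArg (aeval (R := ℂ) ![(0 : ℂ), sig 0 c i + 1]) h
  simp [ell] at h1

theorem ell2_ne (c : ℂ) (i : Fin 4) : ell x2 (c2 c) y2 i ≠ 0 := by
  intro h
  refine ell2T_ne c i (i2_inj ?_)
  rw [map_ell, AlgHom.commutes, h, map_zero]

theorem lam2_ne (c : ℂ) (p : Fin 18) : lam x2 (c2 c) p ≠ 0 := by
  intro h
  have h0 : lam (X 0 : T2) (algebraMap ℂ T2 c) p = 0 := i2_inj (by
    rw [map_lam, AlgHom.commutes, h, map_zero])
  have h1 := congrArg (aeval (R := ℂ) ![aa p * c + 1, 0]) h0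
  simp [lam] at h1

theorem eq_top_of_mem {F : IntermediateField ℂ K2} (hx : x2 ∈ F) (hy : y2 ∈ F) : F = ⊤ := by
  have h : ∀ a, i2 a ∈ F := by
    intro a
    induction a using MvPolynomial.induction_on with
    | C a => rw [algHom_C]; exact algebraMap_mem _ _
    | add p q hp hq => rw [map_add]; exact add_mem hp hq
    | mul_X p i hp =>
      rw [map_mul]
      refine mul_mem hp ?_
      fin_cases i
      exacts [hx, hy]
  rw [eq_top_iff]
  intro g _
  obtain ⟨a, b, -, rfl⟩ := IsFractionRing.div_surjective (A := T2) g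
  exact div_mem (h a) (h b)

theorem trdeg_K2 : Algebra.trdeg ℂ K2 = 2 := by
  rw [trdeg_frac T2, MvPolynomial.trdeg_of_isDomain]; simp

/-- specialisation of polynomials -/
noncomputable def sp (c : ℂ) : TT →ₐ[ℂ] K2 := aeval ![x2, c2 c, y2]

theorem sp_LT (c : ℂ) : sp c LT ≠ 0 := by
  simp only [LT, map_prod, map_ell, sp, aeval_X]
  exact prod_ne_zero_iff.mpr fun i _ => ell2_ne c i

theorem exists_spR (c : ℂ) : ∃ f : RR →ₐ[ℂ] K2, ∀ (r : RR) (N : ℕ) (Φ : TT),
    (r : KK) * iK LT ^ N = iK Φ → f r * sp c LT ^ N = sp c Φ :=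
  exists_spec (K := KK) LT (sp c) (sp_LT c) RR fun r hr => by
    obtain ⟨N, Φ, h⟩ := (mem_RR_iff.mp hr).1
    exact ⟨N, Φ, h⟩

/-- specialisation -/
noncomputable def spR (c : ℂ) : RR →ₐ[ℂ] K2 := (exists_spR c).choose

theorem spR_spec (c : ℂ) (r : RR) (N : ℕ) (Φ : TT) (h : (r : KK) * iK LT ^ N = iK Φ) :
    spR c r * sp c LT ^ N = sp c Φ := (exists_spR c).choose_spec r N Φ h

theorem spR_iK (c : ℂ) (Φ : TT) : spR c ⟨iK Φ, iK_mem_RR Φ⟩ = sp c Φ := by
  simpa using spR_spec c ⟨iK Φ, iK_mem_RR Φ⟩ 0 Φ (by simp)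

/-- extra generators on a fibre -/
noncomputable def W2 (c : ℂ) (i : Fin 4) : K2 := pr x2 (c2 c) i i / ell x2 (c2 c) y2 i

theorem spR_W (c : ℂ) (i : Fin 4) : spR c ⟨WK i, WK_mem_RR i⟩ = W2 c i := by
  have h : (⟨WK i, WK_mem_RR i⟩ : RR) * ⟨iK (ellT i), iK_mem_RR _⟩ =
      ⟨iK (pr (X 0) (X 1) i i), iK_mem_RR _⟩ := by
    ext
    simp only [MulMemClass.mk_mul_mk, WK, iK_ellT, map_pr]
    exact div_mul_cancel₀ _ (ellK_ne i)
  have := congrArg (spR c) h
  rw [map_mul, spR_iK, spR_iK] at this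
  simp only [sp, map_ell, map_pr, aeval_X] at this
  exact eq_div_of_mul_eq (ell2_ne c i) this

/-- coordinate ring of a fibre -/
noncomputable def BB (c : ℂ) : Subalgebra ℂ K2 := Algebra.adjoin ℂ ({x2, y2} ∪ Set.range (W2 c))

theorem x2_mem (c : ℂ) : x2 ∈ BB c := Algebra.subset_adjoin (Or.inl (by simp))
theorem y2_mem (c : ℂ) : y2 ∈ BB c := Algebra.subset_adjoin (Or.inl (by simp))
theorem W2_mem (c : ℂ) (i : Fin 4) : W2 c i ∈ BB c := Algebra.subset_adjoin (Or.inr ⟨i, rfl⟩)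

theorem spR_range (c : ℂ) : (spR c).range = BB c := by
  apply le_antisymm
  · rintro _ ⟨⟨r, hr⟩, rfl⟩
    change spR c ⟨r, hr⟩ ∈ BB c
    induction hr using Algebra.adjoin_induction with
    | mem g hg =>
      rcases hg with (rfl | rfl | rfl) | ⟨i, rfl⟩
      · rw [spR_iK]; simpa [sp] using x2_mem c
      · rw [spR_iK]; simp [sp]
      · rw [spR_iK]; simpa [sp] using y2_mem c
      · rw [spR_W]; exact W2_mem c i
    | algebraMap a =>
      have := (spR c).commutes a
      exact this ▸ algebraMap_mem _ a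
    | add a b ha hb ha' hb' =>
      have := map_add (spR c) ⟨a, ha⟩ ⟨b, hb⟩
      exact this ▸ add_mem ha' hb'
    | mul a b ha hb ha' hb' =>
      have := map_mul (spR c) ⟨a, ha⟩ ⟨b, hb⟩
      exact this ▸ mul_mem ha' hb'
  · refine Algebra.adjoin_le ?_
    rintro g ((rfl | rfl) | ⟨i, rfl⟩)
    · exact ⟨⟨_, iK_mem_RR (X 0)⟩, (spR_iK c _).trans (by simp [sp])⟩
    · exact ⟨⟨_, iK_mem_RR (X 2)⟩, (spR_iK c _).trans (by simp [sp])⟩
    · exact ⟨_, spR_W c i⟩

/-- the smoothing parameter -/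
noncomputable def tR : RR := ⟨tK, iK_mem_RR _⟩

theorem spR_ker (c : ℂ) : RingHom.ker (spR c) = Ideal.span {tR - algebraMap ℂ RR c} := by
  ext r
  rw [RingHom.mem_ker, Ideal.mem_span_singleton]
  constructor
  · intro h
    obtain ⟨⟨N, Φ, hΦ⟩, hv⟩ := mem_RR_iff.mp r.2
    have h1 := spR_spec c r N Φ hΦ
    rw [h, zero_mul] at h1
    let θ : TT →ₐ[ℂ] T2 := aeval ![X 0, algebraMap ℂ T2 c, X 1]
    have h2 : i2.comp θ = sp c := algHom_ext fun k => by fin_cases k <;> simp [θ, sp]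
    have h3 : θ Φ = 0 := i2_inj (by rw [map_zero, h1, ← h2]; rfl)
    have h4 := dvd_sub_algHom (AlgHom.id ℂ TT) ((aeval ![X 0, X 2]).comp θ)
      (X 1 - algebraMap ℂ TT c) (fun k => by fin_cases k <;> simp [θ]) Φ
    rw [AlgHom.comp_apply, h3, map_zero, sub_zero, AlgHom.id_apply] at h4
    obtain ⟨Ψ, rfl⟩ := h4
    have h5 := fun p => vp_tc p c
    have h6 := (h5 0).ne_zero
    refine ⟨⟨r / (tK - algebraMap ℂ KK c), mem_RR_iff.mpr ⟨⟨N, Ψ, ?_⟩, fun p => ?_⟩⟩, ?_⟩
    · rw [map_mul, map_sub, AlgHom.commutes] at hΦ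
      field_simp
      linear_combination hΦ
    · exact (hv p).div (h5 p)
    · ext
      change (r : KK) = (tK - algebraMap ℂ KK c) * (r / (tK - algebraMap ℂ KK c))
      field_simp
  · rintro ⟨s, rfl⟩
    rw [map_mul, map_sub, tR, spR_iK, AlgHom.commutes]
    simp [sp]

/-- the fibres -/
noncomputable def fibreEquiv (c : ℂ) {τ : RR} (h : τ = tR - algebraMap ℂ RR c) :
    (RR ⧸ Ideal.span {τ}) ≃ₐ[ℂ] BB c :=
  ((Ideal.quotientEquivAlgOfEq ℂ (by rw [h, ← spR_ker, AlgHom.ker_rangeRestrict])).trans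
    (Ideal.quotientKerAlgEquivOfSurjective (spR c).rangeRestrict_surjective)).trans
    (Subalgebra.equivOfEq _ _ (spR_range c))

section poly

variable {L : Type} [Field L] [Algebra ℂ L] {A : Subalgebra ℂ L} {x t y : L}

theorem lam_mem (hx : x ∈ A) (ht : t ∈ A) (p : Fin 18) : lam x t p ∈ A :=
  sub_mem hx (mul_mem (algebraMap_mem _ _) ht)

theorem pr_mem (hx : x ∈ A) (ht : t ∈ A) (i j : Fin 4) : pr x t i j ∈ A :=
  prod_mem fun p _ => lam_mem hx ht p

theorem sig_mem (hx : x ∈ A) (ht : t ∈ A) (i : Fin 4) : sig x t i ∈ A :=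
  mul_mem (algebraMap_mem _ _) (pr_mem hx ht _ _)

theorem ell_mem (hx : x ∈ A) (ht : t ∈ A) (hy : y ∈ A) (i : Fin 4) : ell x t y i ∈ A :=
  sub_mem hy (sig_mem hx ht _)

theorem dd_mem (hx : x ∈ A) (ht : t ∈ A) (p : Fin 18) (i j : Fin 4) : dd x t p i j ∈ A :=
  mul_mem (algebraMap_mem _ _) (prod_mem fun p _ => lam_mem hx ht p)

end poly

theorem smooth_BB {c : ℂ} (hc : c ≠ 0) : Algebra.Smooth ℂ (BB c) := by
  let lB : Fin 18 → BB c := fun p => ⟨lam x2 (c2 c) p, lam_mem (x2_mem c) (algebraMap_mem _ _) p⟩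
  refine smooth_of_cover (Set.range fun p => ∏ q ∈ univ.erase p, lB q) ?_ ?_
  · by_contra h
    obtain ⟨n, hn, hle⟩ := Ideal.exists_le_maximal _ h
    have h1 : ∀ p, ∃ q, q ≠ p ∧ lB q ∈ n := by
      intro p
      obtain ⟨q, hq, h⟩ := Ideal.IsPrime.prod_mem_iff.mp (hle (Ideal.subset_span ⟨p, rfl⟩))
      exact ⟨q, ne_of_mem_erase hq, h⟩
    obtain ⟨q, -, hq⟩ := h1 0
    obtain ⟨r, hrq, hr⟩ := h1 q
    have h2 : lB q - lB r = algebraMap ℂ _ ((aa r - aa q) * c) := by
      ext; simp [lB, lam]; ring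
    have h3 := sub_mem hq hr
    rw [h2] at h3
    exact hn.ne_top (Ideal.eq_top_of_isUnit_mem _ h3 ((IsUnit.mk0 _
      (mul_ne_zero (sub_ne_zero.mpr fun h => hrq (aa_inj h)) hc)).map _))
  rintro _ ⟨p, rfl⟩
  set i := ip p with hi
  have hip : i ∈ JJ p := ip_mem p
  let l : Fin 4 → K2 := ell x2 (c2 c) y2
  let lm : Fin 18 → K2 := lam x2 (c2 c)
  have hl : ∀ j, l j ≠ 0 := ell2_ne c
  have hlm : ∀ q, lm q ≠ 0 := lam2_ne c
  let e : Fin 18 ⊕ Fin 4 → K2 := Sum.elim (fun q => if q = p then 1 else lm q)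
    (fun j => if j ∈ JJ p then l j / l i else l j)
  have hg : ((∏ q ∈ univ.erase p, lB q : BB c) : K2) = ∏ q ∈ univ.erase p, lm q := by
    simp [lB, lm]
  have hx : ∀ {A : Subalgebra ℂ K2}, lm p / l i ∈ A → l i ∈ A → x2 ∈ A := by
    intro A hu hv
    have : x2 = lm p / l i * l i + algebraMap ℂ K2 (aa p * c) := by
      rw [div_mul_cancel₀ _ (hl i)]; simp [lm, lam]
    rw [this]; exact add_mem (mul_mem hu hv) (algebraMap_mem _ _)
  have hy : ∀ {A : Subalgebra ℂ K2}, lm p / l i ∈ A → l i ∈ A → y2 ∈ A := by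
    intro A hu hv
    have : y2 = l i + sig x2 (c2 c) i := by simp [l, ell]
    rw [this]; exact add_mem hv (sig_mem (hx hu hv) (algebraMap_mem _ _) _)
  have hlj : ∀ j ∈ JJ p, l j = l i + lm p * dd x2 (c2 c) p i j := by
    intro j hj
    rw [← sig_sub_dd _ _ hip hj]; simp [l, ell]
  have hpr : ∀ j ∈ JJ p, pr x2 (c2 c) j j = lm p * ∏ q ∈ (cp j j).erase p, lm q := by
    intro j hj
    rw [pr, ← mul_prod_erase _ _ (mem_cp.mpr ⟨hj, hj⟩)]
  let A' := Algebra.adjoin ℂ ({lm p / l i, l i} ∪ Set.range fun k => (e k)⁻¹)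
  have hu : lm p / l i ∈ A' := Algebra.subset_adjoin (Or.inl (by simp))
  have hv : l i ∈ A' := Algebra.subset_adjoin (Or.inl (by simp))
  have he : ∀ k, (e k)⁻¹ ∈ A' := fun k => Algebra.subset_adjoin (Or.inr ⟨k, rfl⟩)
  refine ⟨A', ?_, ?_, ?_, ?_, ?_⟩
  · refine Algebra.adjoin_le ?_
    rintro g ((rfl | rfl) | ⟨j, rfl⟩)
    · exact hx hu hv
    · exact hy hu hv
    · have h1 := he (Sum.inr j)
      simp only [e, Sum.elim_inr] at h1
      split_ifs at h1 with hj
      · have : W2 c j = (∏ q ∈ (cp j j).erase p, lm q) * (lm p / l i) * (l j / l i)⁻¹ := by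
          have := hl i; have := hl j
          rw [W2, hpr j hj]
          change _ / l j = _
          field_simp
        rw [this]
        exact mul_mem (mul_mem (prod_mem fun q _ => lam_mem (hx hu hv) (algebraMap_mem _ _) q) hu) h1
      · rw [W2, div_eq_mul_inv]
        exact mul_mem (pr_mem (hx hu hv) (algebraMap_mem _ _) _ _) h1
  · rw [hg]; exact prod_ne_zero_iff.mpr fun q _ => hlm q
  · rw [hg, ← prod_inv_distrib]
    refine prod_mem fun q hq => ?_
    simpa [e, ne_of_mem_erase hq] using he (Sum.inl q)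
  · let D := awaySub (BB c) _ (∏ q ∈ univ.erase p, lB q : BB c).2
    have hD : BB c ≤ D := le_awaySub _ _ _
    have h1 : ∀ q, q ≠ p → (lm q)⁻¹ ∈ D := by
      intro q hq
      refine ⟨1, ?_⟩
      rw [hg, pow_one, ← prod_erase_mul _ _ (mem_erase.mpr ⟨hq, mem_univ q⟩), mul_assoc,
        mul_inv_cancel₀ (hlm q), mul_one]
      exact prod_mem fun r _ => (lB r).2
    have h2 : ∀ j ∈ JJ p, lm p / l j ∈ D := by
      intro j hj
      have : lm p / l j = W2 c j * ∏ q ∈ (cp j j).erase p, (lm q)⁻¹ := by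
        have := hl j
        have : ∏ q ∈ (cp j j).erase p, lm q ≠ 0 := prod_ne_zero_iff.mpr fun q _ => hlm q
        rw [W2, hpr j hj, prod_inv_distrib]
        change _ = _ / l j * _
        field_simp
      rw [this]
      exact mul_mem (hD (W2_mem c j)) (prod_mem fun q hq => h1 q (ne_of_mem_erase hq))
    change A' ≤ D
    refine Algebra.adjoin_le ?_
    rintro g ((rfl | rfl) | ⟨q | j, rfl⟩)
    · exact h2 i hip
    · exact hD (ell_mem (x2_mem c) (algebraMap_mem _ _) (y2_mem c) i)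
    · simp only [e, Sum.elim_inl]
      split_ifs with hq
      · simp
      · exact h1 q hq
    · simp only [e, Sum.elim_inr]
      split_ifs with hj
      · have : (l j / l i)⁻¹ = 1 - dd x2 (c2 c) p i j * (lm p / l j) := by
          have := hl i; have := hl j
          field_simp
          linear_combination -hlj j hj
        rw [this]
        exact sub_mem (one_mem _) (mul_mem (hD (dd_mem (x2_mem c) (algebraMap_mem _ _) _ _ _))
          (h2 j hj))
      · have : (l j)⁻¹ = W2 c j * ∏ q ∈ cp j j, (lm q)⁻¹ := by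
          have := hl j
          have : ∏ q ∈ cp j j, lm q ≠ 0 := prod_ne_zero_iff.mpr fun q _ => hlm q
          rw [W2, prod_inv_distrib, pr]
          change _ = (∏ q ∈ cp j j, lm q) / l j * _
          field_simp
        rw [this]
        exact mul_mem (hD (W2_mem c j))
          (prod_mem fun q hq => h1 q fun h => hj (h ▸ (mem_cp.mp hq).1))
  · have hu0 : lm p / l i ∈ Algebra.adjoin ℂ {lm p / l i, l i} := Algebra.subset_adjoin (by simp)
    have hv0 : l i ∈ Algebra.adjoin ℂ {lm p / l i, l i} := Algebra.subset_adjoin (by simp)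
    refine smooth_chart trdeg_K2.ge _ _ ?_ e ?_ ?_
    · have h := IntermediateField.algebra_adjoin_le_adjoin ℂ {lm p / l i, l i}
      exact eq_top_of_mem (h (hx hu0 hv0)) (h (hy hu0 hv0))
    · rintro (q | j)
      · simp only [e, Sum.elim_inl]
        split_ifs
        · exact one_mem _
        · exact lam_mem (hx hu0 hv0) (algebraMap_mem _ _) q
      · simp only [e, Sum.elim_inr]
        split_ifs with hj
        · have : l j / l i = 1 + lm p / l i * dd x2 (c2 c) p i j := by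
            have := hl i
            rw [hlj j hj]; field_simp
          rw [this]
          exact add_mem (one_mem _) (mul_mem hu0 (dd_mem (hx hu0 hv0) (algebraMap_mem _ _) _ _ _))
        · exact ell_mem (hx hu0 hv0) (algebraMap_mem _ _) (hy hu0 hv0) j
    · rintro (q | j)
      · simp only [e, Sum.elim_inl]
        split_ifs
        · exact one_ne_zero
        · exact hlm q
      · simp only [e, Sum.elim_inr]
        split_ifs with hj
        · exact div_ne_zero (hl j) (hl i)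
        · exact hl j

end Pool.Agent.Lib.MP_20b407_ag
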