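import Mathlib
import Pool.Agent.Lib.MP_20b407_ag.Ring

/-! Monomial valuations centred at the vertex, the vertex and its local ring. -/

set_option linter.unusedSectionVars false

namespace Pool.Agent.Lib.MP_20b407_ag

open Finset MvPolynomial WithZero

attribute [-simp] MvPolynomial.aeval_eq_bind₁ MvPolynomial.aeval_eq_eval

theorem val_poly {K : Type} [Field K] [Algebra ℂ K] {v : Valuation K ℤᵐ⁰} {s z : K}
    (hs : ∀ ψ : Polynomial ℂ, ψ ≠ 0 → VEq v 0 (Polynomial.aeval s ψ)) (hz : VEq v (-1) z)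
    {F : Polynomial (Polynomial ℂ)} (hF : F ≠ 0) :
    VEq v (-F.natDegree) (F.aevalAeval s z) := by
  have h : ∀ e, Polynomial.aevalAeval s z (Polynomial.monomial e (F.coeff e)) =
      Polynomial.aeval s (F.coeff e) * z ^ e := by
    intro e
    rw [← Polynomial.C_mul_X_pow_eq_monomial, map_mul, map_pow, Polynomial.aevalAeval_C,
      Polynomial.aevalAeval_Y]
  conv => rhs; rw [F.as_sum_range, sum_range_succ_comm, map_add, map_sum]
  simp only [h]
  refine VEq.add_ge (((hs _ (mt Polynomial.leadingCoeff_eq_zero.mp hF)).mul (hz.pow _)).congr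
    (by simp)) (VGe.sum fun e he => ?_)
  by_cases h0 : F.coeff e = 0
  · rw [h0, map_zero, zero_mul]; exact VGe.zero _
  · refine ((hs _ h0).mul (hz.pow _)).ge.mono ?_
    have := mem_range.mp he
    omega

/-- weighting homomorphism -/
noncomputable def Gam (k : ℕ) : TT →ₐ[ℂ] Polynomial TT :=
  aeval ![Polynomial.C (X 0) * Polynomial.X ^ (k + 1), Polynomial.C (X 1) * Polynomial.X ^ (k + 1),
    Polynomial.C (X 2) * Polynomial.X ^ (4 * k + 3)]

theorem Gam_inj (k : ℕ) : Function.Injective (Gam k) := by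
  let ψ : Polynomial TT →ₐ[ℂ] TT := (Polynomial.aeval (1 : TT)).restrictScalars ℂ
  have h : ψ.comp (Gam k) = AlgHom.id ℂ TT :=
    algHom_ext fun i => by fin_cases i <;> simp [ψ, Gam]
  exact Function.Injective.of_comp (f := ψ) (by rw [← AlgHom.coe_comp, h]; exact fun _ _ h => h)

/-- monomial valuation -/
noncomputable def nu (k : ℕ) : Valuation KK ℤᵐ⁰ :=
  embVal KK Polynomial.prime_X (Gam k).toRingHom (Gam_inj k)

theorem nu_iK (k : ℕ) (a : TT) : VGe (nu k) 0 (iK a) := embVal_ge_zero _ _ _ _ a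

theorem nu_eq (k : ℕ) (a u : TT) (n : ℕ) (h : Gam k a = Polynomial.X ^ n * Polynomial.C u)
    (hu : u ≠ 0) : VEq (nu k) n (iK a) :=
  embVal_eq KK Polynomial.prime_X _ _ a n _ h (by simpa [Polynomial.X_dvd_iff] using hu)

theorem nu_const (k : ℕ) {c : ℂ} (hc : c ≠ 0) : VEq (nu k) 0 (algebraMap ℂ KK c) := by
  rw [← iK.commutes]
  exact nu_eq k _ (algebraMap ℂ TT c) 0 (by simp) (by simpa using hc)

theorem nu_const' (k : ℕ) (c : ℂ) : VGe (nu k) 0 (algebraMap ℂ KK c) := by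
  rw [← iK.commutes]; exact nu_iK k _

theorem nu_t (k : ℕ) : VEq (nu k) (k + 1) tK :=
  nu_eq k _ (X 1) (k + 1) (by rw [mul_comm]; simp [Gam]) (X_ne_zero _)

theorem nu_x (k : ℕ) : VEq (nu k) (k + 1) xK :=
  nu_eq k _ (X 0) (k + 1) (by rw [mul_comm]; simp [Gam]) (X_ne_zero _)

theorem nu_y (k : ℕ) : VEq (nu k) (4 * k + 3) yK :=
  nu_eq k _ (X 2) (4 * k + 3) (by rw [mul_comm]; simp [Gam]) (X_ne_zero _)

theorem nu_lin (k : ℕ) (a : ℂ) : VEq (nu k) (k + 1) (xK - algebraMap ℂ KK a * tK) := by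
  rw [← iK.commutes, ← map_mul, ← map_sub]
  refine nu_eq k _ (X 0 - algebraMap ℂ TT a * X 1) (k + 1) (by simp [Gam]; ring) fun h => ?_
  have := congrArg (aeval (R := ℂ) ![(1 : ℂ), 0, 0]) h
  simp at this

theorem nu_prod_lam (k : ℕ) (s : Finset (Fin 18)) :
    VEq (nu k) (s.card * (k + 1)) (∏ p ∈ s, lamK p) :=
  (VEq.prod fun p _ => nu_lin k (aa p)).congr (by simp)

theorem nu_sig (k : ℕ) (i : Fin 4) : VGe (nu k) (4 * k + 4) (sig xK tK i) := by
  refine (nu_const' k _).mul' (nu_prod_lam k _).ge ?_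
  rw [card_cp]
  split_ifs
  · push_cast; nlinarith
  · push_cast; omega

theorem nu_ell (k : ℕ) (i : Fin 4) : VEq (nu k) (4 * k + 3) (ellK i) := by
  rw [ellK, ell, sub_eq_add_neg]
  exact (nu_y k).add_ge (nu_sig k i).neg

theorem nu_LT (k : ℕ) : VEq (nu k) (4 * (4 * k + 3)) (iK LT) := by
  rw [iK_LT]
  exact (VEq.prod fun i _ => nu_ell k i).congr (by simp)

theorem nu_s (k : ℕ) (ψ : Polynomial ℂ) (hψ : ψ ≠ 0) :
    VEq (nu k) 0 (Polynomial.aeval (xK / tK) ψ) := by
  have h := (IsAlgClosed.splits ψ).eq_prod_roots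
  rw [h, map_mul, Polynomial.aeval_C, map_multiset_prod, Multiset.map_map]
  refine ((nu_const k (mt Polynomial.leadingCoeff_eq_zero.mp hψ)).mul (n := 0) ?_).congr (by simp)
  refine Multiset.prod_induction _ _ (fun a b ha hb => (ha.mul hb).congr (by simp)) VEq.one ?_
  intro g hg
  obtain ⟨a, -, rfl⟩ := Multiset.mem_map.mp hg
  have : Polynomial.aeval (xK / tK) (Polynomial.X - Polynomial.C a) =
      (xK - algebraMap ℂ KK a * tK) / tK := by
    have := tK_ne
    simp; field_simp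
  simp only [Function.comp_apply, this]
  exact ((nu_lin k a).div (nu_t k)).congr (by simp)

theorem RR_split {r : KK} (hr : r ∈ RR) :
    ∃ c : ℂ, ∀ k, VGe (nu k) 1 (r - algebraMap ℂ KK c) := by
  induction hr using Algebra.adjoin_induction with
  | mem g hg =>
    refine ⟨0, fun k => ?_⟩
    rw [map_zero, sub_zero]
    rcases hg with (rfl | rfl | rfl) | ⟨i, rfl⟩
    · exact (nu_x k).ge.mono (by omega)
    · exact (nu_t k).ge.mono (by omega)
    · exact (nu_y k).ge.mono (by omega)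
    · refine ((nu_prod_lam k _).div (nu_ell k i)).ge.mono ?_
      rw [card_cp, if_pos rfl]
      push_cast; nlinarith
  | algebraMap c => exact ⟨c, fun k => by rw [sub_self]; exact VGe.zero _⟩
  | add a b _ _ ha hb =>
    obtain ⟨c, hc⟩ := ha
    obtain ⟨d, hd⟩ := hb
    exact ⟨c + d, fun k => by rw [map_add, add_sub_add_comm]; exact (hc k).add (hd k)⟩
  | mul a b _ _ ha hb =>
    obtain ⟨c, hc⟩ := ha
    obtain ⟨d, hd⟩ := hb
    refine ⟨c * d, fun k => ?_⟩
    have : a * b - algebraMap ℂ KK (c * d) = (a - algebraMap ℂ KK c) * (b - algebraMap ℂ KK d) +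
        (a - algebraMap ℂ KK c) * algebraMap ℂ KK d +
        algebraMap ℂ KK c * (b - algebraMap ℂ KK d) := by rw [map_mul]; ring
    rw [this]
    exact (((hc k).mul' (hd k) (by omega)).add ((hc k).mul' (nu_const' k d) (by omega))).add
      ((nu_const' k c).mul' (hd k) (by omega))

theorem nu_RR (k : ℕ) {r : KK} (hr : r ∈ RR) : VGe (nu k) 0 r := by
  obtain ⟨c, hc⟩ := RR_split hr
  simpa using ((hc k).mono (by omega : (0 : ℤ) ≤ 1)).add (nu_const' k c)

/-- the vertex -/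
noncomputable def mm : Ideal RR where
  carrier := {r | ∀ k, VGe (nu k) 1 (r : KK)}
  add_mem' ha hb k := (ha k).add (hb k)
  zero_mem' _ := VGe.zero _
  smul_mem' c _ ha k := (nu_RR k c.2).mul' (ha k) (by omega)

theorem exists_const {r : RR} (hr : r ∉ mm) :
    ∃ c : ℂ, c ≠ 0 ∧ r - algebraMap ℂ RR c ∈ mm := by
  obtain ⟨c, hc⟩ := RR_split r.2
  refine ⟨c, ?_, hc⟩
  rintro rfl
  exact hr (fun k => by simpa using hc k)

instance mm_max : mm.IsMaximal := by
  rw [Ideal.isMaximal_iff]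
  refine ⟨fun h => ?_, fun J r hJ hr hrJ => ?_⟩
  · have := (VEq.one (v := nu 0)).le (h 0)
    omega
  · obtain ⟨c, hc, h⟩ := exists_const hr
    have h1 : algebraMap ℂ RR c ∈ J := by simpa using sub_mem hrJ (hJ h)
    exact (Ideal.eq_top_iff_one J).mp
      (J.eq_top_of_isUnit_mem h1 ((IsUnit.mk0 c hc).map (algebraMap ℂ RR)))

theorem nu_unit (k : ℕ) {r : RR} (hr : r ∉ mm) : VEq (nu k) 0 (r : KK) := by
  obtain ⟨c, hc, h⟩ := exists_const hr
  have h1 : VGe (nu k) 1 ((r : KK) - algebraMap ℂ KK c) := h k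
  simpa using (nu_const k hc).add_ge h1

/-- the local ring at the vertex -/
noncomputable def OO : Subalgebra RR KK :=
  Localization.subalgebra.ofField KK mm.primeCompl mm.primeCompl_le_nonZeroDivisors

instance : IsLocalization.AtPrime OO mm :=
  Localization.subalgebra.isLocalization_ofField KK mm.primeCompl _

/-- localised version of `MM` -/
def MO (n : ℤ) (g : KK) : Prop := ∃ s : RR, s ∉ mm ∧ MM n ((s : KK) * g)

theorem one_notMem : (1 : RR) ∉ mm := (Ideal.ne_top_iff_one _).mp mm_max.ne_top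

theorem mul_notMem {a b : RR} (ha : a ∉ mm) (hb : b ∉ mm) : a * b ∉ mm :=
  fun h => (mm_max.isPrime.mem_or_mem h).elim ha hb

theorem MM.mo {n : ℤ} {g : KK} (h : MM n g) : MO n g := ⟨1, one_notMem, by simpa using h⟩

theorem MO.mul {m n : ℤ} {a b : KK} (ha : MO m a) (hb : MO n b) : MO (m + n) (a * b) := by
  obtain ⟨s, hs, h⟩ := ha
  obtain ⟨s', hs', h'⟩ := hb
  refine ⟨s * s', mul_notMem hs hs', ?_⟩
  convert h.mul h' using 1
  push_cast; ring

theorem MO.add {n : ℤ} {a b : KK} (ha : MO n a) (hb : MO n b) : MO n (a + b) := by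
  obtain ⟨s, hs, h⟩ := ha
  obtain ⟨s', hs', h'⟩ := hb
  refine ⟨s * s', mul_notMem hs hs', ?_⟩
  have := (((mem_RR_iff.mp s'.2).mul h).congr (zero_add n)).add
    (((mem_RR_iff.mp s.2).mul h').congr (zero_add n))
  convert this using 1
  push_cast; ring

theorem MO.zero (n : ℤ) : MO n 0 := (MM.zero n).mo

theorem MO.congr {m n : ℤ} {a : KK} (ha : MO m a) (h : m = n) : MO n a := h ▸ ha

theorem mem_OO_iff {g : KK} : g ∈ OO ↔ MO 0 g := by
  constructor
  · rintro ⟨a, s, hs, rfl⟩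
    refine ⟨s, hs, ?_⟩
    have : (s : KK) ≠ 0 := (nu_unit 0 hs).ne_zero
    change MM 0 ((s : KK) * ((a : KK) * (s : KK)⁻¹))
    rw [mul_comm, inv_mul_cancel_right₀ this]
    exact mem_RR_iff.mp a.2
  · rintro ⟨s, hs, h⟩
    refine ⟨⟨_, mem_RR_iff.mpr h⟩, s, hs, ?_⟩
    have : (s : KK) ≠ 0 := (nu_unit 0 hs).ne_zero
    change g = (s : KK) * g * (s : KK)⁻¹
    field_simp

theorem nu_OO (k : ℕ) {g : KK} (hg : g ∈ OO) : VGe (nu k) 0 g := by
  obtain ⟨s, hs, h⟩ := mem_OO_iff.mp hg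
  have := nu_RR k (mem_RR_iff.mpr h)
  rw [mul_comm] at this
  simpa using this.of_mul (nu_unit k hs)

end Pool.Agent.Lib.MP_20b407_ag
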