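import Mathlib
import Pool.Agent.Lib.MP_20b407_ag.Defs
import Pool.Agent.Lib.MP_20b407_ag.Nu
import Pool.Agent.Lib.MP_20b407_ag.Fibre

/-! The pluricanonical modules of the threefold. -/

set_option linter.unusedSectionVars false

namespace Pool.Agent.Lib.MP_20b407_ag

open Finset MvPolynomial WithZero Module

/-- universal derivation -/
noncomputable abbrev dK : Derivation ℂ KK Ω[KK⁄ℂ] := KaehlerDifferential.D ℂ KK

/-- standard basis of differentials -/
noncomputable def b0 : Basis (Fin 3) KK Ω[KK⁄ℂ] :=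
  (KaehlerDifferential.mvPolynomialBasis ℂ (Fin 3)).ofIsLocalizedModule KK
    (nonZeroDivisors TT) (KaehlerDifferential.map ℂ ℂ TT KK)

theorem b0_apply (i : Fin 3) : b0 i = dK (iK (X i)) := by
  rw [b0, Module.Basis.ofIsLocalizedModule_apply, KaehlerDifferential.mvPolynomialBasis_apply,
    KaehlerDifferential.map_D, iK_eq]

/-- derivative in the direction of `y` -/
noncomputable def DY : Derivation ℂ KK KK := (b0.coord 2).compDer dK

theorem DY_apply (g : KK) : DY g = b0.repr (dK g) 2 := rfl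

theorem DY_x : DY xK = 0 := by rw [DY_apply, ← b0_apply]; simp
theorem DY_t : DY tK = 0 := by rw [DY_apply, ← b0_apply]; simp
theorem DY_y : DY yK = 1 := by rw [DY_apply, ← b0_apply]; simp

theorem det_xt (g : KK) : b0.det ![dK xK, dK tK, dK g] = DY g := by
  rw [Basis.det_apply, Matrix.det_fin_three, ← b0_apply, ← b0_apply, DY_apply]
  simp [Basis.toMatrix_apply]

/-- kernel of `DY` -/
noncomputable def kerY : Subalgebra ℂ KK where
  carrier := {g | DY g = 0}
  mul_mem' {a b} ha hb := by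
    change DY _ = 0
    rw [Derivation.leibniz, show DY a = 0 from ha, show DY b = 0 from hb]; simp
  add_mem' {a b} ha hb := by
    change DY _ = 0
    rw [map_add, show DY a = 0 from ha, show DY b = 0 from hb]; simp
  algebraMap_mem' c := Derivation.map_algebraMap _ _

theorem DY_lam (p : Fin 18) : DY (lamK p) = 0 := lam_mem (A := kerY) DY_x DY_t p
theorem DY_pr (i j : Fin 4) : DY (pr xK tK i j) = 0 := pr_mem (A := kerY) DY_x DY_t i j
theorem DY_ell (i : Fin 4) : DY (ellK i) = 1 := by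
  rw [ellK, ell, map_sub, DY_y, show DY (sig xK tK i) = 0 from sig_mem (A := kerY) DY_x DY_t i,
    sub_zero]

theorem DY_zeta (p : Fin 18) (i : Fin 4) : DY (ellK i / lamK p) = (lamK p)⁻¹ := by
  have h := congrArg DY (div_mul_cancel₀ (ellK i) (lamK_ne p))
  rw [Derivation.leibniz, DY_lam, DY_ell, smul_zero, zero_add, smul_eq_mul] at h
  exact eq_inv_of_mul_eq_one_right h

theorem DY_W (i : Fin 4) : DY (WK i) = -WK i / ellK i := by
  have h := congrArg DY (div_mul_cancel₀ (pr xK tK i i) (ellK_ne i))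
  rw [Derivation.leibniz, DY_pr, DY_ell, ← WK] at h
  rw [eq_div_iff (ellK_ne i)]
  simp only [smul_eq_mul] at h
  linear_combination h

/-- elements whose differential is a combination of the `e k` with coefficients in `V` -/
noncomputable def SS (V : Subring KK) (hV : ∀ c, algebraMap ℂ KK c ∈ V) (e : Fin 3 → Ω[KK⁄ℂ]) :
    Subalgebra ℂ KK where
  carrier := {g | g ∈ V ∧ ∃ c : Fin 3 → KK, (∀ k, c k ∈ V) ∧ dK g = ∑ k, c k • e k}
  mul_mem' := by
    rintro a b ⟨ha, c, hc, h⟩ ⟨hb, c', hc', h'⟩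
    refine ⟨mul_mem ha hb, fun k => a * c' k + b * c k,
      fun k => add_mem (mul_mem ha (hc' k)) (mul_mem hb (hc k)), ?_⟩
    rw [Derivation.leibniz, h, h']
    simp only [smul_sum, add_smul, sum_add_distrib, mul_smul]
  add_mem' := by
    rintro a b ⟨ha, c, hc, h⟩ ⟨hb, c', hc', h'⟩
    refine ⟨add_mem ha hb, fun k => c k + c' k, fun k => add_mem (hc k) (hc' k), ?_⟩
    rw [map_add, h, h']
    simp only [add_smul, sum_add_distrib]
  algebraMap_mem' c := ⟨hV c, 0, fun _ => zero_mem _, by simp⟩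

section

variable {V : Subring KK} {hV : ∀ c, algebraMap ℂ KK c ∈ V} {e : Fin 3 → Ω[KK⁄ℂ]}

theorem SS_inv {g : KK} (hg : g ∈ SS V hV e) (hi : g⁻¹ ∈ V) : g⁻¹ ∈ SS V hV e := by
  obtain ⟨-, c, hc, h⟩ := hg
  refine ⟨hi, fun k => -g⁻¹ ^ 2 * c k, fun k => mul_mem (neg_mem (pow_mem hi _)) (hc k), ?_⟩
  rw [Derivation.leibniz_inv, h]
  simp only [smul_sum, mul_smul]

theorem SS_gen {g : KK} (hg : g ∈ V) (k : Fin 3) (h : dK g = e k) : g ∈ SS V hV e := by
  refine ⟨hg, Pi.single k 1, fun j => ?_, ?_⟩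
  · by_cases hj : j = k
    · subst hj; simp
    · simp [hj]
  · rw [h, sum_eq_single k] <;> simp +contextual

theorem det_comb (v : Fin 3 → Ω[KK⁄ℂ]) (c : Matrix (Fin 3) (Fin 3) KK) :
    b0.det (fun i => ∑ j, c i j • v j) = c.det * b0.det v := by
  rw [Module.Basis.det_apply, Module.Basis.det_apply, ← Matrix.det_transpose c, mul_comm,
    ← Matrix.det_mul]
  congr 1
  ext i j
  simp [Basis.toMatrix_apply, Matrix.mul_apply, mul_comm]

theorem jac_mem (hR : RR ≤ SS V hV e) (r s : Fin 3 → RR) (hs : ∀ j, (s j : KK) ≠ 0) :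
    ∃ w ∈ V, (∏ j, (s j : KK) ^ 2) * b0.det (fun j => dK (r j * (s j : KK)⁻¹)) = w * b0.det e := by
  have h : ∀ j, ∃ c : Fin 3 → KK, (∀ k, c k ∈ V) ∧
      (s j : KK) ^ 2 • dK (r j * (s j : KK)⁻¹) = ∑ k, c k • e k := by
    intro j
    obtain ⟨h1, c, hc, h⟩ := hR (r j).2
    obtain ⟨h2, c', hc', h'⟩ := hR (s j).2
    refine ⟨fun k => s j * c k - r j * c' k,
      fun k => sub_mem (mul_mem h2 (hc k)) (mul_mem h1 (hc' k)), ?_⟩
    have := hs j
    rw [Derivation.leibniz, Derivation.leibniz_inv, h, h']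
    simp only [smul_sum, ← sum_add_distrib, smul_smul, ← add_smul]
    refine sum_congr rfl fun k _ => ?_
    congr 1
    field_simp
    ring
  choose c hc h using h
  refine ⟨(Matrix.of c).det, ?_, ?_⟩
  · rw [Matrix.det_fin_three]
    simp only [Matrix.of_apply]
    refine sub_mem (add_mem (add_mem (sub_mem (sub_mem ?_ ?_) ?_) ?_) ?_) ?_ <;>
      exact mul_mem (mul_mem (hc _ _) (hc _ _)) (hc _ _)
  · rw [← det_comb, ← smul_eq_mul, ← AlternatingMap.map_smul_univ]
    simp only [h, Matrix.of_apply]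

end

theorem RR_le_SS_LS :
    RR ≤ SS LS (fun c => by rw [← iK.commutes]; exact iK_mem_LS _) b0 := by
  have hx : xK ∈ SS LS (fun c => by rw [← iK.commutes]; exact iK_mem_LS _) b0 :=
    SS_gen (iK_mem_LS _) 0 (b0_apply 0).symm
  have ht : tK ∈ SS LS (fun c => by rw [← iK.commutes]; exact iK_mem_LS _) b0 :=
    SS_gen (iK_mem_LS _) 1 (b0_apply 1).symm
  have hy : yK ∈ SS LS (fun c => by rw [← iK.commutes]; exact iK_mem_LS _) b0 :=
    SS_gen (iK_mem_LS _) 2 (b0_apply 2).symm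
  refine Algebra.adjoin_le ?_
  rintro g ((rfl | rfl | rfl) | ⟨i, rfl⟩)
  · exact hx
  · exact ht
  · exact hy
  · rw [WK, div_eq_mul_inv]
    exact mul_mem (pr_mem hx ht _ _) (SS_inv (ell_mem hx ht hy i) (inv_ell_mem_LS i))

theorem RR_le_SS_vp (p : Fin 18) :
    RR ≤ SS (vring (vp p)) (vp_const' p) ![dK xK, dK tK, dK (ellK (ip p) / lamK p)] := by
  have hlam : VEq (vp p) 1 (lamK p) := (vp_lam p p).congr (by simp)
  have hx : xK ∈ SS (vring (vp p)) (vp_const' p) ![dK xK, dK tK, dK (ellK (ip p) / lamK p)] :=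
    SS_gen (vp_iK p _) 0 rfl
  have ht : tK ∈ SS (vring (vp p)) (vp_const' p) ![dK xK, dK tK, dK (ellK (ip p) / lamK p)] :=
    SS_gen (vp_iK p _) 1 rfl
  have hz : ellK (ip p) / lamK p ∈
      SS (vring (vp p)) (vp_const' p) ![dK xK, dK tK, dK (ellK (ip p) / lamK p)] :=
    SS_gen ((vp_ell_mem (ip_mem p)).div hlam).ge 2 rfl
  have hl := lamK_ne p
  have hy : yK ∈ SS (vring (vp p)) (vp_const' p) ![dK xK, dK tK, dK (ellK (ip p) / lamK p)] := by
    have : yK = sig xK tK (ip p) + lamK p * (ellK (ip p) / lamK p) := by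
      rw [mul_div_cancel₀ _ hl]; simp [ell]
    rw [this]
    exact add_mem (sig_mem hx ht _) (mul_mem (lam_mem hx ht _) hz)
  refine Algebra.adjoin_le ?_
  rintro g ((rfl | rfl | rfl) | ⟨j, rfl⟩)
  · exact hx
  · exact ht
  · exact hy
  · by_cases hj : j ∈ JJ p
    · have h1 : ellK j / lamK p = ellK (ip p) / lamK p + dd xK tK p (ip p) j := by
        have := sig_sub_dd xK tK (ip_mem p) hj
        field_simp
        simp only [ell]
        linear_combination this
      have h2 : WK j = (∏ q ∈ (cp j j).erase p, lamK q) * (ellK j / lamK p)⁻¹ := by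
        have := ellK_ne j
        rw [WK, pr, ← mul_prod_erase _ _ (mem_cp.mpr ⟨hj, hj⟩)]
        field_simp
      rw [h2]
      refine mul_mem (prod_mem fun q _ => lam_mem hx ht q) (SS_inv ?_ ?_)
      · rw [h1]; exact add_mem hz (dd_mem hx ht _ _ _)
      · exact ((vp_ell_mem hj).div hlam).inv.ge
    · rw [WK, div_eq_mul_inv]
      refine mul_mem (pr_mem hx ht _ _) (SS_inv (ell_mem hx ht hy j) ?_)
      exact ((vp_ell p j).congr (if_neg hj)).inv.ge

theorem jac_MO (f : Fin 3 → OO) : MO 1 (b0.det fun j => dK (f j)) := by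
  have h : ∀ j, ∃ (r s : RR) (_ : s ∈ mm.primeCompl), (f j : KK) = r * (s : KK)⁻¹ :=
    fun j => (f j).2
  choose r s hs h using h
  have hs0 : ∀ j, (s j : KK) ≠ 0 := fun j => (nu_unit 0 (hs j)).ne_zero
  refine ⟨∏ j, s j ^ 2, (prod_mem fun j _ => pow_mem (hs j) 2 : _ ∈ mm.primeCompl), ?_⟩
  simp only [h]
  push_cast
  refine ⟨?_, fun p => ?_⟩
  · obtain ⟨w, hw, h⟩ := jac_mem RR_le_SS_LS r s hs0
    rw [h, Basis.det_self, mul_one]; exact hw
  · obtain ⟨w, hw, h⟩ := jac_mem (RR_le_SS_vp p) r s hs0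
    rw [h, det_xt, DY_zeta]
    exact VGe.mul' hw ((vp_lam p p).congr (if_pos rfl)).inv.ge (by simp)

theorem RR_le_OO {g : KK} (hg : g ∈ RR) : g ∈ OO := mem_OO_iff.mpr (mem_RR_iff.mp hg).mo

section basis

variable (b : Basis (Fin 3) KK Ω[KK⁄ℂ])

/-- change of basis -/
noncomputable def uu : KK := b.det b0

theorem uu_ne : uu b ≠ 0 := (b.isUnit_det b0).ne_zero

theorem det_eq (v : Fin 3 → Ω[KK⁄ℂ]) : b.det v = uu b * b0.det v := by
  conv_lhs => rw [AlternatingMap.eq_smul_basis_det b0 b.det]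
  rfl

theorem top_MO {g : KK} (hg : g ∈ topFormModule OO KK b) : MO 1 (g / uu b) := by
  induction hg using Submodule.span_induction with
  | mem g hg =>
    obtain ⟨f, rfl⟩ := hg
    rw [det_eq, mul_div_cancel_left₀ _ (uu_ne b)]
    exact jac_MO f
  | zero => rw [zero_div]; exact MO.zero _
  | add a c _ _ ha hc => rw [add_div]; exact ha.add hc
  | smul a c _ hc =>
    rw [Algebra.smul_def, mul_div_assoc]
    exact ((mem_OO_iff.mp a.2).mul hc).congr (zero_add _)

theorem top_pow_MO (n : ℕ) {g : KK} (hg : g ∈ topFormModule OO KK b ^ n) :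
    MO n (g / uu b ^ n) := by
  induction n generalizing g with
  | zero =>
    rw [pow_zero, Submodule.mem_one] at hg
    obtain ⟨a, rfl⟩ := hg
    simpa using mem_OO_iff.mp a.2
  | succ n ih =>
    rw [pow_succ] at hg
    refine Submodule.mul_induction_on hg (fun a ha c hc => ?_) (fun a c ha hc => ?_)
    · rw [pow_succ, mul_div_mul_comm]
      exact ((ih ha).mul (top_MO b hc)).congr (by push_cast; ring)
    · rw [add_div]; exact ha.add hc

theorem mem_one_iff {g : KK} : g ∈ (1 : Submodule OO KK) ↔ MO 0 g := by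
  rw [Submodule.mem_one, ← mem_OO_iff]
  exact ⟨fun ⟨a, h⟩ => h ▸ a.2, fun h => ⟨⟨g, h⟩, rfl⟩⟩

theorem det_mem_top {g : KK} (hg : g ∈ RR) : uu b * DY g ∈ topFormModule OO KK b := by
  refine Submodule.subset_span ⟨![⟨xK, RR_le_OO (iK_mem_RR _)⟩, ⟨tK, RR_le_OO (iK_mem_RR _)⟩,
    ⟨g, RR_le_OO hg⟩], ?_⟩
  rw [← det_xt, ← det_eq]
  congr 1
  ext j
  fin_cases j <;> rfl

theorem pluri_MO (n : ℕ) {g : KK} (hg : g ∈ pluricanonicalModule OO KK b n) :
    MO n (g / uu b ^ n) := by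
  have hu := pow_ne_zero n (uu_ne b)
  have key : ∀ h, MM (-n) h → MO 0 (g / uu b ^ n * h) := by
    intro h hh
    have h1 : h / uu b ^ n ∈ 1 / topFormModule OO KK b ^ n := by
      intro z hz
      rw [mem_one_iff, div_mul_eq_mul_div, mul_div_assoc]
      exact (hh.mo.mul (top_pow_MO b n hz)).congr (by simp)
    have h2 := mem_one_iff.mp (hg _ h1)
    convert h2 using 1
    field_simp
  obtain ⟨s, hs, h1⟩ := key (iK LT ^ n) ⟨pow_mem (iK_mem_LS _) _, fun p => by
    refine ((vp_LT p).pow n).ge.mono ?_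
    have : 1 ≤ (JJ p).card := card_pos.mpr ⟨_, ip_mem p⟩
    have : (1 : ℤ) ≤ (JJ p).card := by exact_mod_cast this
    nlinarith⟩
  have hP : ∀ p, VEq (vp p) n ((∏ q, lamK q) ^ n) := fun p =>
    ((vp_prod_lam p univ).pow n).congr (by simp)
  obtain ⟨s', hs', h2⟩ := key ((∏ q, lamK q) ^ n) ⟨by
    refine pow_mem (prod_mem fun q _ => ?_) _
    rw [← iK_lamT]; exact iK_mem_LS _, fun p => (hP p).ge.mono (by simp)⟩
  refine ⟨s * s', mul_notMem hs hs', ?_, fun p => ?_⟩
  · have := mul_mem (mul_mem (mem_RR_iff.mp s'.2).1 h1.1) (pow_mem inv_LK_mem_LS n)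
    convert this using 1
    have := LK_ne
    push_cast
    rw [inv_pow]
    field_simp
  · have h3 := h2.2 p
    rw [← mul_assoc] at h3
    have := ((mem_RR_iff.mp s.2).2 p).mul (h3.of_mul (hP p))
    convert this using 1
    · simp
    · push_cast; ring

theorem mem_pluri (n : ℕ) {g : KK} (hg : MM n g) :
    uu b ^ n * g ∈ pluricanonicalModule OO KK b n := by
  intro h hh
  rw [mem_one_iff]
  have key : ∀ r ∈ RR, MO 0 (h * (uu b * DY r) ^ n) := fun r hr =>
    mem_one_iff.mp (hh _ (Submodule.pow_mem_pow _ (det_mem_top b hr) n))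
  obtain ⟨s₀, hs₀, h₀⟩ := key yK (iK_mem_RR _)
  choose s hs h₁ using fun p => key (WK (ip p)) (WK_mem_RR _)
  rw [DY_y, mul_one] at h₀
  refine ⟨s₀ * ∏ p, s p, mul_notMem hs₀ (prod_mem fun p _ => hs p : _ ∈ mm.primeCompl), ?_,
    fun p => ?_⟩
  · have := mul_mem (mul_mem (mem_RR_iff.mp (∏ p, s p).2).1 h₀.1) hg.1
    convert this using 1
    push_cast; ring
  · have h2 := (h₁ p).2 p
    have h3 : VEq (vp p) (-n) (DY (WK (ip p)) ^ n) := by
      rw [DY_W]
      exact (((vp_WK p _).neg.div (vp_ell_mem (ip_mem p))).pow n).congr (by simp)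
    rw [mul_pow, ← mul_assoc, ← mul_assoc] at h2
    have h4 := ((mem_RR_iff.mp (s₀ * ∏ q ∈ univ.erase p, s q).2).2 p).mul
      ((h2.of_mul h3).mul (hg.2 p))
    convert h4 using 1
    · simp
    · rw [← mul_prod_erase _ _ (mem_univ p)]
      push_cast; ring

end basis

end Pool.Agent.Lib.MP_20b407_ag
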