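import Mathlib
import Pool.Agent.Lib.MP_20b407_ag.Data

/-! The key inequality for polynomials in two variables. -/

set_option linter.unusedSectionVars false

namespace Pool.Agent.Lib.MP_20b407_ag

open Finset Polynomial

/-- degree bound -/
def DB (d : ℤ) (P : ℂ[X]) : Prop := P ≠ 0 → (P.natDegree : ℤ) ≤ d

theorem DB.zero (d : ℤ) : DB d 0 := fun h => absurd rfl h

theorem DB.mono {d e : ℤ} {P : ℂ[X]} (h : DB d P) (hde : d ≤ e) : DB e P :=
  fun hP => (h hP).trans hde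

theorem DB.add {d : ℤ} {P Q : ℂ[X]} (hP : DB d P) (hQ : DB d Q) : DB d (P + Q) := by
  intro h
  by_cases h1 : P = 0
  · subst h1; rw [zero_add] at h ⊢; exact hQ h
  by_cases h2 : Q = 0
  · subst h2; rw [add_zero] at h ⊢; exact hP h
  have := natDegree_add_le P Q
  have := hP h1
  have := hQ h2
  omega

theorem DB.mul {d e : ℤ} {P Q : ℂ[X]} (hP : DB d P) (hQ : DB e Q) : DB (d + e) (P * Q) := by
  intro h
  have := natDegree_mul_le (p := P) (q := Q)
  have := hP (left_ne_zero_of_mul h)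
  have := hQ (right_ne_zero_of_mul h)
  omega

theorem DB.sum {ι : Type*} {d : ℤ} {s : Finset ι} {f : ι → ℂ[X]} (h : ∀ i ∈ s, DB d (f i)) :
    DB d (∑ i ∈ s, f i) :=
  Finset.sum_induction _ _ (fun _ _ => DB.add) (DB.zero d) h

theorem DB.of_le {d : ℕ} {P : ℂ[X]} (h : P.natDegree ≤ d) : DB d P := fun _ => by exact_mod_cast h

/-- weight bound -/
def WB (w : ℤ) (F : ℂ[X][X]) : Prop := ∀ e : ℕ, DB (w - 4 * e) (F.coeff e)

theorem WB.div {w : ℤ} {σ : ℂ[X]} (hσ : σ.natDegree ≤ 4) {G : ℂ[X][X]}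
    (h : WB w ((X - C σ) * G)) : WB (w - 4) G := by
  have key : ∀ j e : ℕ, G.natDegree < e + j → DB (w - 4 - 4 * e) (G.coeff e) := by
    intro j
    induction j with
    | zero => intro e he; rw [coeff_eq_zero_of_natDegree_lt (by simpa using he)]; exact DB.zero _
    | succ j ih =>
      intro e he
      have h1 : G.coeff e = ((X - C σ) * G).coeff (e + 1) + σ * G.coeff (e + 1) := by
        rw [sub_mul, coeff_sub, coeff_X_mul, coeff_C_mul]; ring
      rw [h1]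
      exact ((h (e + 1)).mono (by push_cast; omega)).add
        (((DB.of_le hσ).mul (ih (e + 1) (by omega))).mono (by push_cast; omega))
  exact fun e => key (G.natDegree + 1) e (by omega)

theorem WB.div_pow {w : ℤ} {σ : ℂ[X]} (hσ : σ.natDegree ≤ 4) (a : ℕ) {G : ℂ[X][X]}
    (h : WB w ((X - C σ) ^ a * G)) : WB (w - 4 * a) G := by
  induction a generalizing w with
  | zero => simpa using h
  | succ a ih =>
    rw [pow_succ', mul_assoc] at h
    convert ih (h.div hσ) using 1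
    push_cast; ring

theorem WB.eval {w : ℤ} {σ : ℂ[X]} (hσ : σ.natDegree ≤ 4) {G : ℂ[X][X]} (h : WB w G) :
    DB w (G.eval σ) := by
  rw [eval_eq_sum_range]
  refine DB.sum fun e _ => ((h e).mul (DB.of_le (d := e * 4) ?_)).mono (by push_cast; omega)
  exact natDegree_pow_le.trans (Nat.mul_le_mul_left _ hσ)

/-- linear factors -/
noncomputable abbrev lS (p : Fin 18) : ℂ[X] := lam X 1 p
/-- quartics -/
noncomputable abbrev sS (i : Fin 4) : ℂ[X] := sig X 1 i

theorem lS_eq (p : Fin 18) : lS p = X - C (aa p) := by simp [lam]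

theorem lS_prime (p : Fin 18) : Prime (lS p) := by rw [lS_eq]; exact prime_X_sub_C _

theorem lS_natDegree (p : Fin 18) : (lS p).natDegree = 1 := by rw [lS_eq]; simp

theorem lS_eval (p : Fin 18) (r : ℂ) : (lS p).eval r = r - aa p := by simp [lS_eq]

theorem lS_not_dvd {p q : Fin 18} (h : q ≠ p) : ¬ lS p ∣ lS q := by
  rw [lS_eq p, dvd_iff_isRoot, IsRoot, lS_eval, sub_eq_zero]
  exact fun h' => h (aa_inj h').symm

theorem sS_natDegree (i : Fin 4) : (sS i).natDegree ≤ 4 := by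
  by_cases h : i = 0
  · subst h; simp [sig_zero]
  · refine (natDegree_C_mul_le _ _).trans ((natDegree_prod_le _ _).trans ?_)
    simp [lS_natDegree, card_cp, Ne.symm h]

/-- blow up chart -/
noncomputable def phS (p : Fin 18) : ℂ[X][X] →ₐ[ℂ[X]] ℂ[X][X] :=
  aeval (C (sS (ip p)) + C (lS p) * X)

/-- divisibility condition -/
def Dv (p : Fin 18) (m a : ℕ) (F : ℂ[X][X]) : Prop := C (lS p) ^ m ∣ C (lS p) ^ a * phS p F

theorem ClS_prime (p : Fin 18) : Prime (C (lS p) : ℂ[X][X]) := prime_C_iff.mpr (lS_prime p)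

theorem Dv.div_mem {p : Fin 18} {m a k : ℕ} {j : Fin 4} (hj : j ∈ JJ p) {G : ℂ[X][X]}
    (h : Dv p m a ((X - C (sS j)) ^ k * G)) : Dv p m (a + k) G := by
  have h1 : phS p (X - C (sS j)) = C (lS p) * (X + C (dd X 1 p (ip p) j)) := by
    have := congrArg C (sig_sub_dd (X : ℂ[X]) 1 (ip_mem p) hj)
    simp only [map_sub, map_mul] at this
    simp only [phS, map_sub, aeval_X, aeval_C, algebraMap_eq]
    linear_combination this
  unfold Dv at h ⊢
  rw [map_mul, map_pow, h1, mul_pow] at h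
  refine (ClS_prime p).pow_dvd_of_dvd_mul_left m (a := (X + C (dd X 1 p (ip p) j)) ^ k)
    (fun h2 => ?_) (by convert h using 1; ring)
  have h3 := (C_dvd_iff_dvd_coeff _ _).mp ((ClS_prime p).dvd_of_dvd_pow h2) 1
  rw [coeff_add, coeff_X_one, coeff_C_of_ne_zero one_ne_zero, add_zero] at h3
  exact (lS_prime p).not_dvd_one h3

theorem Dv.div_notMem {p : Fin 18} {m a k : ℕ} {j : Fin 4} (hj : j ∉ JJ p) {G : ℂ[X][X]}
    (h : Dv p m a ((X - C (sS j)) ^ k * G)) : Dv p m a G := by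
  unfold Dv at h ⊢
  rw [map_mul, map_pow] at h
  refine (ClS_prime p).pow_dvd_of_dvd_mul_left m (a := (phS p (X - C (sS j))) ^ k)
    (fun h2 => ?_) (by convert h using 1; ring)
  have h3 := (C_dvd_iff_dvd_coeff _ _).mp ((ClS_prime p).dvd_of_dvd_pow h2) 0
  have h4 : (phS p (X - C (sS j))).coeff 0 = C (sc (ip p) - sc j) * pr X 1 (ip p) j := by
    have := sig_sub (X : ℂ[X]) 1 (ip p) j
    simpa [phS] using this
  have hne : ip p ≠ j := fun h => hj (h ▸ ip_mem p)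
  rw [h4] at h3
  rcases (lS_prime p).dvd_or_dvd h3 with h5 | h5
  · exact (lS_prime p).not_isUnit (isUnit_of_dvd_unit h5
      (isUnit_C.mpr (IsUnit.mk0 _ (sub_ne_zero.mpr fun h => hne (sc_inj h)))))
  · obtain ⟨q, hq, h6⟩ := (lS_prime p).exists_mem_finset_dvd h5
    exact lS_not_dvd (p := p) (q := q) (fun h => hj (by subst h; exact (mem_cp.mp hq).2)) h6

theorem Dv.eval {p : Fin 18} {m a : ℕ} {i : Fin 4} (hi : i ∈ JJ p) {G : ℂ[X][X]}
    (h : Dv p m a G) : lS p ^ m ∣ lS p ^ a * G.eval (sS i) := by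
  have h1 := map_dvd (evalRingHom (-dd X 1 p (ip p) i)) h
  have h2 : sS (ip p) + lS p * (-dd X 1 p (ip p) i) = sS i := by
    have := sig_sub_dd (X : ℂ[X]) 1 (ip_mem p) hi
    linear_combination this
  simp only [map_pow, map_mul, coe_evalRingHom, eval_C, phS, ← comp_eq_aeval, eval_comp, eval_add,
    eval_mul, eval_X, h2] at h1
  exact h1

theorem Dv.coeff {p : Fin 18} (hp : ip p = 0) {m a : ℕ} {G : ℂ[X][X]} (h : Dv p m a G) (e : ℕ) :
    lS p ^ m ∣ lS p ^ (a + e) * G.coeff e := by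
  unfold Dv at h
  rw [← C_pow, C_dvd_iff_dvd_coeff] at h
  have h1 := h e
  rw [← C_pow, coeff_C_mul, phS, hp, show sS 0 = 0 from sig_zero _ _, C_0, zero_add,
    ← comp_eq_aeval, comp_C_mul_X_coeff] at h1
  convert h1 using 1
  ring

theorem Dv.eval_top {p : Fin 18} (hp : ip p = 0) {m : ℕ} {G : ℂ[X][X]} (h : Dv p m 0 G)
    (σ : ℂ[X]) : lS p ^ (m + 1) ∣
      lS p ^ G.natDegree * (G.eval σ - G.leadingCoeff * σ ^ G.natDegree) := by
  rw [eval_eq_sum_range, sum_range_succ, leadingCoeff, add_sub_cancel_right, mul_sum]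
  refine dvd_sum fun e he => ?_
  obtain ⟨d, hd⟩ := Nat.exists_eq_add_of_lt (mem_range.mp he)
  obtain ⟨u, hu⟩ := h.coeff hp e
  rw [zero_add] at hu
  exact ⟨u * lS p ^ d * σ ^ e, by rw [hd]; linear_combination (lS p ^ d * lS p * σ ^ e) * hu⟩

theorem Dv.eval' {p : Fin 18} (hp : ip p = 0) {m : ℕ} {G : ℂ[X][X]} (h : Dv p m 0 G)
    (σ : ℂ[X]) : lS p ^ m ∣ lS p ^ G.natDegree * G.eval σ := by
  have h1 := (pow_dvd_pow _ (Nat.le_succ m)).trans (h.eval_top hp σ)
  have h2 := (h.coeff hp G.natDegree).mul_right (σ ^ G.natDegree)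
  convert dvd_add h1 h2 using 1
  rw [zero_add, leadingCoeff]; ring

theorem count (T : ℂ[X]) (hT : T ≠ 0) (m a : Fin 18 → ℕ)
    (h : ∀ p, lS p ^ m p ∣ lS p ^ a p * T) :
    ∃ T', T' ≠ 0 ∧ (∏ p, lS p ^ a p) * T = (∏ p, lS p ^ m p) * T' ∧
      ∑ p, a p + T.natDegree = ∑ p, m p + T'.natDegree := by
  have h1 : ∏ p, lS p ^ m p ∣ (∏ p, lS p ^ a p) * T := by
    refine Finset.prod_dvd_of_isRelPrime (fun p _ q _ hpq => ?_) fun p _ => ?_
    · exact IsRelPrime.pow
        ((lS_prime p).irreducible.isRelPrime_iff_not_dvd.mpr (lS_not_dvd hpq.symm))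
    · exact (h p).trans (mul_dvd_mul_right (dvd_prod_of_mem (fun p => lS p ^ a p) (mem_univ p)) _)
  obtain ⟨T', hT'⟩ := h1
  have hne : ∀ e : Fin 18 → ℕ, ∏ p, lS p ^ e p ≠ 0 := fun e =>
    prod_ne_zero_iff.mpr fun p _ => pow_ne_zero _ (lS_prime p).ne_zero
  have hdeg : ∀ e : Fin 18 → ℕ, (∏ p, lS p ^ e p).natDegree = ∑ p, e p := fun e => by
    rw [natDegree_prod _ _ fun p _ => pow_ne_zero _ (lS_prime p).ne_zero]
    simp [lS_natDegree]
  have h0 : T' ≠ 0 := by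
    rintro rfl
    exact mul_ne_zero (hne a) hT (by simpa using hT')
  refine ⟨T', h0, hT', ?_⟩
  have := congrArg natDegree hT'
  rwa [natDegree_mul (hne a) hT, natDegree_mul (hne m) h0, hdeg, hdeg] at this

theorem period {b a D N : ℕ} {τ κ : ℂ} (hτ : τ ≠ 0) (hκ : κ ≠ 0)
    (h0 : (302400 : ℂ) ^ (2 * b) * τ * (-50 / 61) ^ D = κ * 168000 ^ N * (302400 * (-50 / 61)) ^ a)
    (h1 : (-2016000 : ℂ) ^ (2 * b) * τ * (72 / 61) ^ D =
      κ * (-403200) ^ N * (-2016000 * (72 / 61)) ^ a) (m : ℤ) (hD : (D : ℤ) = 3 * b + 6 * m)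
    (ha : (a : ℤ) = b - 2 * m) (hN : (N : ℤ) = 3 * b + 7 * m) : m = 0 := by
  have h2 : (-20 / 3 : ℂ) ^ (2 * b) * (-36 / 25) ^ D = (-12 / 5) ^ N * (-20 / 3 * (-36 / 25)) ^ a := by
    rw [show (-2016000 : ℂ) = -20 / 3 * 302400 by norm_num,
      show (72 / 61 : ℂ) = -36 / 25 * (-50 / 61) by norm_num,
      show (-403200 : ℂ) = -12 / 5 * 168000 by norm_num] at h1
    have h3 : κ * 168000 ^ N * (302400 * (-50 / 61)) ^ a ≠ 0 :=
      mul_ne_zero (mul_ne_zero hκ (pow_ne_zero _ (by norm_num))) (pow_ne_zero _ (by norm_num))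
    refine mul_right_cancel₀ h3 ?_
    simp only [mul_pow] at h0 h1 ⊢
    linear_combination h1 - (-20 / 3 : ℂ) ^ (2 * b) * (-36 / 25) ^ D * h0
  have h3 := congrArg (fun z : ℂ => Real.log ‖z‖) h2
  simp only [norm_mul, norm_pow, norm_div, norm_neg, Complex.norm_ofNat] at h3
  rw [Real.log_mul (by positivity) (by positivity), Real.log_mul (by positivity) (by positivity),
    Real.log_pow, Real.log_pow, Real.log_pow, Real.log_pow,
    Real.log_mul (by positivity) (by positivity)] at h3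
  have h4 : Real.log (20 / 3) = 3 * Real.log (12 / 5) - 2 * Real.log (36 / 25) := by
    rw [show (20 / 3 : ℝ) = (12 / 5) ^ 3 / (36 / 25) ^ 2 by norm_num,
      Real.log_div (by positivity) (by positivity), Real.log_pow, Real.log_pow]
    norm_num
  have h5 : Real.log (12 / 5) < 4 * Real.log (36 / 25) := by
    have := Real.log_lt_log (x := 12 / 5) (y := (36 / 25) ^ 4) (by positivity) (by norm_num)
    rw [Real.log_pow] at this
    exact_mod_cast this
  have hD' : (D : ℝ) = 3 * b + 6 * m := by exact_mod_cast hD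
  have ha' : (a : ℝ) = b - 2 * m := by exact_mod_cast ha
  have hN' : (N : ℝ) = 3 * b + 7 * m := by exact_mod_cast hN
  rw [h4, hD', ha', hN'] at h3
  push_cast at h3
  have h6 : (m : ℝ) * (4 * Real.log (36 / 25) - Real.log (12 / 5)) = 0 := by linear_combination h3
  rcases mul_eq_zero.mp h6 with h | h
  · exact_mod_cast h
  · linarith

/-- required vanishing orders -/
def mu (b n : ℕ) (p : Fin 18) : ℕ := if (JJ p).card = 3 then 3 * b + n else 2 * b

theorem key_poly (b n : ℕ) (w : ℤ) {F : ℂ[X][X]} (hF : F ≠ 0) (hw : WB w F)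
    (hd : ∀ p, Dv p (mu b n p) 0 F) :
    16 * b + 3 * n ≤ w ∧ (w = 16 * b + 3 * n → F.natDegree ≤ 4 * b) := by
  obtain ⟨F3, h3, h3'⟩ := exists_eq_pow_rootMultiplicity_mul_and_not_dvd F hF (sS 2)
  obtain ⟨F4, h4, h4'⟩ := exists_eq_pow_rootMultiplicity_mul_and_not_dvd F hF (sS 3)
  generalize rootMultiplicity (sS 2) F = a3 at h3
  generalize rootMultiplicity (sS 3) F = a4 at h4
  rw [dvd_iff_isRoot, IsRoot] at h3' h4'
  have hF3 : F3 ≠ 0 := by rintro rfl; simp at h3'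
  have hF4 : F4 ≠ 0 := by rintro rfl; simp at h4'
  have hmon : ∀ (σ : ℂ[X]) (a : ℕ), ((X - C σ) ^ a).Monic := fun σ a => (monic_X_sub_C σ).pow a
  have hD3 : F.natDegree = a3 + F3.natDegree := by
    rw [h3, (hmon _ _).natDegree_mul' hF3]; simp
  have hD4 : F.natDegree = a4 + F4.natDegree := by
    rw [h4, (hmon _ _).natDegree_mul' hF4]; simp
  have hc3 : F3.leadingCoeff = F.leadingCoeff := by
    rw [h3, leadingCoeff_monic_mul (hmon _ _)]
  have hc4 : F4.leadingCoeff = F.leadingCoeff := by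
    rw [h4, leadingCoeff_monic_mul (hmon _ _)]
  have hdvd : (X - C (sS 2)) ^ a3 ∣ F4 := by
    refine (prime_X_sub_C (sS 2)).pow_dvd_of_dvd_mul_left a3 (a := (X - C (sS 3)) ^ a4)
      (fun h => ?_) (by rw [← h4, h3]; exact dvd_mul_right _ _)
    have h1 := (prime_X_sub_C (sS 2)).dvd_of_dvd_pow h
    rw [dvd_iff_isRoot, IsRoot, eval_sub, eval_X, eval_C, sig_sub] at h1
    refine mul_ne_zero ?_ (prod_ne_zero_iff.mpr fun p _ => (lS_prime p).ne_zero) h1
    exact (map_ne_zero_iff _ (algebraMap ℂ ℂ[X]).injective).mpr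
      (sub_ne_zero.mpr fun h => absurd (sc_inj h) (by decide))
  obtain ⟨F2, h2⟩ := hdvd
  have hF2 : F2 ≠ 0 := by rintro rfl; simp [hF4] at h2
  have hD2 : F4.natDegree = a3 + F2.natDegree := by
    rw [h2, (hmon _ _).natDegree_mul' hF2]; simp
  have hc2 : F2.leadingCoeff = F.leadingCoeff := by
    rw [← hc4, h2, leadingCoeff_monic_mul (hmon _ _)]
  have hc : F.leadingCoeff ≠ 0 := leadingCoeff_ne_zero.mpr hF
  set c := F.leadingCoeff with hcdef
  set μ := 3 * b + n with hμ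
  set N := F4.natDegree with hN
  set D3 := F3.natDegree with hD3def
  have hd3 : ∀ p, Dv p (mu b n p) 0 ((X - C (sS 2)) ^ a3 * F3) := fun p => h3 ▸ hd p
  have hd4 : ∀ p, Dv p (mu b n p) 0 ((X - C (sS 3)) ^ a4 * F4) := fun p => h4 ▸ hd p
  have e0 : ∀ p, ip p = 0 → 2 ∈ JJ p → 3 ∉ JJ p → lS p ^ mu b n p ∣ lS p ^ N * c := by
    intro p hp h2' h3'
    have := (hd4 p).div_notMem h3'
    rw [h2] at this
    have := (this.div_mem h2').coeff hp F2.natDegree
    rwa [zero_add, ← hD2, ← leadingCoeff, hc2] at this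
  have e0' : lS 2 ^ mu b n 2 ∣ lS 2 ^ D3 * c := by
    have := (hd4 2).div_mem (by decide)
    rw [h2] at this
    have := (this.div_notMem (by decide)).coeff rfl F2.natDegree
    rwa [zero_add, ← leadingCoeff, hc2, show a4 + F2.natDegree = D3 by omega] at this
  have e3 : ∀ p, 2 ∈ JJ p → lS p ^ mu b n p ∣ lS p ^ a3 * F3.eval (sS 2) := fun p hp => by
    simpa using ((hd3 p).div_mem hp).eval hp
  have e3' : lS 2 ^ mu b n 2 ∣ lS 2 ^ D3 * F3.eval (sS 2) :=
    ((hd3 2).div_notMem (by decide)).eval' rfl _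
  have e4 : ∀ p, 3 ∈ JJ p → lS p ^ mu b n p ∣ lS p ^ a4 * F4.eval (sS 3) := fun p hp => by
    simpa using ((hd4 p).div_mem hp).eval hp
  have e4' : ∀ p, ip p = 0 → 3 ∉ JJ p → lS p ^ mu b n p ∣ lS p ^ N * F4.eval (sS 3) :=
    fun p hp h => ((hd4 p).div_notMem h).eval' hp _
  obtain ⟨c', hc', E0, I0⟩ := count c hc ![μ, μ, μ, 0, 0, 0, 0, 0, 0, 0, 0, 0, 0, 0, 0, 0, 0, 0]
    ![N, N, D3, 0, 0, 0, 0, 0, 0, 0, 0, 0, 0, 0, 0, 0, 0, 0] (by
      intro p
      fin_cases p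
      · exact e0 0 rfl (by decide) (by decide)
      · exact e0 1 rfl (by decide) (by decide)
      · exact e0'
      all_goals exact one_dvd _)
  obtain ⟨T3', hT3', -, I3⟩ := count _ h3'
    ![μ, μ, μ, 0, 2 * b, 2 * b, 2 * b, 2 * b, 0, 0, 0, 0, 0, 0, 2 * b, 2 * b, 2 * b, 2 * b]
    ![a3, a3, D3, 0, a3, a3, a3, a3, 0, 0, 0, 0, 0, 0, a3, a3, a3, a3] (by
      intro p
      fin_cases p
      exacts [e3 0 (by decide), e3 1 (by decide), e3', one_dvd _, e3 4 (by decide),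
        e3 5 (by decide), e3 6 (by decide), e3 7 (by decide), one_dvd _, one_dvd _, one_dvd _,
        one_dvd _, one_dvd _, one_dvd _, e3 14 (by decide), e3 15 (by decide), e3 16 (by decide),
        e3 17 (by decide)])
  obtain ⟨T4', hT4', E4, I4⟩ := count _ h4'
    ![μ, μ, μ, 0, 0, 0, 0, 0, 2 * b, 2 * b, 2 * b, 2 * b, 2 * b, 2 * b, 2 * b, 2 * b, 2 * b, 2 * b]
    ![N, N, a4, 0, 0, 0, 0, 0, a4, a4, a4, a4, a4, a4, a4, a4, a4, a4] (by
      intro p
      fin_cases p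
      exacts [e4' 0 rfl (by decide), e4' 1 rfl (by decide), e4 2 (by decide), one_dvd _, one_dvd _,
        one_dvd _, one_dvd _, one_dvd _, e4 8 (by decide), e4 9 (by decide), e4 10 (by decide),
        e4 11 (by decide), e4 12 (by decide), e4 13 (by decide), e4 14 (by decide),
        e4 15 (by decide), e4 16 (by decide), e4 17 (by decide)])
  simp only [Fin.sum_univ_succ, Matrix.cons_val_zero, Matrix.cons_val_succ, univ_eq_empty,
    sum_empty] at I0 I3 I4
  have B0 := hw F.natDegree hc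
  have B3 := ((h3 ▸ hw).div_pow (sS_natDegree 2) a3).eval (sS_natDegree 2) h3'
  have B4 := ((h4 ▸ hw).div_pow (sS_natDegree 3) a4).eval (sS_natDegree 3) h4'
  rw [← leadingCoeff, ← hcdef] at B0
  refine ⟨by omega, fun hk => ?_⟩
  obtain ⟨κ, rfl⟩ : ∃ κ, c' = C κ := ⟨_, eq_C_of_natDegree_eq_zero (by omega)⟩
  obtain ⟨τ, rfl⟩ : ∃ τ, T4' = C τ := ⟨_, eq_C_of_natDegree_eq_zero (by omega)⟩
  let Δ := lS 8 * lS 9 * lS 10 * lS 11 * lS 12 * lS 13 * lS 14 * lS 15 * lS 16 * lS 17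
  have E0' : (lS 0 * lS 1) ^ N * lS 2 ^ D3 * c = (lS 0 * lS 1 * lS 2) ^ μ * C κ := by
    simp [Fin.prod_univ_succ] at E0
    linear_combination E0
  have E4' : (Δ * lS 2) ^ a4 * (lS 0 * lS 1) ^ N * F4.eval (sS 3) =
      Δ ^ (2 * b) * (lS 0 * lS 1 * lS 2) ^ μ * C τ := by
    simp [Fin.prod_univ_succ] at E4
    simp only [Δ]
    linear_combination E4
  have key : ∀ p q : Fin 18, lS 0 * lS 1 = lS p * lS q → q ≠ p → p ≠ 2 → ip p = 0 → 3 ∉ JJ p →
      mu b n p = μ → Δ.eval (aa p) ^ (2 * b) * τ * (aa p - aa 2) ^ D3 =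
        κ * (sS 3).eval (aa p) ^ N * (Δ.eval (aa p) * (aa p - aa 2)) ^ a4 := by
    intro p q hpq hq hp2 hp h3p hmu
    obtain ⟨u, hu⟩ := ((hd4 p).div_notMem h3p).eval_top hp (sS 3)
    rw [hmu, ← hN, hc4] at hu
    rw [hpq] at E0' E4'
    have h5 : (lS q * lS 2) ^ μ * (Δ ^ (2 * b) * C τ * lS 2 ^ D3 -
        C κ * sS 3 ^ N * (Δ * lS 2) ^ a4) = lS p * (u * lS q ^ N * (Δ * lS 2) ^ a4 * lS 2 ^ D3) := by
      refine mul_left_cancel₀ (pow_ne_zero μ (lS_prime p).ne_zero) ?_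
      simp only [mul_pow] at E0' E4' ⊢
      linear_combination (lS q ^ N * (Δ ^ a4 * lS 2 ^ a4) * lS 2 ^ D3) * hu -
        lS 2 ^ D3 * E4' + sS 3 ^ N * (Δ ^ a4 * lS 2 ^ a4) * E0'
    have h6 := congrArg (Polynomial.eval (aa p)) h5
    simp only [eval_mul, eval_pow, eval_sub, eval_C, lS_eval, sub_self, zero_mul] at h6
    refine sub_eq_zero.mp ((mul_eq_zero.mp h6).resolve_left (pow_ne_zero _ (mul_ne_zero ?_ ?_)))
    · exact sub_ne_zero.mpr fun h => hq (aa_inj h).symm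
    · exact sub_ne_zero.mpr fun h => hp2 (aa_inj h)
  have k0 := key 0 1 rfl (by decide) (by decide) rfl (by decide) rfl
  have k1 := key 1 0 (mul_comm _ _) (by decide) (by decide) rfl (by decide) rfl
  have v0 : Δ.eval (aa 0) = 302400 := by simp [Δ, lS_eval, aa, aQ]; norm_num
  have v1 : Δ.eval (aa 1) = -2016000 := by simp [Δ, lS_eval, aa, aQ]; norm_num
  have w0 : aa 0 - aa 2 = -50 / 61 := by simp [aa, aQ]; norm_num
  have w1 : aa 1 - aa 2 = 72 / 61 := by simp [aa, aQ]; norm_num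
  have s0 : (sS 3).eval (aa 0) = 168000 := by
    simp [sig, pr, cp03, lS_eval, aa, aQ, sc, scZ]; norm_num
  have s1 : (sS 3).eval (aa 1) = -403200 := by
    simp [sig, pr, cp03, lS_eval, aa, aQ, sc, scZ]; norm_num
  rw [v0, w0, s0] at k0
  rw [v1, w1, s1] at k1
  have := period (by simpa using hT4') (by simpa using hc') k0 k1 (b - a3) (by omega) (by omega)
    (by omega)
  omega

end Pool.Agent.Lib.MP_20b407_ag
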