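import Mathlib
import Pool.Agent.Lib.MP_20b407_ag.KeyPoly
import Pool.Agent.Lib.MP_20b407_ag.Nu

/-! The key inequality. -/

set_option linter.unusedSectionVars false

namespace Pool.Agent.Lib.MP_20b407_ag

open Finset Polynomial

attribute [-simp] MvPolynomial.aeval_eq_bind₁ MvPolynomial.aeval_eq_eval

/-- dehomogenised weight decomposition -/
noncomputable def chi (d : ℕ) : TT →ₐ[ℂ] ℂ[X][X][X] :=
  MvPolynomial.aeval (R := ℂ) (S₁ := ℂ[X][X][X]) ![C (C X) * X, X, C X * X ^ d]

theorem WB.zero (w : ℤ) : WB w 0 := fun e => by simpa using DB.zero _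

theorem chi_WB (Φ : TT) (w : ℕ) : WB w ((chi 4 Φ).coeff w) := by
  induction Φ using MvPolynomial.induction_on generalizing w with
  | C a =>
    intro e
    rw [MvPolynomial.algHom_C]
    change DB _ (((C (C (C a)) : ℂ[X][X][X]).coeff w).coeff e)
    rw [coeff_C]
    split_ifs with hw
    · rw [coeff_C]
      split_ifs with he
      · subst hw he; simpa using DB.of_le (d := 0) (P := C a) (by simp)
      · exact DB.zero _
    · exact WB.zero _ e
  | add p q hp hq => intro e; rw [map_add, coeff_add, coeff_add]; exact (hp w e).add (hq w e)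
  | mul_X p i hp =>
    rw [map_mul]
    fin_cases i
    · have : chi 4 (MvPolynomial.X 0) = C (C X) * X ^ 1 := by simp [chi]
      simp only [Fin.zero_eta, this, ← mul_assoc, coeff_mul_X_pow', coeff_mul_C]
      split_ifs with h
      · intro e
        rw [coeff_mul_C]
        exact ((hp (w - 1) e).mul (DB.of_le (d := 1) natDegree_X_le)).mono (by omega)
      · exact WB.zero _
    · have : chi 4 (MvPolynomial.X 1) = X ^ 1 := by simp [chi]
      simp only [Fin.mk_one, this, coeff_mul_X_pow']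
      split_ifs with h
      · exact fun e => (hp (w - 1) e).mono (by omega)
      · exact WB.zero _
    · have : chi 4 (MvPolynomial.X 2) = C X * X ^ 4 := by simp [chi]
      simp only [Fin.reduceFinMk, this, ← mul_assoc, coeff_mul_X_pow', coeff_mul_C]
      split_ifs with h
      · intro e
        rcases e with _ | e
        · rw [coeff_mul_X_zero]; exact DB.zero _
        · rw [coeff_mul_X]
          exact (hp (w - 4) e).mono (by push_cast; omega)
      · exact WB.zero _

/-- double constant embedding -/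
noncomputable def CC : ℂ[X] →ₐ[ℂ] ℂ[X][X][X] := (CAlgHom (A := ℂ[X][X])).comp CAlgHom

theorem CC_apply (a : ℂ[X]) : CC a = C (C a) := rfl

theorem chi_lam (d : ℕ) (p : Fin 18) : chi d (lamT p) = C (C (lS p)) * X := by
  have h1 := map_lam (B := TT) (B' := ℂ[X][X][X]) (chi d) (MvPolynomial.X 0) (MvPolynomial.X 1) p
  have h2 := map_lam (B := ℂ[X]) (B' := ℂ[X][X][X]) CC X 1 p
  have h3 := lam_smul (B := ℂ[X][X][X]) (CC X) (CC 1) X p
  rw [← CC_apply, h1, h2, ← h3]
  simp [chi, CC_apply]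

theorem chi_sig (d : ℕ) (i : Fin 4) :
    chi d (sig (MvPolynomial.X 0) (MvPolynomial.X 1) i) = C (C (sS i)) * X ^ 4 := by
  have h1 := map_sig (B := TT) (B' := ℂ[X][X][X]) (chi d) (MvPolynomial.X 0) (MvPolynomial.X 1) i
  have h2 := map_sig (B := ℂ[X]) (B' := ℂ[X][X][X]) CC X 1 i
  have h3 := sig_smul (B := ℂ[X][X][X]) (CC X) (CC 1) X i
  rw [← CC_apply, h1, h2, ← h3]
  simp [chi, CC_apply]

theorem chi_phi (p : Fin 18) (Φ : TT) :
    chi 3 (phi p Φ) = (chi 4 Φ).map (phS p).toRingHom := by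
  have : (chi 3).comp (phi p) = (mapAlgHom ((phS p).restrictScalars ℂ)).comp (chi 4) := by
    refine MvPolynomial.algHom_ext fun k => ?_
    fin_cases k
    · simp [chi, phS]
    · simp [chi]
    · simp only [Fin.reduceFinMk, AlgHom.comp_apply, phi_2, map_add, map_mul, chi_lam, chi_sig]
      simp [chi, phS]; ring
  exact AlgHom.congr_fun this Φ

theorem Dv_of_vp (p : Fin 18) (Φ : TT) (m : ℕ) (h : VGe (vp p) m (iK Φ)) (w : ℕ) :
    Dv p m 0 ((chi 4 Φ).coeff w) := by
  have h1 := map_dvd (chi 3) ((vp_dvd p Φ m).mp h)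
  have h0 := mul_pow (C (C (lS p)) : ℂ[X][X][X]) X m
  rw [map_pow, chi_lam, chi_phi, h0, ← C_pow] at h1
  have h2 := (C_dvd_iff_dvd_coeff _ _).mp ((dvd_mul_right _ _).trans h1) w
  rw [coeff_map] at h2
  unfold Dv
  rw [pow_zero, one_mul]
  exact h2

theorem iK_chi (Φ : TT) : iK Φ = (chi 4 Φ).sum fun w F =>
    F.aevalAeval (xK / tK) (yK / tK ^ 4) * tK ^ w := by
  have : iK.toRingHom = (eval₂RingHom
      (aevalAeval (R := ℂ) (xK / tK) (yK / tK ^ 4)).toRingHom tK).comp (chi 4).toRingHom := by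
    have := tK_ne
    refine MvPolynomial.ringHom_ext (fun a => ?_) fun k => ?_
    · simp only [AlgHom.toRingHom_eq_coe, RingHom.coe_coe, MvPolynomial.algHom_C,
        RingHom.comp_apply, coe_eval₂RingHom]
      change _ = eval₂ _ _ (C (algebraMap ℂ ℂ[X][X] a))
      rw [eval₂_C, RingHom.coe_coe, AlgHom.commutes]
    · fin_cases k
      · simp [chi]; field_simp
      · simp [chi]
      · simp [chi]; field_simp
  have h := RingHom.congr_fun this Φ
  exact h.trans eval₂_eq_sum

theorem key_ineq {n k : ℕ} (hk : n ≤ k) {h : KK} (hh : MM (2 * n) h) :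
    VGe (nu k) (n * (-13 * k - 9)) h := by
  obtain ⟨⟨b, Φ, hΦ⟩, hv⟩ := hh
  have h1 : iK (Φ * LT ^ n) = h * iK LT ^ (b + n) := by
    rw [map_mul, map_pow, ← hΦ]; ring
  have h2 : ∀ p, VGe (vp p) (mu b n p) (iK (Φ * LT ^ n)) := by
    intro p
    rw [h1]
    refine (hv p).mul' ((vp_LT p).pow _).ge ?_
    have : (JJ p).card = 3 ∨ (JJ p).card = 2 := by revert p; decide
    unfold mu
    rcases this with h | h <;> rw [h] <;> simp <;> omega
  have h3 : VGe (nu k) (4 * b * (4 * k + 3) + 3 * n * (k + 1)) (iK (Φ * LT ^ n)) := by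
    rw [iK_chi, sum_def]
    refine VGe.sum fun w hw => ?_
    have hF := mem_support_iff.mp hw
    have hW := chi_WB (Φ * LT ^ n) w
    obtain ⟨e1, e2⟩ := key_poly b n w hF hW fun p => Dv_of_vp p _ _ (h2 p) w
    have e3 := hW _ (leadingCoeff_ne_zero.mpr hF)
    have hz : VEq (nu k) (-1) (yK / tK ^ 4) :=
      ((nu_y k).div ((nu_t k).pow 4)).congr (by push_cast; ring)
    refine ((val_poly (nu_s k) hz hF).mul ((nu_t k).pow w)).ge.mono ?_
    generalize ((chi 4 (Φ * LT ^ n)).coeff w).natDegree = D at e2 e3 ⊢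
    generalize (((chi 4 (Φ * LT ^ n)).coeff w).coeff D).natDegree = d at e3
    have hk' : (n : ℤ) ≤ k := by exact_mod_cast hk
    rcases e1.eq_or_lt with e | e
    · have := e2 e.symm
      rw [← e]
      nlinarith
    · obtain ⟨κ, hκ⟩ : ∃ κ : ℤ, (w : ℤ) = 16 * b + 3 * n + 1 + κ := ⟨w - 16 * b - 3 * n - 1, by ring⟩
      have hκ0 : 0 ≤ κ := by omega
      rw [hκ] at e3 ⊢
      nlinarith [mul_nonneg hκ0 (Nat.cast_nonneg k : (0 : ℤ) ≤ k)]
  rw [h1] at h3
  exact (h3.of_mul ((nu_LT k).pow _)).mono (le_of_eq (by push_cast; ring))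

end Pool.Agent.Lib.MP_20b407_ag
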