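import Mathlib
import Pool.Agent.Lib.MP_20b407_ag.Key
import Pool.Agent.Lib.MP_20b407_ag.Fibre

/-! Pluricanonical forms with unbounded slope. -/

set_option linter.unusedSectionVars false

namespace Pool.Agent.Lib.MP_20b407_ag

open Finset Polynomial

/-- triangle of indices -/
abbrev Tri (μ : ℕ) : Type := Σ r : Fin μ, Fin (r + 1)

theorem card_Tri (μ : ℕ) : 2 * Fintype.card (Tri μ) = μ * (μ + 1) := by
  simp only [Fintype.card_sigma, Fintype.card_fin]
  rw [Fin.sum_univ_eq_sum_range (fun r => r + 1)]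
  induction μ with
  | zero => simp
  | succ n ih => rw [sum_range_succ, mul_add, ih]; ring

theorem aevalAeval_eq_sum {K : Type} [CommRing K] [Algebra ℂ K] (s z : K) (F : ℂ[X][X]) :
    F.aevalAeval s z = ∑ e ∈ range (F.natDegree + 1), aeval s (F.coeff e) * z ^ e := by
  conv_lhs => rw [F.as_sum_range, map_sum]
  refine sum_congr rfl fun e _ => ?_
  rw [← C_mul_X_pow_eq_monomial, map_mul, map_pow, aevalAeval_C, aevalAeval_Y]

/-- translation -/
noncomputable def shift (a c : ℂ) : ℂ[X][X] →ₐ[ℂ] ℂ[X][X] :=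
  aevalAeval (C (X + C a)) (X + C (C c))

theorem shift_eval {K : Type} [CommRing K] [Algebra ℂ K] (s z : K) (a c : ℂ) (F : ℂ[X][X]) :
    (shift a c F).aevalAeval (s - algebraMap ℂ K a) (z - algebraMap ℂ K c) =
      F.aevalAeval s z := by
  have : (aevalAeval (s - algebraMap ℂ K a) (z - algebraMap ℂ K c)).comp (shift a c) =
      aevalAeval s z := by
    ext <;> simp [shift]
  exact AlgHom.congr_fun this F

theorem vp_mult (p : Fin 18) {u w : KK} (hu : VGe (vp p) 1 u) (hw : VGe (vp p) 1 w) (μ : ℕ)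
    {G : ℂ[X][X]} (hG : ∀ i j, i + j < μ → (G.coeff j).coeff i = 0) :
    VGe (vp p) μ (G.aevalAeval u w) := by
  rw [aevalAeval_eq_sum]
  refine VGe.sum fun j _ => ?_
  rw [aeval_eq_sum_range, sum_mul]
  refine VGe.sum fun i _ => ?_
  by_cases h : i + j < μ
  · rw [hG i j h, zero_smul, zero_mul]; exact VGe.zero _
  · rw [Algebra.smul_def]
    exact ((vp_const' p _).mul (hu.pow i)).mul' (hw.pow j) (by omega)

/-- functions with a constant residue -/
noncomputable def Rs (p : Fin 18) : Subalgebra ℂ KK where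
  carrier := {g | ∃ c : ℂ, VGe (vp p) 1 (g - algebraMap ℂ KK c)}
  mul_mem' := by
    rintro a b ⟨c, hc⟩ ⟨d, hd⟩
    refine ⟨c * d, ?_⟩
    have : a * b - algebraMap ℂ KK (c * d) = (a - algebraMap ℂ KK c) * (b - algebraMap ℂ KK d) +
        (a - algebraMap ℂ KK c) * algebraMap ℂ KK d +
        algebraMap ℂ KK c * (b - algebraMap ℂ KK d) := by rw [map_mul]; ring
    rw [this]
    exact ((hc.mul' hd (by omega)).add (hc.mul' (vp_const' p d) (by omega))).add
      ((vp_const' p c).mul' hd (by omega))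
  add_mem' := by
    rintro a b ⟨c, hc⟩ ⟨d, hd⟩
    exact ⟨c + d, by rw [map_add, add_sub_add_comm]; exact hc.add hd⟩
  algebraMap_mem' c := ⟨c, by rw [sub_self]; exact VGe.zero _⟩

theorem Rs_inv {p : Fin 18} {g : KK} (hg : g ∈ Rs p) (h0 : VEq (vp p) 0 g) : g⁻¹ ∈ Rs p := by
  obtain ⟨c, hc⟩ := hg
  have hc0 : c ≠ 0 := by
    rintro rfl
    have := h0.le (by simpa using hc)
    omega
  have h1 := vp_const p hc0
  refine ⟨c⁻¹, ?_⟩
  have : g⁻¹ - algebraMap ℂ KK c⁻¹ = -(g - algebraMap ℂ KK c) / (g * algebraMap ℂ KK c) := by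
    have := h0.ne_zero
    have := h1.ne_zero
    rw [map_inv₀]; field_simp; ring
  rw [this]
  exact hc.neg.div (h0.mul h1)

/-- the three triple points -/
noncomputable def LamK : KK := ∏ q ∈ {0, 1, 2}, lamK q

theorem LamK_ne : LamK ≠ 0 := prod_ne_zero_iff.mpr fun q _ => lamK_ne q

theorem LamK_mem : LamK ∈ RR := prod_mem fun q _ => lam_mem (iK_mem_RR _) (iK_mem_RR _) q

/-- affine coordinates -/
noncomputable def sK : KK := xK / tK
/-- affine coordinates -/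
noncomputable def zK : KK := yK / (tK * LamK)

theorem lam_sK (q : Fin 18) : lam sK 1 q = lamK q / tK := by
  have := tK_ne
  simp only [lam, sK]; field_simp

theorem vp_s (p : Fin 18) : VGe (vp p) 1 (sK - algebraMap ℂ KK (aa p)) := by
  have := lam_sK p
  rw [lam, mul_one] at this
  rw [this]
  exact (((vp_lam p p).div (vp_t p)).congr (by simp)).ge

theorem vp_s0 (p : Fin 18) : VGe (vp p) 0 sK := (vp_iK p _).div (vp_t p)

theorem vp_z0 (p : Fin 18) : VGe (vp p) 0 zK := by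
  have h1 := (vp_t p).mul (vp_prod_lam p {0, 1, 2})
  by_cases hp : p ∈ ({0, 1, 2} : Finset (Fin 18))
  · have h2 : VEq (vp p) 1 yK := by
      have := vp_ell_mem (p := p) (j := 0) (by clear h1; revert p; decide)
      simpa [ell, sig_zero] using this
    exact (h2.div h1).ge.mono (by simp [hp])
  · exact ((vp_iK p _).div h1).mono (by simp [hp])

theorem z_res {p : Fin 18} (hp : p ∉ ({0, 1, 2} : Finset (Fin 18))) : zK ∈ Rs p := by
  have hs : sK ∈ Rs p := ⟨_, vp_s p⟩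
  have h1 : VEq (vp p) 0 (tK * LamK) :=
    ((vp_t p).mul (vp_prod_lam p {0, 1, 2})).congr (by simp [hp])
  have ht := tK_ne
  have hL := LamK_ne
  have h2 : ∏ q ∈ {0, 1, 2}, lam sK 1 q = LamK / tK ^ 3 := by
    simp only [lam_sK, prod_div_distrib, LamK, prod_const]; rfl
  have h3 : sig xK tK (ip p) = sig sK 1 (ip p) * tK ^ 4 := by
    rw [← sig_smul, sK, div_mul_cancel₀ _ ht, one_mul]
  have h4 : zK = ellK (ip p) / (tK * LamK) + sig sK 1 (ip p) * (LamK / tK ^ 3)⁻¹ := by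
    rw [zK, ellK, ell, h3]; field_simp; ring
  rw [h4]
  refine add_mem ⟨0, ?_⟩ (mul_mem (sig_mem hs (one_mem _) _) (Rs_inv ?_ ?_))
  · simpa using ((vp_ell_mem (ip_mem p)).div h1).ge
  · rw [← h2]; exact prod_mem fun q _ => lam_mem hs (one_mem _) q
  · exact ((vp_prod_lam p {0, 1, 2}).div ((vp_t p).pow 3)).congr (by simp [hp])

/-- multiplicities -/
def mt (m : ℕ) : Fin 18 → ℕ :=
  ![0, 0, 0, 0, m, m, m, m, 2 * m, 2 * m, 2 * m, 2 * m, 2 * m, 2 * m, 3 * m, 3 * m, 3 * m, 3 * m]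

theorem exists_zp (p : Fin 18) : ∃ c : ℂ, ∀ (m : ℕ) (Ψ : ℂ[X][X]),
    (∀ i j, i + j < mt m p → ((shift (aa p) c Ψ).coeff j).coeff i = 0) →
    VGe (vp p) (mt m p) (Ψ.aevalAeval sK zK) := by
  by_cases hp : p ∈ ({0, 1, 2} : Finset (Fin 18))
  · refine ⟨0, fun m Ψ _ => ?_⟩
    have : mt m p = 0 := by
      simp only [mem_insert, mem_singleton] at hp
      rcases hp with rfl | rfl | rfl <;> rfl
    rw [this, aevalAeval_eq_sum]
    refine VGe.sum fun j _ => ?_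
    rw [aeval_eq_sum_range, sum_mul]
    refine VGe.sum fun i _ => ?_
    rw [Algebra.smul_def]
    exact ((vp_const' p _).mul ((vp_s0 p).pow i)).mul' ((vp_z0 p).pow j) (by simp)
  · obtain ⟨c, hc⟩ := z_res hp
    exact ⟨c, fun m Ψ h => by rw [← shift_eval _ _ (aa p) c]; exact vp_mult p (vp_s p) hc _ h⟩

theorem hom_mem {ψ : ℂ[X]} {r : ℕ} (h : ψ.natDegree ≤ r) : aeval sK ψ * tK ^ r ∈ RR := by
  rw [aeval_eq_sum_range, sum_mul]
  refine sum_mem fun i hi => ?_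
  obtain ⟨d, rfl⟩ := Nat.exists_eq_add_of_le ((Nat.lt_succ_iff.mp (mem_range.mp hi)).trans h)
  have : ψ.coeff i • sK ^ i * tK ^ (i + d) = ψ.coeff i • (xK ^ i * tK ^ d) := by
    have := tK_ne
    rw [smul_mul_assoc, sK, div_pow]
    congr 1
    field_simp
    ring
  rw [this]
  exact Subalgebra.smul_mem _ (mul_mem (pow_mem (iK_mem_RR _) _) (pow_mem (iK_mem_RR _) _)) _

/-- the pluricanonical form attached to a plane curve -/
noncomputable def HH (m d : ℕ) (Ψ : ℂ[X][X]) : KK :=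
  Ψ.aevalAeval sK zK * tK ^ d * LamK ^ (8 * m) * ((∏ q ∈ {0, 1}, lamK q) ^ m * lamK 2 ^ (2 * m)) /
    (ellK 2 ^ m * ellK 3 ^ (2 * m) * iK LT ^ (8 * m))

theorem HH_MM (m d : ℕ) {Ψ : ℂ[X][X]} (h1 : Ψ.natDegree ≤ 8 * m)
    (h2 : ∀ e : ℕ, DB (d - e) (Ψ.coeff e)) (h3 : ∀ p, VGe (vp p) (mt m p) (Ψ.aevalAeval sK zK)) :
    MM (2 * (8 * m : ℕ)) (HH m d Ψ) := by
  have hR : ∀ {g}, g ∈ RR → g ∈ LS := fun hg => (mem_RR_iff.mp hg).1
  have hl : ∀ q, lamK q ∈ RR := fun q => lam_mem (iK_mem_RR _) (iK_mem_RR _) q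
  refine ⟨?_, fun p => ?_⟩
  · rw [HH, div_eq_mul_inv, mul_inv, mul_inv, ← inv_pow, ← inv_pow, ← inv_pow]
    refine mul_mem (mul_mem (hR ?_) (hR (mul_mem (pow_mem (prod_mem fun q _ => hl q) _)
      (pow_mem (hl 2) _)))) (mul_mem (mul_mem (pow_mem (inv_ell_mem_LS _) _)
        (pow_mem (inv_ell_mem_LS _) _)) (pow_mem inv_LK_mem_LS _))
    rw [aevalAeval_eq_sum, sum_mul, sum_mul]
    refine sum_mem fun e he => ?_
    by_cases h0 : Ψ.coeff e = 0
    · simp [h0]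
    have h4 := h2 e h0
    obtain ⟨r, rfl⟩ : ∃ r, d = e + r := Nat.exists_eq_add_of_le (by omega)
    obtain ⟨u, hu⟩ := Nat.exists_eq_add_of_le ((Nat.lt_succ_iff.mp (mem_range.mp he)).trans h1)
    have : aeval sK (Ψ.coeff e) * zK ^ e * tK ^ (e + r) * LamK ^ (8 * m) =
        aeval sK (Ψ.coeff e) * tK ^ r * yK ^ e * LamK ^ u := by
      have := tK_ne
      have := LamK_ne
      rw [hu, zK, div_pow]; field_simp; ring
    rw [this]
    exact mul_mem (mul_mem (hom_mem (by push_cast at h4; omega)) (pow_mem (iK_mem_RR _) _))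
      (pow_mem LamK_mem _)
  · refine (((((h3 p).mul ((vp_t p).pow d).ge).mul ((vp_prod_lam p {0, 1, 2}).pow _).ge).mul
      (((vp_prod_lam p {0, 1}).pow m).mul ((vp_lam p 2).pow _)).ge).div
      ((((vp_ell p 2).pow m).mul ((vp_ell p 3).pow _)).mul ((vp_LT p).pow _))).mono ?_
    fin_cases p <;> simp [mt, JJ] <;> omega

theorem HH_nu (m d k : ℕ) {Ψ : ℂ[X][X]} (h : Ψ ≠ 0) :
    VEq (nu k) ((8 * m : ℕ) * (-13 * k - 9) - Ψ.natDegree + 3 * m + (d - 8 * m) * (k + 1))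
      (HH m d Ψ) := by
  have hz : VEq (nu k) (-1) zK :=
    ((nu_y k).div ((nu_t k).mul (nu_prod_lam k {0, 1, 2}))).congr (by simp; ring)
  refine (((((val_poly (nu_s k) hz h).mul ((nu_t k).pow d)).mul
    ((nu_prod_lam k {0, 1, 2}).pow _)).mul (((nu_prod_lam k {0, 1}).pow m).mul
      ((nu_lin k (aa 2)).pow _))).div
      ((((nu_ell k 2).pow m).mul ((nu_ell k 3).pow _)).mul ((nu_LT k).pow _))).congr ?_
  simp
  ring

theorem exists_curve (m E : ℕ) (hE : 3 * E < 14 * m) (c : Fin 18 → ℂ) :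
    ∃ Ψ : ℂ[X][X], Ψ ≠ 0 ∧
      (∀ e i, (Ψ.coeff e).coeff i ≠ 0 → e ≤ 8 * m ∧ i + e ≤ 8 * m + 2 ∧ (e ≤ E → i + e < 8 * m)) ∧
      ∀ p i j, i + j < mt m p → ((shift (aa p) (c p) Ψ).coeff j).coeff i = 0 := by
  let I := Tri (8 * m) ⊕ (Fin (8 * m - E) × Fin 3)
  let ex : I → ℕ × ℕ := Sum.elim (fun a => (a.2, a.1 - a.2))
    (fun a => (E + 1 + a.1, 8 * m - (E + 1 + a.1) + a.2))
  have hex : Function.Injective ex := by
    rintro (⟨⟨r, hr⟩, q, hq⟩ | ⟨⟨r, hr⟩, q, hq⟩) (⟨⟨r', hr'⟩, q', hq'⟩ | ⟨⟨r', hr'⟩, q', hq'⟩) h <;>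
      simp only [ex, Sum.elim_inl, Sum.elim_inr, Prod.mk.injEq] at h hq hq'
    · obtain rfl : q = q' := h.1
      obtain rfl : r = r' := by omega
      rfl
    · omega
    · omega
    · obtain rfl : r = r' := by omega
      obtain rfl : q = q' := by omega
      rfl
  let bd : (I → ℂ) →ₗ[ℂ] ℂ[X][X] :=
    Fintype.linearCombination ℂ fun a => monomial (ex a).1 (monomial (ex a).2 1)
  have hbd : ∀ v e i, ((bd v).coeff e).coeff i = ∑ a, if ex a = (e, i) then v a else 0 := by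
    intro v e i
    simp only [bd, Fintype.linearCombination_apply, finsetSum_coeff, coeff_smul, coeff_monomial]
    refine sum_congr rfl fun a _ => ?_
    by_cases h1 : (ex a).1 = e
    · by_cases h2 : (ex a).2 = i
      · simp [h1, h2, Prod.ext_iff, coeff_monomial]
      · simp [h1, h2, Prod.ext_iff, coeff_monomial]
    · simp [h1, Prod.ext_iff]
  let Lm : (I → ℂ) →ₗ[ℂ] ((Σ p, Tri (mt m p)) → ℂ) := LinearMap.pi fun a =>
    lcoeff ℂ (a.2.1 - a.2.2) ∘ₗ (lcoeff ℂ[X] a.2.2).restrictScalars ℂ ∘ₗ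
      (shift (aa a.1) (c a.1)).toLinearMap ∘ₗ bd
  have hcard : Fintype.card (Σ p, Tri (mt m p)) < Fintype.card I := by
    have h1 : 2 * Fintype.card (Σ p, Tri (mt m p)) = 64 * m ^ 2 + 28 * m := by
      rw [Fintype.card_sigma, mul_sum]
      simp only [card_Tri]
      simp [Fin.sum_univ_succ, mt]
      ring
    have h2 : Fintype.card I = Fintype.card (Tri (8 * m)) + (8 * m - E) * 3 := by
      simp only [I, Fintype.card_sum, Fintype.card_prod, Fintype.card_fin]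
    have h3 := card_Tri (8 * m)
    have h4 : 8 * m * (8 * m + 1) = 64 * m ^ 2 + 8 * m := by ring
    omega
  obtain ⟨v, hv, hv0⟩ := (Submodule.ne_bot_iff _).mp
    (LinearMap.ker_ne_bot_of_finrank_lt (f := Lm) (by simpa using hcard))
  refine ⟨bd v, fun h => hv0 ?_, fun e i h => ?_, fun p i j h => ?_⟩
  · funext a
    have := hbd v (ex a).1 (ex a).2
    rw [h, sum_eq_single a (fun b _ hb => if_neg fun h => hb (hex h)) (by simp)] at this
    simpa using this.symm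
  · rw [hbd] at h
    obtain ⟨a, -, ha⟩ := exists_ne_zero_of_sum_ne_zero h
    have h1 : ex a = (e, i) := by by_contra h; exact ha (if_neg h)
    rcases a with ⟨⟨r, hr⟩, q, hq⟩ | ⟨⟨r, hr⟩, q, hq⟩ <;>
      simp only [ex, Sum.elim_inl, Sum.elim_inr, Prod.mk.injEq] at h1 hq <;> omega
  · have := congrFun (LinearMap.mem_ker.mp hv) ⟨p, ⟨i + j, h⟩, ⟨j, by simp⟩⟩
    simpa [Lm] using this

theorem exists_bad (k : ℕ) :
    ∃ (n : ℕ) (h : KK), MM (2 * n) h ∧ ¬ VGe (nu k) (n * (-13 * k - 9)) h := by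
  choose c hc using exists_zp
  let m := 2 * (k + 1)
  obtain ⟨Ψ, h0, h1, h2⟩ := exists_curve m (3 * m + 2 * (k + 1)) (by omega) c
  have h3 := fun p => hc p m Ψ (h2 p)
  have hl : ∀ e, Ψ.coeff e ≠ 0 → (Ψ.coeff e).coeff (Ψ.coeff e).natDegree ≠ 0 :=
    fun e he => leadingCoeff_ne_zero.mpr he
  have hD : Ψ.natDegree ≤ 8 * m := (h1 _ _ (hl _ (leadingCoeff_ne_zero.mpr h0))).1
  by_cases hE : Ψ.natDegree ≤ 3 * m + 2 * (k + 1)
  · exfalso
    have h4 := HH_MM m (8 * m - 1) hD (fun e he => by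
      have := (h1 _ _ (hl e he)).2.2 ((le_natDegree_of_ne_zero he).trans hE)
      omega) h3
    have h5 := (HH_nu m (8 * m - 1) (8 * m) h0).le (key_ineq le_rfl h4)
    rw [show ((8 * m - 1 : ℕ) : ℤ) - 8 * m = -1 by omega] at h5
    omega
  · refine ⟨8 * m, _, HH_MM m (8 * m + 2) hD (fun e he => by
      have := (h1 _ _ (hl e he)).2.1
      omega) h3, fun h => ?_⟩
    have h5 := (HH_nu m (8 * m + 2) k h0).le h
    rw [show ((8 * m + 2 : ℕ) : ℤ) - 8 * m = 2 by omega] at h5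
    omega

end Pool.Agent.Lib.MP_20b407_ag
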