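import Mathlib
import Pool.Agent.Lib.MP_20b407_ag.Fibre

/-! The special fibre. -/

set_option linter.unusedSectionVars false

namespace Pool.Agent.Lib.MP_20b407_ag

open Finset MvPolynomial WithZero

attribute [-simp] MvPolynomial.aeval_eq_bind₁ MvPolynomial.aeval_eq_eval

theorem i2_mem (c : ℂ) (a : T2) : i2 a ∈ BB c := by
  induction a using MvPolynomial.induction_on with
  | C a => rw [algHom_C]; exact algebraMap_mem _ _
  | add p q hp hq => rw [map_add]; exact add_mem hp hq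
  | mul_X p i hp =>
    rw [map_mul]
    refine mul_mem hp ?_
    fin_cases i
    exacts [x2_mem c, y2_mem c]

instance (c : ℂ) : IsFractionRing (BB c) K2 := by
  refine IsFractionRing.of_field (BB c) K2 fun g => ?_
  obtain ⟨a, b, -, rfl⟩ := IsFractionRing.div_surjective (A := T2) g
  exact ⟨⟨_, i2_mem c a⟩, ⟨_, i2_mem c b⟩, rfl⟩

instance (c : ℂ) : Algebra.FiniteType ℂ (BB c) :=
  (Subalgebra.fg_iff_finiteType _).mp (Subalgebra.fg_def.mpr ⟨_, Set.toFinite _, rfl⟩)

theorem dim_BB (c : ℂ) : ringKrullDim (BB c) = 2 :=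
  krullDim_of_trdeg (K := ℂ) (BB c) 2 (by rw [← trdeg_frac (L := K2), trdeg_K2]; rfl)

/-- curves on the special fibre -/
noncomputable abbrev l0T (i : Fin 4) : T2 := ell (X 0) 0 (X 1) i
/-- curves on the special fibre -/
noncomputable abbrev l0 (i : Fin 4) : K2 := ell x2 0 y2 i

theorem l0T_ne (i : Fin 4) : l0T i ≠ 0 := by simpa using ell2T_ne 0 i

theorem l0_ne (i : Fin 4) : l0 i ≠ 0 := by simpa using ell2_ne 0 i

theorem i2_l0T (i : Fin 4) : i2 (l0T i) = l0 i := by simp

theorem W2_zero (i : Fin 4) : W2 0 i = x2 ^ (4 + al i) / l0 i := by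
  simp [W2, pr_zero, card_cp]

theorem X0_prime : Prime (X 0 : T2) := X_prime

/-- chart at the end of an arm -/
noncomputable def ph2 (i : Fin 4) : T2 →ₐ[ℂ] T2 :=
  aeval ![X 0, sig (X 0) 0 i + X 0 ^ (4 + al i) * X 1]

theorem ph2_inj (i : Fin 4) : Function.Injective (ph2 i) := by
  let ψ : T2 →ₐ[ℂ] K2 := aeval ![x2, l0 i / x2 ^ (4 + al i)]
  have h : ψ.comp (ph2 i) = i2 := by
    refine algHom_ext fun k => ?_
    have := x2_ne
    fin_cases k
    · simp [ψ, ph2]
    · simp [ψ, ph2, ell]; field_simp; ring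
  exact Function.Injective.of_comp (f := ψ) (by rw [← AlgHom.coe_comp, h]; exact i2_inj)

/-- valuations of the noncompact curves -/
noncomputable def v2 (i : Fin 4) : Valuation K2 ℤᵐ⁰ :=
  embVal K2 X0_prime (ph2 i).toRingHom (ph2_inj i)

theorem v2_i2 (i : Fin 4) (a : T2) : VGe (v2 i) 0 (i2 a) := embVal_ge_zero _ _ _ _ a

theorem v2_x (i : Fin 4) : VEq (v2 i) 1 x2 :=
  embVal_eq K2 X0_prime _ _ (X 0) 1 1 (by simp [ph2]) X0_prime.not_dvd_one

theorem v2_const (i : Fin 4) {c : ℂ} (hc : c ≠ 0) : VEq (v2 i) 0 (algebraMap ℂ K2 c) := by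
  rw [← i2.commutes]
  refine embVal_eq K2 X0_prime _ _ _ 0 (algebraMap ℂ T2 c) (by simp) fun h => ?_
  exact X0_prime.not_isUnit (isUnit_of_dvd_unit h ((IsUnit.mk0 c hc).map (algebraMap ℂ T2)))

theorem al_pos (i : Fin 4) : 0 < al i := by revert i; decide

theorem v2_l0 (i j : Fin 4) : VEq (v2 i) (cp i j).card (l0 j) := by
  have h : VEq (v2 i) (4 + al i : ℕ) (l0 i) := by
    rw [← i2_l0T]
    refine embVal_eq K2 X0_prime _ _ _ _ (X 1) (by simp [ph2, ell]) fun h => ?_
    have := map_dvd (aeval (R := ℂ) ![(0 : ℂ), 1]) h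
    simp at this
  rw [card_cp]
  split_ifs with hij
  · subst hij; exact h
  · have h1 : l0 j = algebraMap ℂ K2 (sc i - sc j) * x2 ^ 4 + l0 i := by
      simp [ell, sig_zero']; ring
    rw [h1]
    have := al_pos i
    refine VEq.add_ge (((v2_const i (sub_ne_zero.mpr fun h => hij (sc_inj h))).mul
      ((v2_x i).pow 4)).congr (by simp)) (h.ge.mono (by push_cast; omega))

/-- product of the curves -/
noncomputable def L2T : T2 := ∏ i, l0T i

theorem L2T_ne : L2T ≠ 0 := prod_ne_zero_iff.mpr fun i _ => l0T_ne i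

theorem L2_ne : i2 L2T ≠ 0 := fun h => L2T_ne (i2_inj (by rw [h, map_zero]))

theorem BB_le_vring (i : Fin 4) {g : K2} (hg : g ∈ BB 0) : VGe (v2 i) 0 g := by
  induction hg using Algebra.adjoin_induction with
  | mem g hg =>
    rcases hg with (rfl | rfl) | ⟨j, rfl⟩
    · exact v2_i2 i _
    · exact v2_i2 i _
    · rw [W2_zero]
      refine (((v2_x i).pow _).div (v2_l0 i j)).ge.mono ?_
      rw [card_cp]
      split_ifs with h
      · subst h; simp
      · push_cast; omega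
  | algebraMap c => rw [← i2.commutes]; exact v2_i2 i _
  | add a b _ _ ha hb => exact ha.add hb
  | mul a b _ _ ha hb => exact ha.mul' hb (by simp)

theorem BB_away {g : K2} (hg : g ∈ BB 0) : ∃ (N : ℕ) (Φ : T2), g * i2 L2T ^ N = i2 Φ := by
  induction hg using Algebra.adjoin_induction with
  | mem g hg =>
    rcases hg with (rfl | rfl) | ⟨j, rfl⟩
    · exact ⟨0, X 0, by simp⟩
    · exact ⟨0, X 1, by simp⟩
    · refine ⟨1, X 0 ^ (4 + al j) * ∏ k ∈ univ.erase j, l0T k, ?_⟩
      have := l0_ne j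
      rw [W2_zero, L2T, ← mul_prod_erase _ _ (mem_univ j)]
      simp only [map_mul, map_prod, map_pow, i2_l0T]
      field_simp
  | algebraMap c => exact ⟨0, algebraMap ℂ T2 c, by simp⟩
  | add a b _ _ ha hb =>
    obtain ⟨n, Φ, h⟩ := ha
    obtain ⟨m, Ψ, h'⟩ := hb
    exact ⟨n + m, Φ * L2T ^ m + Ψ * L2T ^ n, by
      rw [map_add, map_mul, map_mul, map_pow, map_pow, ← h, ← h']; ring⟩
  | mul a b _ _ ha hb =>
    obtain ⟨n, Φ, h⟩ := ha
    obtain ⟨m, Ψ, h'⟩ := hb
    exact ⟨n + m, Φ * Ψ, by rw [map_mul, ← h, ← h']; ring⟩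

theorem mem_BB_zero {g : K2} {N : ℕ} {Φ : T2} (hΦ : g * i2 L2T ^ N = i2 Φ)
    (h : ∀ i, VGe (v2 i) 0 g) : g ∈ BB 0 := by
  have hg : g = algebraMap T2 K2 Φ / algebraMap T2 K2 (∏ j, l0T j ^ (fun _ => N) j) := by
    rw [i2_eq, i2_eq, ← hΦ, prod_pow, ← L2T, map_pow, mul_div_cancel_right₀ _
      (pow_ne_zero _ L2_ne)]
  have h' : g ∈ ⨅ i, vring (v2 i) := Subring.mem_iInf.mpr h
  rw [hg] at h' ⊢
  refine gen_lemma l0T (fun i => pr (X 0) 0 i i) l0T_ne _ (BB 0).toSubring
    (fun g hg => Subring.mem_iInf.mpr fun i => BB_le_vring i hg)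
    (i2_mem 0) (fun i => ?_) (fun Φ b i h => ?_) Φ _ h'
  · rw [i2_eq, i2_eq, map_pr, map_ell, map_zero]
    simpa [W2] using W2_mem 0 i
  · let ev : T2 →ₐ[ℂ] T2 := aeval ![X 0, sig (X 0) 0 i]
    refine star_of_dvd (X 0) 0 (X 1) ev i (by simp [ev]) (by simp) (by simp [ev])
      (fun F => ?_) (fun F => ?_) Φ b ?_
    · have : ev.comp ev = ev := algHom_ext fun k => by fin_cases k <;> simp [ev]
      exact AlgHom.congr_fun this F
    · exact dvd_sub_algHom (AlgHom.id ℂ T2) ev _ (fun k => by fin_cases k <;> simp [ev, ell]) F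
    · simp only [pr_zero, ← pow_mul, prod_pow_eq_pow_sum]
      have h1 : VGe (v2 i) 0 _ := Subring.mem_iInf.mp h i
      have h2 : VEq (v2 i) (∑ j, (cp i j).card * b j : ℕ)
          (algebraMap T2 K2 (∏ j, l0T j ^ b j)) := by
        rw [i2_eq]
        simp only [map_prod, map_pow, i2_l0T]
        exact (VEq.prod fun j _ => (v2_l0 i j).pow (b j)).congr (by simp [mul_comm])
      have h3 := h1.mul h2.ge
      rw [div_mul_cancel₀ _ h2.ne_zero, zero_add] at h3
      have h4 := (embVal_ge_iff K2 X0_prime _ _ Φ _).mp h3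
      let θ : T2 →ₐ[ℂ] T2 := aeval ![X 0, 0]
      have h5 : θ.comp (ph2 i) = ev := algHom_ext fun k => by fin_cases k <;> simp [θ, ev, ph2]
      have h6 := map_dvd θ h4
      rw [← h5]
      simpa [θ] using h6

theorem BB_normal : IsIntegrallyClosed (BB 0) := by
  refine (isIntegrallyClosed_iff K2).mpr fun {g} hg => ?_
  obtain ⟨N, Φ, h⟩ := away_of_integral (K := K2) L2T L2T_ne (fun a : BB 0 => BB_away a.2) hg
  exact ⟨⟨g, mem_BB_zero h fun i => VGe.of_isIntegral (fun a : BB 0 => BB_le_vring i a.2) hg⟩, rfl⟩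

theorem l0_div (i : Fin 4) : l0 i / x2 ^ 4 = y2 / x2 ^ 4 - algebraMap ℂ K2 (sc i) := by
  have := x2_ne
  simp only [l0, ell, sig_zero']; field_simp

/-- the star -/
noncomputable def star : StarData K2 5 where
  x := x2
  l := Fin.cons 1 fun i => l0 i / x2 ^ 4
  nx := Fin.cons 1 fun _ => 0
  α := Fin.cons 4 al
  hx := x2_ne
  hl i := by
    refine Fin.cases ?_ (fun i => ?_) i
    · simp
    · simpa using ⟨l0_ne i, x2_ne⟩
  hnx i := by
    refine Fin.cases ?_ (fun i => ?_) i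
    · simp
    · simpa using (Fin.succ_ne_zero i).symm
  hlin i k := by
    refine Fin.cases ?_ (fun i => ?_) i <;> refine Fin.cases ?_ (fun k => ?_) k
    · exact ⟨0, 1, by simp, by simp⟩
    · refine ⟨1, -sc k, by simp, ?_⟩
      change l0 k / x2 ^ 4 = _ * (l0 0 / x2 ^ 4) + _ * 1
      simp [l0_div, sc_zero, sub_eq_add_neg]
    · exact ⟨1, 0, by simp, by simp⟩
    · refine ⟨sc i - sc k, 1, fun h => sub_ne_zero.mpr fun h' => h (by rw [sc_inj h']), ?_⟩
      simp [l0_div]
  hα i := by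
    refine Fin.cases ?_ (fun i => ?_) i
    · simp
    · simpa using al_pos i
  hgen i := by
    have := x2_ne
    refine Fin.cases ?_ (fun i => ?_) i
    · have hx : x2 ∈ IntermediateField.adjoin ℂ {x2, 1 / (l0 0 / x2 ^ 4)} :=
        IntermediateField.subset_adjoin _ _ (by simp)
      have hz : 1 / (l0 0 / x2 ^ 4) ∈ IntermediateField.adjoin ℂ {x2, 1 / (l0 0 / x2 ^ 4)} :=
        IntermediateField.subset_adjoin _ _ (by simp)
      refine eq_top_of_mem hx ?_
      have h : y2 = x2 ^ 4 / (1 / (l0 0 / x2 ^ 4)) := by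
        simp [ell, sig_zero]; field_simp
      rw [h]
      exact div_mem (pow_mem hx 4) hz
    · have hx : x2 ∈ IntermediateField.adjoin ℂ {x2, (l0 i / x2 ^ 4) / 1} :=
        IntermediateField.subset_adjoin _ _ (by simp)
      have hz : (l0 i / x2 ^ 4) / 1 ∈ IntermediateField.adjoin ℂ {x2, (l0 i / x2 ^ 4) / 1} :=
        IntermediateField.subset_adjoin _ _ (by simp)
      refine eq_top_of_mem hx ?_
      have h : y2 = x2 ^ 4 * (l0 i / x2 ^ 4 / 1 + algebraMap ℂ K2 (sc i)) := by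
        simp [l0_div]; field_simp
      rw [h]
      exact mul_mem (pow_mem hx 4) (add_mem hz (algebraMap_mem _ (sc i)))
  htr := trdeg_K2.ge

theorem star_w_zero : star.w 0 (star.α 0) = y2 := by
  have := x2_ne
  change x2 ^ 4 * ((l0 0 / x2 ^ 4) / 1) = _
  simp [ell, sig_zero]; field_simp

theorem star_w_succ (i : Fin 4) : star.w i.succ (star.α i.succ) = W2 0 i := by
  have := x2_ne
  have := l0_ne i
  change x2 ^ al i * (1 / (l0 i / x2 ^ 4)) = _
  rw [W2_zero]; field_simp; ring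

theorem BB_eq_star :
    BB 0 = Algebra.adjoin ℂ ({star.x} ∪ Set.range fun i => star.w i (star.α i)) := by
  unfold BB
  congr 1
  ext g
  simp only [Set.mem_union, Set.mem_insert_iff, Set.mem_singleton_iff, Set.mem_range,
    Fin.exists_fin_succ, star_w_zero, star_w_succ, or_assoc, eq_comm (a := y2)]
  rfl

theorem rational_of_equiv (A : Type) [CommRing A] [Algebra ℂ A] (e : A ≃ₐ[ℂ] BB 0) :
    HasRationalResolution A := by
  have : IsDomain A := e.toMulEquiv.isDomain
  let φ : A →ₐ[ℂ] K2 := (BB 0).val.comp e.toAlgHom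
  letI : Algebra A K2 := φ.toRingHom.toAlgebra
  have : IsScalarTower ℂ A K2 := .of_algebraMap_eq fun c => (φ.commutes c).symm
  have : FaithfulSMul A K2 := (faithfulSMul_iff_algebraMap_injective _ _).mpr
    (Subtype.val_injective.comp e.injective)
  have hr : Set.range (algebraMap A K2) = BB 0 := by
    ext g
    constructor
    · rintro ⟨a, rfl⟩; exact (e a).2
    · intro hg; exact ⟨e.symm ⟨g, hg⟩, congrArg Subtype.val (e.apply_symm_apply ⟨g, hg⟩)⟩
  have : IsFractionRing A K2 := by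
    refine IsFractionRing.of_field A K2 fun g => ?_
    obtain ⟨a, b, -, rfl⟩ := IsFractionRing.div_surjective (A := T2) g
    obtain ⟨a', ha⟩ : i2 a ∈ Set.range (algebraMap A K2) := by rw [hr]; exact i2_mem 0 a
    obtain ⟨b', hb⟩ : i2 b ∈ Set.range (algebraMap A K2) := by rw [hr]; exact i2_mem 0 b
    exact ⟨a', b', by rw [ha, hb]; rfl⟩
  exact star.rational A (by rw [hr, BB_eq_star])

end Pool.Agent.Lib.MP_20b407_ag
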