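import Mathlib
import Pool.Agent.Lib.MP_20b407_ag.Exist
import Pool.Agent.Lib.MP_20b407_ag.Canon
import Pool.Agent.Lib.MP_20b407_ag.Special

/-! The canonical algebra is not finitely generated. -/

set_option linter.unusedSectionVars false

namespace Pool.Agent.Lib.MP_20b407_ag

open Finset Polynomial Module WithZero

theorem VGe.sq_add {K : Type*} [Field K] {v : Valuation K ℤᵐ⁰} {m : ℤ} {a b : K}
    (ha : VGe v m (a ^ 2)) (hb : VGe v m (b ^ 2)) : VGe v m ((a + b) ^ 2) := by
  unfold VGe at *
  rw [map_pow] at *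
  rcases le_total (v a) (v b) with h | h
  · exact (pow_le_pow_left' ((v.map_add a b).trans (max_le h le_rfl)) 2).trans hb
  · exact (pow_le_pow_left' ((v.map_add a b).trans (max_le le_rfl h)) 2).trans ha

/-- graded subalgebra attached to a multiplicative filtration -/
noncomputable def grAlg (u : KK) (P : ℕ → KK → Prop) (h0 : ∀ n, P n 0)
    (hadd : ∀ n a b, P n a → P n b → P n (a + b))
    (hmul : ∀ m n a b, P m a → P n b → P (m + n) (a * b)) (hO : ∀ a ∈ OO, P 0 a) :
    Subalgebra OO KK[X] where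
  carrier := {F | ∀ n, P n (F.coeff n / u ^ n)}
  mul_mem' {F G} hF hG n := by
    rw [coeff_mul, sum_div]
    refine Finset.sum_induction _ _ (hadd n) (h0 n) fun c hc => ?_
    rw [← mem_antidiagonal.mp hc, pow_add, mul_div_mul_comm]
    exact hmul _ _ _ _ (hF _) (hG _)
  add_mem' {F G} hF hG n := by
    rw [coeff_add, add_div]; exact hadd _ _ _ (hF n) (hG n)
  algebraMap_mem' a n := by
    rw [Polynomial.algebraMap_apply, coeff_C]
    split_ifs with h
    · subst h; simpa using hO a a.2
    · simpa using h0 n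

theorem not_fg (b : Basis (Fin 3) KK Ω[KK⁄ℂ]) : ¬ (canonicalAlgebra OO KK b).FG := by
  rintro ⟨s, hs⟩
  let k := s.sup natDegree
  have h1 : canonicalAlgebra OO KK b ≤ grAlg (uu b) (fun n g => MO n g) (fun n => MO.zero _)
      (fun _ _ _ => MO.add) (fun _ _ _ _ ha hb => (ha.mul hb).congr (by push_cast; rfl))
      (fun a ha => mem_OO_iff.mp ha) := by
    refine Algebra.adjoin_le ?_
    rintro _ ⟨n, g, hg, rfl⟩ e
    rw [coeff_monomial]
    split_ifs with h
    · subst h; exact pluri_MO b n hg
    · rw [zero_div]; exact MO.zero _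
  have h2 : canonicalAlgebra OO KK b ≤ grAlg (uu b)
      (fun n g => VGe (nu k) (n * (-13 * k - 9)) (g ^ 2)) (fun n => by simpa using VGe.zero _)
      (fun _ _ _ => VGe.sq_add)
      (fun _ _ _ _ ha hb => by rw [mul_pow]; exact ha.mul' hb (le_of_eq (by push_cast; ring)))
      (fun a ha => by simpa using (nu_OO k ha).pow 2) := by
    rw [← hs]
    refine Algebra.adjoin_le fun F hF n => ?_
    by_cases hn : n ≤ k
    · have h3 := h1 (hs ▸ Algebra.subset_adjoin hF) n
      obtain ⟨r, hr, h4⟩ := h3.mul h3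
      have h5 := key_ineq hn (h4.congr (by ring))
      rw [mul_comm (r : KK), ← sq] at h5
      simpa using h5.of_mul (nu_unit k hr)
    · have : F.natDegree ≤ k := le_sup (f := natDegree) hF
      rw [coeff_eq_zero_of_natDegree_lt (by omega)]
      simpa using VGe.zero _
  obtain ⟨n, h, hh, hbad⟩ := exists_bad k
  have h3 := h2 (Algebra.subset_adjoin ⟨2 * n, _, mem_pluri b (2 * n) (hh.congr (by simp)), rfl⟩)
    (2 * n)
  rw [coeff_monomial, if_pos rfl, mul_div_cancel_left₀ _ (pow_ne_zero _ (uu_ne b))] at h3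
  exact hbad (VGe.of_sq (h3.mono (le_of_eq (by push_cast; ring))))

theorem flat_t : (aeval tR : ℂ[X] →ₐ[ℂ] RR).toRingHom.Flat := by
  let := (aeval tR : ℂ[X] →ₐ[ℂ] RR).toRingHom.toAlgebra
  have hinj : Function.Injective (algebraMap ℂ[X] RR) := by
    rw [injective_iff_map_eq_zero]
    intro ψ h
    have h1 : iK (aeval (MvPolynomial.X 1) ψ) = 0 := by
      rw [← aeval_algHom_apply]
      have := congrArg RR.val h
      rwa [map_zero, show algebraMap ℂ[X] RR ψ = aeval tR ψ from rfl, ← aeval_algHom_apply] at this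
    have h2 := congrArg (MvPolynomial.aeval (R := ℂ) (S₁ := ℂ[X]) ![0, X, 0])
      (iK_inj (h1.trans (map_zero _).symm))
    rw [← aeval_algHom_apply] at h2
    simpa using h2
  have : FaithfulSMul ℂ[X] RR := (faithfulSMul_iff_algebraMap_injective _ _).mpr hinj
  change Module.Flat ℂ[X] RR
  infer_instance

theorem tR_mem : tR ∈ mm := fun k => (nu_t k).ge.mono (by omega)

end Pool.Agent.Lib.MP_20b407_ag
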